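import Pool.Agent.Helper39.Flats.CN

set_option linter.unusedSectionVars false

namespace Pool.Agent.Helper39.Flats

open Set

variable {X : Type*} [MetricSpace X]
variable {V : Type*} [NormedAddCommGroup V] [InnerProductSpace ℝ V]

/-- Two flats are aligned at distance `δ`: together they look like `V × {0}`, `V × {δ}`. -/
def Al (f g : V → X) (δ : ℝ) : Prop := ∀ p q, dist (f p) (g q) ^ 2 = ‖p - q‖ ^ 2 + δ ^ 2

theorem Al.symm {f g : V → X} {δ : ℝ} (h : Al f g δ) : Al g f δ := by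
  intro p q
  rw [dist_comm, h q p, norm_sub_rev]

theorem Al.self {f : V → X} (hf : Isometry f) : Al f f 0 := by
  intro p q
  rw [hf.dist_eq, dist_eq_norm]; ring

theorem Al.dist_self {f g : V → X} {δ : ℝ} (h : Al f g δ) (p : V) :
    dist (f p) (g p) = |δ| := by
  have := h p p
  rw [sub_self, norm_zero] at this
  have h2 : dist (f p) (g p) ^ 2 = |δ| ^ 2 := by rw [this, sq_abs]; ring
  exact (pow_left_inj₀ dist_nonneg (abs_nonneg _) two_ne_zero).1 h2

theorem Al.near {f g : V → X} {δ : ℝ} (h : Al f g δ) : Near f g :=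
  ⟨|δ|, fun p => (h.dist_self p).le⟩

theorem near_translate {f g : V → X} (hg : Isometry g) (h : Near f g) (v : V) :
    Near f (fun p => g (p + v)) := by
  obtain ⟨C, hC⟩ := h
  refine ⟨C + ‖v‖, fun p => (dist_triangle _ (g p) _).trans (add_le_add (hC p) ?_)⟩
  rw [hg.dist_eq, dist_eq_norm]
  simp

theorem isometry_translate {g : V → X} (hg : Isometry g) (v : V) :
    Isometry (fun p => g (p + v)) := by
  intro p q
  rw [hg]
  simp

theorem exists_align [CompleteSpace V] (hX : IsCAT0 X) {f g : V → X} (hf : Isometry f)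
    (hg : Isometry g) (h : Near f g) : ∃ v : V, ∃ δ : ℝ, 0 ≤ δ ∧ Al f (fun p => g (p + v)) δ := by
  set e : V → ℝ := fun v => dist (f 0) (g v) ^ 2 with he
  have e_eq : ∀ p v, dist (f p) (g (p + v)) ^ 2 = e v := by
    intro p v
    have h1 := Near.dist_const hX hf (isometry_translate hg v) (near_translate hg h v) p 0
    simp only [zero_add] at h1
    rw [h1]
  set ψ : V → ℝ := fun v => e v - ‖v‖ ^ 2 with hψ
  have hpar : ∀ v w : V, ‖v + w‖ ^ 2 + ‖v - w‖ ^ 2 = 2 * (‖v‖ ^ 2 + ‖w‖ ^ 2) := by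
    intro v w
    have := parallelogram_law_with_norm ℝ v w
    nlinarith
  have jensen : ∀ v w, ψ (v + w) + ψ (v - w) = 2 * ψ v := by
    intro v w
    have h1 : e v ≤ (e (v + w) + e (v - w)) / 2 - ‖w‖ ^ 2 := by
      have hm := isMid_of_isometry hX hg (v + w) (v - w)
      have e1 : (1 / 2 : ℝ) • ((v + w) + (v - w)) = v := by module
      rw [e1] at hm
      have := hm (f 0)
      rw [hg.dist_eq, dist_eq_norm] at this
      have e2 : v + w - (v - w) = (2 : ℝ) • w := by module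
      rw [e2, norm_smul, Real.norm_of_nonneg (by norm_num : (0 : ℝ) ≤ 2)] at this
      have e3 : (2 * ‖w‖) ^ 2 = 4 * ‖w‖ ^ 2 := by ring
      rw [e3] at this
      simp only [he]
      linarith
    have h2 : e (v + w) + e (v - w) ≤ 2 * e v + 2 * ‖w‖ ^ 2 := by
      have := hX.quad (f 0) (f w) (g (w + v)) (g v)
      have a1 : dist (f 0) (g (w + v)) ^ 2 = e (v + w) := by rw [add_comm w v]
      have a2 : dist (f w) (g v) ^ 2 = e (v - w) := by
        have := e_eq w (v - w)
        rwa [add_sub_cancel] at this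
      have a3 : dist (f 0) (f w) = ‖w‖ := by rw [hf.dist_eq, dist_eq_norm, zero_sub, norm_neg]
      have a4 : dist (f w) (g (w + v)) ^ 2 = e v := e_eq w v
      have a5 : dist (g (w + v)) (g v) = ‖w‖ := by
        rw [hg.dist_eq, dist_eq_norm, add_sub_cancel_right]
      have a6 : dist (g v) (f 0) ^ 2 = e v := by rw [dist_comm]
      rw [a1, a2, a3, a4, a5, a6] at this
      linarith
    have h3 := hpar v w
    simp only [hψ]
    nlinarith
  set L : V → ℝ := fun v => ψ v - ψ 0 with hL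
  have half : ∀ x y, ψ x + ψ y = 2 * ψ ((1 / 2 : ℝ) • (x + y)) := by
    intro x y
    have := jensen ((1 / 2 : ℝ) • (x + y)) ((1 / 2 : ℝ) • (x - y))
    have e1 : (1 / 2 : ℝ) • (x + y) + (1 / 2 : ℝ) • (x - y) = x := by module
    have e2 : (1 / 2 : ℝ) • (x + y) - (1 / 2 : ℝ) • (x - y) = y := by module
    rw [e1, e2] at this
    exact this
  have hadd : ∀ x y, L (x + y) = L x + L y := by
    intro x y
    have h1 := half x y
    have h2 := half (x + y) 0
    rw [add_zero] at h2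
    simp only [hL]
    linarith
  have hcont : Continuous L := by
    have : Continuous e := (continuous_const.dist hg.continuous).pow 2
    simp only [hL, hψ]
    fun_prop
  let La : V →+ ℝ := AddMonoidHom.mk' L hadd
  let Lc : V →L[ℝ] ℝ := La.toRealLinearMap hcont
  set b : V := (InnerProductSpace.toDual ℝ V).symm Lc with hb
  have hLb : ∀ v, L v = inner ℝ b v := by
    intro v
    have h1 : inner ℝ b v = Lc v := InnerProductSpace.toDual_symm_apply
    rw [h1]; rfl
  have hform : ∀ v, e v = ‖v‖ ^ 2 + inner ℝ b v + e 0 := by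
    intro v
    have := hLb v
    simp only [hL, hψ, norm_zero] at this
    linarith
  set v0 : V := (-(1 / 2) : ℝ) • b with hv0
  refine ⟨v0, dist (f 0) (g v0), dist_nonneg, fun p q => ?_⟩
  have h1 : dist (f p) (g (q + v0)) ^ 2 = e (q - p + v0) := by
    have := e_eq p (q - p + v0)
    have e1 : p + (q - p + v0) = q + v0 := by abel
    rwa [e1] at this
  have h2 : dist (f 0) (g v0) ^ 2 = e v0 := rfl
  simp only []
  rw [h1, h2, hform (q - p + v0), hform v0, norm_add_sq_real, inner_add_right,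
    norm_sub_rev p q]
  have h3 : inner ℝ (q - p) v0 = -(1 / 2) * inner ℝ b (q - p) := by
    rw [hv0, inner_smul_right, real_inner_comm]
  rw [h3]
  ring

theorem Al.translate_eq_zero {f g : V → X} {δ δ' : ℝ} (h : Al f g δ) {w : V}
    (h' : Al f (fun p => g (p + w)) δ') : w = 0 := by
  have h1 := h 0 w
  have h2 := h' 0 0
  have h3 := h w w
  have h4 := h' w 0
  simp only [zero_add, sub_self, norm_zero, zero_sub, norm_neg, sub_zero] at h1 h2 h3 h4
  have : ‖w‖ ^ 2 = 0 := by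
    rw [h3] at h4
    rw [h1] at h2
    nlinarith [sq_nonneg ‖w‖]
  exact norm_eq_zero.1 (pow_eq_zero_iff two_ne_zero |>.1 this)

theorem Al.trans [CompleteSpace V] (hX : IsCAT0 X) {f g h : V → X} (hf : Isometry f)
    (hg : Isometry g) (hh : Isometry h) {δ₁ δ₂ : ℝ} (h1 : Al f g δ₁) (h2 : Al g h δ₂) :
    ∃ δ : ℝ, 0 ≤ δ ∧ Al f h δ := by
  obtain ⟨v, δ, hδ, hal⟩ := exists_align hX hf hh (h1.near.trans h2.near)
  have key : ∀ w : V, ‖w - v‖ ^ 2 + δ ^ 2 + ‖w‖ ^ 2 ≤
      δ₁ ^ 2 + (‖w‖ ^ 2 + δ₂ ^ 2) + δ₂ ^ 2 + (‖w‖ ^ 2 + δ₁ ^ 2) := by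
    intro w
    have hq := hX.quad (f 0) (g 0) (h w) (g w)
    have a1 : dist (f 0) (h w) ^ 2 = ‖w - v‖ ^ 2 + δ ^ 2 := by
      have := hal 0 (w - v)
      simp only [sub_add_cancel, zero_sub, norm_neg] at this
      exact this
    have a2 : dist (g 0) (g w) = ‖w‖ := by rw [hg.dist_eq, dist_eq_norm, zero_sub, norm_neg]
    have a3 : dist (f 0) (g 0) ^ 2 = δ₁ ^ 2 := by rw [h1 0 0]; simp
    have a4 : dist (g 0) (h w) ^ 2 = ‖w‖ ^ 2 + δ₂ ^ 2 := by rw [h2 0 w]; simp
    have a5 : dist (h w) (g w) ^ 2 = δ₂ ^ 2 := by rw [dist_comm, h2 w w]; simp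
    have a6 : dist (g w) (f 0) ^ 2 = ‖w‖ ^ 2 + δ₁ ^ 2 := by rw [dist_comm, h1 0 w]; simp
    rw [a1, a2, a3, a4, a5, a6] at hq
    exact hq
  have hv : v = 0 := by
    by_contra hne
    have hpos : 0 < ‖v‖ ^ 2 := by positivity
    have := key (-((δ₁ ^ 2 + δ₂ ^ 2 + 1) / ‖v‖ ^ 2) • v)
    set t := (δ₁ ^ 2 + δ₂ ^ 2 + 1) / ‖v‖ ^ 2 with ht
    have htpos : 0 < t := by positivity
    have e1 : -t • v - v = -((t + 1) • v) := by module
    have e2 : ‖-t • v - v‖ ^ 2 = (t + 1) ^ 2 * ‖v‖ ^ 2 := by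
      rw [e1, norm_neg, norm_smul, Real.norm_of_nonneg (by positivity)]; ring
    have e3 : ‖-t • v‖ ^ 2 = t ^ 2 * ‖v‖ ^ 2 := by
      rw [neg_smul, norm_neg, norm_smul, Real.norm_of_nonneg (by positivity)]; ring
    rw [e2, e3] at this
    have e4 : t * ‖v‖ ^ 2 = δ₁ ^ 2 + δ₂ ^ 2 + 1 := by
      rw [ht]; field_simp
    nlinarith [sq_nonneg δ]
  subst hv
  refine ⟨δ, hδ, ?_⟩
  simpa using hal

theorem Al.comp {f g : V → X} {δ : ℝ} (h : Al f g δ) {Y : Type*} [MetricSpace Y] {γ : X → Y}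
    (hγ : Isometry γ) {B : V → V} (hB : Isometry B) :
    Al (fun p => γ (f (B p))) (fun p => γ (g (B p))) δ := by
  intro p q
  simp only [hγ.dist_eq]
  rw [h, ← dist_eq_norm, hB.dist_eq, dist_eq_norm]

/-- The product region between two aligned flats. -/
theorem Al.interp (hX : IsCAT0 X) {f g : V → X} (hf : Isometry f) (hg : Isometry g) {δ : ℝ}
    (h : Al f g δ) :
    ∃ F : ℝ → V → X, F 0 = f ∧ F 1 = g ∧ ∀ s ∈ Icc (0 : ℝ) 1, ∀ t ∈ Icc (0 : ℝ) 1, ∀ p q,
      dist (F s p) (F t q) ^ 2 = ‖p - q‖ ^ 2 + ((s - t) * δ) ^ 2 := by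
  choose c hc0 hc1 hc using fun p : V => hX (f p) (g p)
  have hfg : ∀ p, dist (f p) (g p) ^ 2 = δ ^ 2 := fun p => by rw [h p p]; simp
  have hff : ∀ p q, dist (f p) (f q) ^ 2 = ‖p - q‖ ^ 2 := fun p q => by
    rw [hf.dist_eq, dist_eq_norm]
  have hgg : ∀ p q, dist (g p) (g q) ^ 2 = ‖p - q‖ ^ 2 := fun p q => by
    rw [hg.dist_eq, dist_eq_norm]
  have hc' : ∀ p, ∀ t ∈ Icc (0 : ℝ) 1, ∀ z, dist z (c p t) ^ 2 ≤
      (1 - t) * dist z (f p) ^ 2 + t * dist z (g p) ^ 2 - t * (1 - t) * δ ^ 2 := by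
    intro p t ht z
    have := hc p t ht z
    rwa [hfg p] at this
  -- upper bounds
  have up0 : ∀ s ∈ Icc (0 : ℝ) 1, ∀ p q, dist (c p s) (f q) ^ 2 ≤ ‖p - q‖ ^ 2 + s ^ 2 * δ ^ 2 := by
    intro s hs p q
    have h1 := hc' p s hs (f q)
    rw [hff q p, h q p, norm_sub_rev q p, dist_comm] at h1
    nlinarith
  have up1 : ∀ s ∈ Icc (0 : ℝ) 1, ∀ p q,
      dist (c p s) (g q) ^ 2 ≤ ‖p - q‖ ^ 2 + (1 - s) ^ 2 * δ ^ 2 := by
    intro s hs p q
    have h1 := hc' p s hs (g q)
    rw [hgg q p, h.symm q p, norm_sub_rev q p, dist_comm] at h1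
    nlinarith
  have up : ∀ s ∈ Icc (0 : ℝ) 1, ∀ t ∈ Icc (0 : ℝ) 1, ∀ p q,
      dist (c p s) (c q t) ^ 2 ≤ ‖p - q‖ ^ 2 + ((s - t) * δ) ^ 2 := by
    intro s hs t ht p q
    have h1 := hc' q t ht (c p s)
    have h2 := mul_le_mul_of_nonneg_left (up0 s hs p q) (sub_nonneg.2 ht.2)
    have h3 := mul_le_mul_of_nonneg_left (up1 s hs p q) ht.1
    nlinarith
  -- lower bound, different heights
  have low1 : ∀ s ∈ Icc (0 : ℝ) 1, ∀ t ∈ Icc (0 : ℝ) 1, s < t → ∀ p q,
      Real.sqrt (‖p - q‖ ^ 2 + ((s - t) * δ) ^ 2) ≤ dist (c p s) (c q t) := by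
    intro s hs t ht hst p q
    set r := t - s with hr
    have hrpos : 0 < r := sub_pos.2 hst
    set A := Real.sqrt (‖p - q‖ ^ 2 + ((s - t) * δ) ^ 2) with hA
    have hA0 : 0 ≤ A := Real.sqrt_nonneg _
    have hA2 : A ^ 2 = ‖p - q‖ ^ 2 + (r * δ) ^ 2 := by
      rw [hA, Real.sq_sqrt (by positivity)]
      have : (s - t) * δ = -(r * δ) := by rw [hr]; ring
      rw [this]; ring
    set p' := p - (s / r) • (q - p) with hp'
    set q' := q + ((1 - t) / r) • (q - p) with hq'
    have e1 : dist (f p') (g q') = A / r := by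
      have h1 : dist (f p') (g q') ^ 2 = (A / r) ^ 2 := by
        rw [h p' q', div_pow, hA2]
        have : p' - q' = (1 / r) • (p - q) := by
          have h2 : (1 : ℝ) / r = s / r + (1 - t) / r + 1 := by
            field_simp; rw [hr]; ring
          rw [h2, hp', hq']; module
        rw [this, norm_smul, Real.norm_of_nonneg (by positivity)]
        field_simp
      exact (pow_left_inj₀ dist_nonneg (by positivity) two_ne_zero).1 h1
    have e2 : dist (f p') (c p s) ≤ s / r * A := by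
      have h1 : dist (f p') (c p s) ^ 2 ≤ (s / r * A) ^ 2 := by
        rw [dist_comm]
        refine (up0 s hs p p').trans ?_
        have : p - p' = (s / r) • (q - p) := by rw [hp']; module
        rw [this, norm_smul, mul_pow, mul_pow, hA2, norm_sub_rev q p,
          Real.norm_of_nonneg (div_nonneg hs.1 hrpos.le)]
        have : (s / r) ^ 2 * (r * δ) ^ 2 = s ^ 2 * δ ^ 2 := by field_simp
        nlinarith
      exact (pow_le_pow_iff_left₀ dist_nonneg
        (mul_nonneg (div_nonneg hs.1 hrpos.le) hA0) two_ne_zero).1 h1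
    have e3 : dist (c q t) (g q') ≤ (1 - t) / r * A := by
      have h0 : 0 ≤ (1 - t) / r := div_nonneg (sub_nonneg.2 ht.2) hrpos.le
      have h1 : dist (c q t) (g q') ^ 2 ≤ ((1 - t) / r * A) ^ 2 := by
        refine (up1 t ht q q').trans ?_
        have : q - q' = -(((1 - t) / r) • (q - p)) := by rw [hq']; module
        rw [this, norm_neg, norm_smul, mul_pow, mul_pow, hA2, norm_sub_rev q p,
          Real.norm_of_nonneg h0]
        have : ((1 - t) / r) ^ 2 * (r * δ) ^ 2 = (1 - t) ^ 2 * δ ^ 2 := by field_simp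
        nlinarith
      exact (pow_le_pow_iff_left₀ dist_nonneg (mul_nonneg h0 hA0) two_ne_zero).1 h1
    have e4 : dist (f p') (g q') ≤ dist (f p') (c p s) + dist (c p s) (c q t) +
        dist (c q t) (g q') := dist_triangle4 _ _ _ _
    have e5 : A / r = s / r * A + A + (1 - t) / r * A := by
      field_simp; rw [hr]; ring
    linarith
  have low2 : ∀ s ∈ Icc (0 : ℝ) 1, ∀ t ∈ Icc (0 : ℝ) 1, s ≠ t → ∀ p q,
      Real.sqrt (‖p - q‖ ^ 2 + ((s - t) * δ) ^ 2) ≤ dist (c p s) (c q t) := by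
    intro s hs t ht hst p q
    rcases lt_or_gt_of_ne hst with hlt | hlt
    · exact low1 s hs t ht hlt p q
    · have := low1 t ht s hs hlt q p
      rw [dist_comm, norm_sub_rev]
      have e : ((s - t) * δ) ^ 2 = ((t - s) * δ) ^ 2 := by ring
      rw [e]; exact this
  have low : ∀ s ∈ Icc (0 : ℝ) 1, ∀ t ∈ Icc (0 : ℝ) 1, ∀ p q,
      Real.sqrt (‖p - q‖ ^ 2 + ((s - t) * δ) ^ 2) ≤ dist (c p s) (c q t) := by
    intro s hs t ht p q
    rcases ne_or_eq s t with hne | rfl
    · exact low2 s hs t ht hne p q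
    · simp only [sub_self, zero_mul]
      have : Real.sqrt (‖p - q‖ ^ 2 + 0 ^ 2) = ‖p - q‖ := by
        rw [zero_pow two_ne_zero, add_zero, Real.sqrt_sq (norm_nonneg _)]
      rw [this]
      refine le_of_forall_pos_le_add fun ε hε => ?_
      -- choose a nearby height
      obtain ⟨t', ht', hne, hclose⟩ : ∃ t' ∈ Icc (0 : ℝ) 1, t' ≠ s ∧ |(t' - s) * δ| ≤ ε := by
        set η := min (1 / 2) (ε / (|δ| + 1)) with hη
        have hη0 : 0 < η := lt_min (by norm_num) (by positivity)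
        have hη1 : η ≤ 1 / 2 := min_le_left _ _
        have hη2 : η * |δ| ≤ ε := by
          have h1 : η ≤ ε / (|δ| + 1) := min_le_right _ _
          calc η * |δ| ≤ ε / (|δ| + 1) * |δ| := by gcongr
            _ ≤ ε / (|δ| + 1) * (|δ| + 1) := by gcongr; linarith
            _ = ε := by field_simp
        rcases le_total s (1 / 2) with hs2 | hs2
        · refine ⟨s + η, ⟨by linarith [hs.1], by linarith⟩, by linarith, ?_⟩
          rw [abs_mul, add_sub_cancel_left, abs_of_pos hη0]; exact hη2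
        · refine ⟨s - η, ⟨by linarith, by linarith [hs.2]⟩, by linarith, ?_⟩
          rw [abs_mul, sub_sub_cancel_left, abs_neg, abs_of_pos hη0]; exact hη2
      have h1 := low2 s hs t' ht' hne.symm p q
      have h2 : dist (c q t') (c q s) ≤ ε := by
        have h3 := up t' ht' s hs q q
        rw [sub_self, norm_zero] at h3
        have h4 : dist (c q t') (c q s) ^ 2 ≤ ε ^ 2 := by
          refine h3.trans ?_
          rw [zero_pow two_ne_zero, zero_add, ← sq_abs]
          exact pow_le_pow_left₀ (abs_nonneg _) hclose 2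
        exact (pow_le_pow_iff_left₀ dist_nonneg hε.le two_ne_zero).1 h4
      have h3 : ‖p - q‖ ≤ Real.sqrt (‖p - q‖ ^ 2 + ((s - t') * δ) ^ 2) := by
        apply Real.le_sqrt_of_sq_le
        nlinarith [sq_nonneg ((s - t') * δ)]
      have h4 := dist_triangle (c p s) (c q s) (c q t')
      rw [dist_comm (c q s) (c q t')] at h4
      linarith
  refine ⟨fun s p => c p s, funext hc0, funext hc1, fun s hs t ht p q => ?_⟩
  apply le_antisymm (up s hs t ht p q)
  have h1 := low s hs t ht p q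
  have h2 := pow_le_pow_left₀ (Real.sqrt_nonneg _) h1 2
  rwa [Real.sq_sqrt (by positivity)] at h2

end Pool.Agent.Helper39.Flats
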