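import Mathlib

set_option linter.unusedSectionVars false

/-!
Bieberbach's first theorem (after P. Buser): a discrete cocompact group of isometries of a finite
dimensional Euclidean space contains translations spanning the space.
-/

namespace Pool.Agent.Helper39.Flats

open Set Filter Topology

variable {V : Type*} [NormedAddCommGroup V] [InnerProductSpace ℝ V]

/-- the norm of `A - 1` -/
noncomputable def rot (A : V ≃ₗᵢ[ℝ] V) : ℝ :=
  ‖(A.toContinuousLinearEquiv : V →L[ℝ] V) - ContinuousLinearMap.id ℝ V‖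

theorem rot_nonneg (A : V ≃ₗᵢ[ℝ] V) : 0 ≤ rot A := norm_nonneg _

theorem rot_apply_le (A : V ≃ₗᵢ[ℝ] V) (x : V) : ‖A x - x‖ ≤ rot A * ‖x‖ := by
  have := ((A.toContinuousLinearEquiv : V →L[ℝ] V) - ContinuousLinearMap.id ℝ V).le_opNorm x
  simpa [rot] using this

theorem rot_le {A : V ≃ₗᵢ[ℝ] V} {C : ℝ} (hC : 0 ≤ C) (h : ∀ x, ‖A x - x‖ ≤ C * ‖x‖) :
    rot A ≤ C := by
  apply ContinuousLinearMap.opNorm_le_bound _ hC
  intro x
  simpa using h x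

theorem rot_eq_zero {A : V ≃ₗᵢ[ℝ] V} (h : rot A = 0) : A = 1 := by
  ext x
  have := rot_apply_le A x
  rw [h, zero_mul] at this
  have h2 : A x - x = 0 := norm_le_zero_iff.1 this
  rw [sub_eq_zero] at h2
  simpa using h2

theorem rot_one : rot (1 : V ≃ₗᵢ[ℝ] V) = 0 := by
  apply le_antisymm _ (rot_nonneg _)
  apply rot_le le_rfl
  intro x
  simp

theorem rot_comm_le (A B : V ≃ₗᵢ[ℝ] V) : rot (A * B * A⁻¹ * B⁻¹) ≤ 2 * rot A * rot B := by
  apply rot_le (by have := rot_nonneg A; have := rot_nonneg B; positivity)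
  intro x
  set y := A⁻¹ (B⁻¹ x) with hy
  have hx : x = B (A y) := by
    rw [hy]
    simp [LinearIsometryEquiv.coe_inv]
  have hnorm : ‖y‖ = ‖x‖ := by
    rw [hy]
    simp
  have h1 : (A * B * A⁻¹ * B⁻¹) x = A (B y) := by
    rw [hy]
    simp [LinearIsometryEquiv.coe_mul]
  rw [h1, hx]
  have h2 : A (B y) - B (A y) = (A (B y - y) - (B y - y)) - (B (A y - y) - (A y - y)) := by
    rw [map_sub, map_sub]; abel
  rw [h2]
  have h3 := rot_apply_le A (B y - y)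
  have h4 := rot_apply_le B (A y - y)
  have h5 := rot_apply_le B y
  have h6 := rot_apply_le A y
  have h7 : ‖B (A y)‖ = ‖y‖ := by simp
  rw [h7]
  have hA := rot_nonneg A
  have hB := rot_nonneg B
  calc ‖(A (B y - y) - (B y - y)) - (B (A y - y) - (A y - y))‖
      ≤ ‖A (B y - y) - (B y - y)‖ + ‖B (A y - y) - (A y - y)‖ := norm_sub_le _ _
    _ ≤ rot A * (rot B * ‖y‖) + rot B * (rot A * ‖y‖) := by
        gcongr
        · exact h3.trans (by gcongr)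
        · exact h4.trans (by gcongr)
    _ = 2 * rot A * rot B * ‖y‖ := by ring

theorem inner_inv (A : V ≃ₗᵢ[ℝ] V) (x y : V) : inner ℝ (A⁻¹ x) y = inner ℝ x (A y) := by
  have := A.inner_map_map (A⁻¹ x) y
  rw [← this]
  simp [LinearIsometryEquiv.coe_inv]

theorem norm_sub_sq_rot (A : V ≃ₗᵢ[ℝ] V) (x : V) :
    ‖A x - x‖ ^ 2 = 2 * ‖x‖ ^ 2 - 2 * inner ℝ (A x) x := by
  rw [@norm_sub_sq_real, A.norm_map]
  ring

/-- The maximal displacement space. -/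
def maxSpace (A : V ≃ₗᵢ[ℝ] V) (c : ℝ) : Submodule ℝ V where
  carrier := {x | A x + A⁻¹ x = (2 - c) • x}
  add_mem' := by
    intro x y hx hy
    simp only [mem_ofPred_eq] at hx hy ⊢
    rw [map_add, map_add, smul_add, ← hx, ← hy]
    abel
  zero_mem' := by simp
  smul_mem' := by
    intro c' x hx
    simp only [mem_ofPred_eq] at hx ⊢
    rw [map_smul, map_smul, ← smul_add, hx, smul_comm]

theorem mem_maxSpace {A : V ≃ₗᵢ[ℝ] V} {c : ℝ} {x : V} :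
    x ∈ maxSpace A c ↔ A x + A⁻¹ x = (2 - c) • x := Iff.rfl

theorem maxSpace_map {A : V ≃ₗᵢ[ℝ] V} {c : ℝ} {x : V} (hx : x ∈ maxSpace A c) :
    A x ∈ maxSpace A c := by
  rw [mem_maxSpace] at hx ⊢
  have h1 : A⁻¹ (A x) = x := by simp [LinearIsometryEquiv.coe_inv]
  have h2 : A (A⁻¹ x) = x := by simp [LinearIsometryEquiv.coe_inv]
  have := congrArg A hx
  rw [map_add, map_smul, h2] at this
  rw [h1]; exact this

theorem maxSpace_map_inv {A : V ≃ₗᵢ[ℝ] V} {c : ℝ} {x : V} (hx : x ∈ maxSpace A c) :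
    A⁻¹ x ∈ maxSpace A c := by
  rw [mem_maxSpace] at hx ⊢
  have h1 : A⁻¹ (A x) = x := by simp [LinearIsometryEquiv.coe_inv]
  have h2 : A (A⁻¹ x) = x := by simp [LinearIsometryEquiv.coe_inv]
  have := congrArg (⇑(A⁻¹ : V ≃ₗᵢ[ℝ] V)) hx
  rw [map_add, map_smul, h1] at this
  rw [h2]; exact this

theorem maxSpace_orth_map {A : V ≃ₗᵢ[ℝ] V} {c : ℝ} {x : V} (hx : x ∈ (maxSpace A c)ᗮ) :
    A x ∈ (maxSpace A c)ᗮ := by
  rw [Submodule.mem_orthogonal] at hx ⊢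
  intro u hu
  rw [← inner_inv]
  exact hx _ (maxSpace_map_inv hu)

theorem maxSpace_norm {A : V ≃ₗᵢ[ℝ] V} {c : ℝ} {x : V} (hx : x ∈ maxSpace A c) :
    ‖A x - x‖ ^ 2 = c * ‖x‖ ^ 2 := by
  rw [norm_sub_sq_rot]
  rw [mem_maxSpace] at hx
  have h1 : inner ℝ (A x + A⁻¹ x) x = (2 - c) * ‖x‖ ^ 2 := by
    rw [hx, inner_smul_left, real_inner_self_eq_norm_sq]; simp
  rw [inner_add_left, inner_inv, real_inner_comm (A x) x] at h1
  linarith

/-- If the maximal displacement is reached at `x`, then `x` is in the maximal space. -/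
theorem mem_maxSpace_of_max {A : V ≃ₗᵢ[ℝ] V} {c : ℝ} (hc : ∀ y, ‖A y - y‖ ^ 2 ≤ c * ‖y‖ ^ 2)
    {x : V} (hx : ‖A x - x‖ ^ 2 = c * ‖x‖ ^ 2) : x ∈ maxSpace A c := by
  -- Q y = c y - 2 y + A y + A⁻¹ y
  set Q : V → V := fun y => (c - 2) • y + (A y + A⁻¹ y) with hQ
  have hQin : ∀ y z, inner ℝ (Q y) z = inner ℝ (Q z) y := by
    intro y z
    simp only [hQ]
    rw [inner_add_left, inner_add_left, inner_add_left, inner_add_left, inner_smul_left,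
      inner_smul_left, inner_inv, inner_inv, real_inner_comm y z, real_inner_comm (A y) z,
      real_inner_comm (A z) y]
    ring
  have hQadd : ∀ y z, Q (y + z) = Q y + Q z := by
    intro y z
    simp only [hQ, map_add, smul_add]; abel
  have hQsmul : ∀ (t : ℝ) y, Q (t • y) = t • Q y := by
    intro t y
    simp only [hQ, map_smul, smul_add, smul_comm t]
  have hQpos : ∀ y, inner ℝ (Q y) y = c * ‖y‖ ^ 2 - ‖A y - y‖ ^ 2 := by
    intro y
    rw [norm_sub_sq_rot]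
    simp only [hQ]
    rw [inner_add_left, inner_add_left, inner_smul_left, inner_inv, real_inner_self_eq_norm_sq,
      real_inner_comm (A y) y]
    simp; ring
  have h0 : inner ℝ (Q x) x = 0 := by rw [hQpos, hx]; ring
  have key : Q x = 0 := by
    set z := Q x with hz
    have h1 : ∀ t : ℝ, 0 ≤ 2 * t * ‖z‖ ^ 2 + t ^ 2 * inner ℝ (Q z) z := by
      intro t
      have h2 : 0 ≤ inner ℝ (Q (x + t • z)) (x + t • z) := by
        rw [hQpos]; linarith [hc (x + t • z)]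
      rw [hQadd, hQsmul] at h2
      simp only [inner_add_left, inner_add_right, inner_smul_left, inner_smul_right] at h2
      rw [h0, hQin z x, ← hz, real_inner_self_eq_norm_sq] at h2
      simp only [RCLike.conj_to_real] at h2
      nlinarith
    have hq : 0 ≤ inner ℝ (Q z) z := by rw [hQpos]; linarith [hc z]
    set q := inner ℝ (Q z) z with hqd
    have h3 := h1 (-(‖z‖ ^ 2 / (q + 1)))
    have hq1 : 0 < q + 1 := by linarith
    have h4 : 2 * (-(‖z‖ ^ 2 / (q + 1))) * ‖z‖ ^ 2 + (-(‖z‖ ^ 2 / (q + 1))) ^ 2 * q =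
        - (‖z‖ ^ 2) ^ 2 * (q + 2) / (q + 1) ^ 2 := by
      field_simp; ring
    rw [h4] at h3
    have h5 : (‖z‖ ^ 2) ^ 2 = 0 := by
      by_contra hne
      have hpos : 0 < (‖z‖ ^ 2) ^ 2 := lt_of_le_of_ne (by positivity) (Ne.symm hne)
      have : - (‖z‖ ^ 2) ^ 2 * (q + 2) / (q + 1) ^ 2 < 0 := by
        apply div_neg_of_neg_of_pos _ (by positivity)
        nlinarith
      linarith
    have h6 : ‖z‖ = 0 := by
      have := pow_eq_zero_iff (two_ne_zero) |>.1 h5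
      exact pow_eq_zero_iff (two_ne_zero) |>.1 this
    exact norm_eq_zero.1 h6
  rw [mem_maxSpace]
  have h7 : A x + A⁻¹ x = -((c - 2) • x) := by
    have : (c - 2) • x + (A x + A⁻¹ x) = 0 := key
    exact eq_neg_of_add_eq_zero_right this
  rw [h7, ← neg_smul]
  congr 1; ring

/-- spectral data of a nontrivial rotation -/
theorem exists_split [FiniteDimensional ℝ V] {A : V ≃ₗᵢ[ℝ] V} (hA : rot A ≠ 0) :
    ∃ (E : Submodule ℝ V) (ν : ℝ), 0 ≤ ν ∧ ν < rot A ∧ (∃ u ∈ E, u ≠ 0) ∧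
      (∀ x ∈ E, A x ∈ E ∧ ‖A x - x‖ = rot A * ‖x‖) ∧
      (∀ x ∈ Eᗮ, A x ∈ Eᗮ ∧ ‖A x - x‖ ≤ ν * ‖x‖) := by
  have hpos : 0 < rot A := lt_of_le_of_ne (rot_nonneg A) (Ne.symm hA)
  have hproper : ProperSpace V := FiniteDimensional.proper_real V
  have hne : ∃ x : V, x ≠ 0 := by
    by_contra hcon
    push Not at hcon
    apply hA
    apply le_antisymm _ (rot_nonneg A)
    apply rot_le le_rfl
    intro x
    rw [hcon x]; simp
  obtain ⟨x₁, hx₁⟩ := hne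
  have hcont : Continuous fun x : V => ‖A x - x‖ := (A.continuous.sub continuous_id).norm
  have hscale : ∀ (P : V → Prop), (∀ (t : ℝ) x, P x → P (t • x)) → ∀ C : ℝ,
      (∀ x, P x → ‖x‖ = 1 → ‖A x - x‖ ≤ C) → ∀ x, P x → ‖A x - x‖ ≤ C * ‖x‖ := by
    intro P hP C h x hx
    by_cases hx0 : x = 0
    · rw [hx0]; simp
    · have hn : 0 < ‖x‖ := norm_pos_iff.2 hx0
      have h1 := h (‖x‖⁻¹ • x) (hP _ _ hx) (by
        rw [norm_smul, norm_inv, norm_norm, inv_mul_cancel₀ hn.ne'])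
      rw [map_smul, ← smul_sub, norm_smul, norm_inv, norm_norm] at h1
      rw [inv_mul_le_iff₀ hn] at h1
      linarith
  -- maximum over the sphere
  have hcomp : IsCompact (Metric.sphere (0 : V) 1) := isCompact_sphere _ _
  have hsne : (Metric.sphere (0 : V) 1).Nonempty := by
    refine ⟨‖x₁‖⁻¹ • x₁, ?_⟩
    rw [mem_sphere_zero_iff_norm, norm_smul, norm_inv, norm_norm,
      inv_mul_cancel₀ (norm_pos_iff.2 hx₁).ne']
  obtain ⟨x₀, hx₀, hmax⟩ := hcomp.exists_isMaxOn hsne hcont.continuousOn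
  rw [mem_sphere_zero_iff_norm] at hx₀
  have hrot : rot A = ‖A x₀ - x₀‖ := by
    apply le_antisymm
    · apply rot_le (norm_nonneg _)
      intro x
      exact hscale (fun _ => True) (fun _ _ _ => trivial) _
        (fun y _ hy => hmax (mem_sphere_zero_iff_norm.2 hy)) x trivial
    · have := rot_apply_le A x₀
      rwa [hx₀, mul_one] at this
  have hc : ∀ y, ‖A y - y‖ ^ 2 ≤ rot A ^ 2 * ‖y‖ ^ 2 := by
    intro y
    rw [← mul_pow]
    exact pow_le_pow_left₀ (norm_nonneg _) (rot_apply_le A y) 2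
  set E := maxSpace A (rot A ^ 2) with hE
  have hx₀E : x₀ ∈ E := mem_maxSpace_of_max hc (by rw [← hrot, hx₀]; ring)
  have hnormE : ∀ x ∈ E, ‖A x - x‖ = rot A * ‖x‖ := by
    intro x hx
    have := maxSpace_norm hx
    rw [← mul_pow] at this
    exact (pow_left_inj₀ (norm_nonneg _) (by positivity) two_ne_zero).1 this
  have hx₀0 : x₀ ≠ 0 := by
    intro h
    rw [h, norm_zero] at hx₀
    exact zero_ne_one hx₀
  by_cases horth : ∀ x ∈ Eᗮ, x = 0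
  · refine ⟨E, 0, le_rfl, hpos, ⟨x₀, hx₀E, hx₀0⟩, fun x hx => ⟨maxSpace_map hx, hnormE x hx⟩, ?_⟩
    intro x hx
    refine ⟨maxSpace_orth_map hx, ?_⟩
    rw [horth x hx]; simp
  · push Not at horth
    obtain ⟨x₂, hx₂, hx₂0⟩ := horth
    have hcl : IsClosed (Eᗮ : Set V) := Submodule.isClosed_orthogonal E
    have hcomp2 : IsCompact (Metric.sphere (0 : V) 1 ∩ (Eᗮ : Set V)) := hcomp.inter_right hcl
    have hsne2 : (Metric.sphere (0 : V) 1 ∩ (Eᗮ : Set V)).Nonempty := by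
      refine ⟨‖x₂‖⁻¹ • x₂, ?_, Submodule.smul_mem _ _ hx₂⟩
      rw [mem_sphere_zero_iff_norm, norm_smul, norm_inv, norm_norm,
        inv_mul_cancel₀ (norm_pos_iff.2 hx₂0).ne']
    obtain ⟨x₃, ⟨hx₃, hx₃E⟩, hmax3⟩ := hcomp2.exists_isMaxOn hsne2 hcont.continuousOn
    rw [mem_sphere_zero_iff_norm] at hx₃
    refine ⟨E, ‖A x₃ - x₃‖, norm_nonneg _, ?_, ⟨x₀, hx₀E, hx₀0⟩,
      fun x hx => ⟨maxSpace_map hx, hnormE x hx⟩, ?_⟩
    · have h1 := rot_apply_le A x₃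
      rw [hx₃, mul_one] at h1
      refine lt_of_le_of_ne h1 fun heq => ?_
      have h2 : x₃ ∈ E := mem_maxSpace_of_max hc (by rw [heq, hx₃]; ring)
      have h3 : inner ℝ x₃ x₃ = (0 : ℝ) := hx₃E x₃ h2
      rw [real_inner_self_eq_norm_sq, hx₃] at h3
      norm_num at h3
    · intro x hx
      refine ⟨maxSpace_orth_map hx, ?_⟩
      exact hscale (fun y => y ∈ Eᗮ) (fun t y hy => Submodule.smul_mem _ _ hy) _
        (fun y hy hyn => hmax3 ⟨mem_sphere_zero_iff_norm.2 hyn, hy⟩) x hx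

/-- Crystallographic groups, given by pairs (linear part, translation part). -/
structure IsCryst (S : Set ((V ≃ₗᵢ[ℝ] V) × V)) : Prop where
  mul : ∀ z ∈ S, ∀ w ∈ S, (z.1 * w.1, z.1 w.2 + z.2) ∈ S
  inv : ∀ z ∈ S, (z.1⁻¹, -(z.1⁻¹ z.2)) ∈ S
  discrete : ∀ R : ℝ, {z | z ∈ S ∧ ‖z.2‖ ≤ R}.Finite
  cocompact : ∃ m : ℝ, ∀ p : V, ∃ z ∈ S, ‖z.2 - p‖ ≤ m

theorem IsCryst.direction [FiniteDimensional ℝ V] {S : Set ((V ≃ₗᵢ[ℝ] V) × V)} (hS : IsCryst S)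
    (u : V) {η δ : ℝ} (hη : 0 < η) (hδ : 0 < δ) :
    ∃ z ∈ S, rot z.1 ≤ η ∧ ∃ t : ℝ, 1 ≤ t ∧ ‖z.2 - t • u‖ ≤ δ * t := by
  obtain ⟨m, hm⟩ := hS.cocompact
  choose z hzS hz using fun j : ℕ => hm ((j : ℝ) • u)
  -- compactness of the rotations
  have hfd : FiniteDimensional ℝ (V →L[ℝ] V) := inferInstance
  have hproper : ProperSpace (V →L[ℝ] V) := FiniteDimensional.proper_real _
  set c : ℕ → (V →L[ℝ] V) := fun j => ((z j).1.toContinuousLinearEquiv : V →L[ℝ] V) with hc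
  have hbd : ∀ j, c j ∈ Metric.closedBall (0 : V →L[ℝ] V) 1 := by
    intro j
    rw [mem_closedBall_zero_iff]
    apply ContinuousLinearMap.opNorm_le_bound _ zero_le_one
    intro x
    simp [hc]
  obtain ⟨a, -, φ, hφ, hlim⟩ := (isCompact_closedBall (0 : V →L[ℝ] V) 1).tendsto_subseq hbd
  have hcau := hlim.cauchySeq
  rw [Metric.cauchySeq_iff] at hcau
  obtain ⟨N, hN⟩ := hcau η hη
  -- i = φ N, j = φ M with M large
  obtain ⟨M₀, hM₀⟩ := exists_nat_ge ((m + ‖(z (φ N)).2‖) / δ)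
  set M := max N (max M₀ 1) with hMdef
  have hNM : N ≤ M := le_max_left _ _
  have hM1 : 1 ≤ M := (le_max_right _ _).trans (le_max_right _ _)
  have hM₀' : M₀ ≤ M := (le_max_left _ _).trans (le_max_right _ _)
  have hφM : M ≤ φ M := hφ.id_le M
  set zi := z (φ N) with hzi
  set zj := z (φ M) with hzj
  have hdist : ‖c (φ M) - c (φ N)‖ ≤ η := by
    rw [← dist_eq_norm]; exact (hN M hNM N le_rfl).le
  refine ⟨(zj.1 * zi.1⁻¹, zj.1 (-(zi.1⁻¹ zi.2)) + zj.2),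
    hS.mul zj (hzS _) _ (hS.inv zi (hzS _)), ?_, φ M, ?_, ?_⟩
  · apply rot_le hη.le
    intro x
    set y := zi.1⁻¹ x with hy
    have hx : x = zi.1 y := by rw [hy]; simp [LinearIsometryEquiv.coe_inv]
    have h1 : (zj.1 * zi.1⁻¹) x = zj.1 y := by rw [hy]; simp [LinearIsometryEquiv.coe_mul]
    have h2 : ‖y‖ = ‖x‖ := by rw [hy]; simp
    rw [h1]
    conv_lhs => rw [hx]
    have h3 := (c (φ M) - c (φ N)).le_opNorm y
    have h4 : (c (φ M) - c (φ N)) y = zj.1 y - zi.1 y := by simp [hc, hzi, hzj]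
    rw [h4] at h3
    refine h3.trans ?_
    rw [h2]
    gcongr
  · have : (1 : ℝ) ≤ M := by exact_mod_cast hM1
    have h2 : (M : ℝ) ≤ φ M := by exact_mod_cast hφM
    linarith
  · have h1 : zj.1 (-(zi.1⁻¹ zi.2)) + zj.2 - ((φ M : ℕ) : ℝ) • u =
        (zj.2 - ((φ M : ℕ) : ℝ) • u) + zj.1 (-(zi.1⁻¹ zi.2)) := by abel
    simp only
    rw [h1]
    refine (norm_add_le _ _).trans ?_
    have h2 : ‖zj.1 (-(zi.1⁻¹ zi.2))‖ = ‖zi.2‖ := by simp
    rw [h2]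
    have h3 : ‖zj.2 - ((φ M : ℕ) : ℝ) • u‖ ≤ m := hz (φ M)
    have h4 : (M₀ : ℝ) ≤ φ M := by exact_mod_cast hM₀'.trans hφM
    have h5 : (m + ‖zi.2‖) / δ ≤ φ M := hM₀.trans h4
    rw [div_le_iff₀ hδ] at h5
    linarith

/-- Small rotations in a crystallographic group are translations. -/
theorem IsCryst.small [FiniteDimensional ℝ V] {S : Set ((V ≃ₗᵢ[ℝ] V) × V)} (hS : IsCryst S)
    (z : (V ≃ₗᵢ[ℝ] V) × V) (hz : z ∈ S) (hrot : rot z.1 ≤ 1 / 2) : z.1 = 1 := by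
  by_contra hne
  -- minimal α
  have hmin : ∃ α ∈ S, rot α.1 ≤ 1 / 2 ∧ α.1 ≠ 1 ∧
      ∀ w ∈ S, rot w.1 ≤ 1 / 2 → w.1 ≠ 1 → ‖α.2‖ ≤ ‖w.2‖ := by
    set T := {w | (w ∈ S ∧ ‖w.2‖ ≤ ‖z.2‖) ∧ (rot w.1 ≤ 1 / 2 ∧ w.1 ≠ 1)} with hT
    have hTf : T.Finite := (hS.discrete ‖z.2‖).subset fun w hw => hw.1
    obtain ⟨α, hα, hαmin⟩ := hTf.exists_minimalFor (fun w => ‖w.2‖) T ⟨z, ⟨hz, le_rfl⟩, hrot, hne⟩
    refine ⟨α, hα.1.1, hα.2.1, hα.2.2, fun w hw h1 h2 => ?_⟩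
    by_cases hle : ‖w.2‖ ≤ ‖z.2‖
    · by_contra hlt
      push Not at hlt
      exact absurd (hαmin (j := w) ⟨⟨hw, hle⟩, h1, h2⟩ hlt.le) (not_le.2 hlt)
    · push Not at hle
      exact hα.1.2.trans hle.le
  obtain ⟨α, hαS, hαrot, hα1, hαmin⟩ := hmin
  set A := α.1 with hA
  set a := α.2 with ha
  have hrotA : rot A ≠ 0 := fun h => hα1 (rot_eq_zero h)
  obtain ⟨E, ν, hν0, hνμ, ⟨u, huE, hu0⟩, hE, hE'⟩ := exists_split hrotA
  set μ := rot A with hμ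
  set η := (μ - ν) / 8 with hη
  have hη0 : 0 < η := by rw [hη]; linarith
  have hun : 0 < ‖u‖ := norm_pos_iff.2 hu0
  -- the set of admissible β
  let Adm : (V ≃ₗᵢ[ℝ] V) × V → Prop := fun w => w ∈ S ∧ rot w.1 ≤ η ∧
    ∃ e ∈ E, ∃ e' ∈ Eᗮ, w.2 = e + e' ∧ ‖e'‖ < ‖e‖
  have hex : ∃ w, Adm w := by
    obtain ⟨w, hwS, hwrot, t, ht, hwt⟩ := hS.direction u hη0 (δ := ‖u‖ / 3) (by positivity)
    refine ⟨w, hwS, hwrot, ?_⟩
    obtain ⟨e, he, e', he', hee⟩ := E.exists_add_mem_mem_orthogonal w.2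
    refine ⟨e, he, e', he', hee, ?_⟩
    have h1 : w.2 - t • u = (e - t • u) + e' := by rw [hee]; abel
    have h2 : e - t • u ∈ E := Submodule.sub_mem _ he (Submodule.smul_mem _ _ huE)
    have h3 : inner ℝ (e - t • u) e' = (0 : ℝ) := he' _ h2
    have h4 : ‖w.2 - t • u‖ ^ 2 = ‖e - t • u‖ ^ 2 + ‖e'‖ ^ 2 := by
      rw [h1, @norm_add_sq_real, h3]; ring
    have h5 : ‖w.2 - t • u‖ ^ 2 ≤ (‖u‖ / 3 * t) ^ 2 := pow_le_pow_left₀ (norm_nonneg _) hwt 2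
    have hpos : 0 ≤ ‖u‖ / 3 * t := by positivity
    have h6 : ‖e'‖ ≤ ‖u‖ / 3 * t :=
      (abs_le_of_sq_le_sq' (by nlinarith [sq_nonneg ‖e - t • u‖]) hpos).2
    have h7 : ‖e - t • u‖ ≤ ‖u‖ / 3 * t :=
      (abs_le_of_sq_le_sq' (by nlinarith [sq_nonneg ‖e'‖]) hpos).2
    have h8 : ‖t • u‖ ≤ ‖e‖ + ‖e - t • u‖ := by
      have : t • u = e - (e - t • u) := by abel
      rw [this]; exact (norm_sub_le _ _).trans (by simp)
    rw [norm_smul, Real.norm_of_nonneg (by linarith : (0 : ℝ) ≤ t)] at h8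
    nlinarith
  obtain ⟨w₀, hw₀⟩ := hex
  have hminβ : ∃ β, Adm β ∧ ∀ w, Adm w → ‖β.2‖ ≤ ‖w.2‖ := by
    set T := {w | (w ∈ S ∧ ‖w.2‖ ≤ ‖w₀.2‖) ∧ Adm w} with hT
    have hTf : T.Finite := (hS.discrete ‖w₀.2‖).subset fun w hw => hw.1
    obtain ⟨β, hβ, hβmin⟩ := hTf.exists_minimalFor (fun w => ‖w.2‖) T ⟨w₀, ⟨hw₀.1, le_rfl⟩, hw₀⟩
    refine ⟨β, hβ.2, fun w hw => ?_⟩
    by_cases hle : ‖w.2‖ ≤ ‖w₀.2‖
    · by_contra hlt
      push Not at hlt
      exact absurd (hβmin (j := w) ⟨⟨hw.1, hle⟩, hw⟩ hlt.le) (not_le.2 hlt)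
    · push Not at hle
      exact hβ.1.2.trans hle.le
  obtain ⟨β, ⟨hβS, hβrot, e, he, e', he', hbe, hlt⟩, hβmin⟩ := hminβ
  set B := β.1 with hB
  set b := β.2 with hb
  have he0 : 0 < ‖e‖ := (norm_nonneg e').trans_lt hlt
  -- commutator
  have hcomm := hS.mul _ (hS.mul _ (hS.mul α hαS β hβS) _ (hS.inv α hαS)) _ (hS.inv β hβS)
  set B' := A * B * A⁻¹ * B⁻¹ with hB'
  set r : V := (b - B' b) + (A (A⁻¹ a) - A (B (A⁻¹ a))) with hr
  have hb' : ((A * B * A⁻¹) (-(B⁻¹ b)) + ((A * B) (-(A⁻¹ a)) + (A b + a))) = (A b - b) + r := by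
    rw [hr, hB']
    simp only [LinearIsometryEquiv.coe_mul, Function.comp_apply, map_neg]
    have h1 : A (A⁻¹ a) = a := by simp [LinearIsometryEquiv.coe_inv]
    rw [h1]
    abel
  have hmem : (B', (A b - b) + r) ∈ S := by
    rw [← hb']; exact hcomm
  have hB'rot : rot B' ≤ 2 * μ * rot B := rot_comm_le A B
  have hB0 := rot_nonneg B
  have hμ0 : 0 < μ := lt_of_le_of_ne (rot_nonneg A) (Ne.symm hrotA)
  have hμ2 : μ ≤ 1 / 2 := hαrot
  have hB'rot2 : rot B' ≤ η := by nlinarith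
  -- bound on r
  have hbn : ‖b‖ < 2 * ‖e‖ := by
    rw [hbe]
    refine (norm_add_le _ _).trans_lt ?_
    linarith
  have hrle : ‖r‖ ≤ 2 * η * ‖b‖ := by
    have h1 : ‖b - B' b‖ ≤ rot B' * ‖b‖ := by rw [norm_sub_rev]; exact rot_apply_le B' b
    have h2 : ‖A (A⁻¹ a) - A (B (A⁻¹ a))‖ ≤ rot B * ‖a‖ := by
      rw [← map_sub, A.norm_map, norm_sub_rev]
      refine (rot_apply_le B _).trans ?_
      rw [(A⁻¹).norm_map]
    have h3 : rot B * ‖a‖ ≤ rot B * ‖b‖ := by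
      by_cases hB1 : B = 1
      · rw [hB1, rot_one]; simp
      · apply mul_le_mul_of_nonneg_left _ hB0
        apply hαmin β hβS _ hB1
        refine hβrot.trans ?_
        rw [hη]; linarith
    calc ‖r‖ ≤ ‖b - B' b‖ + ‖A (A⁻¹ a) - A (B (A⁻¹ a))‖ := norm_add_le _ _
      _ ≤ rot B' * ‖b‖ + rot B * ‖b‖ := by linarith
      _ ≤ rot B * ‖b‖ + rot B * ‖b‖ := by
          gcongr
          nlinarith
      _ ≤ 2 * η * ‖b‖ := by
          have := norm_nonneg b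
          nlinarith
  -- decompose r
  obtain ⟨r₁, hr₁, r₂, hr₂, hr12⟩ := E.exists_add_mem_mem_orthogonal r
  have hrs : ‖r‖ ^ 2 = ‖r₁‖ ^ 2 + ‖r₂‖ ^ 2 := by
    rw [hr12, @norm_add_sq_real, hr₂ r₁ hr₁]; ring
  have hr1n : ‖r₁‖ ≤ ‖r‖ :=
    (abs_le_of_sq_le_sq' (by nlinarith [sq_nonneg ‖r₂‖]) (norm_nonneg _)).2
  have hr2n : ‖r₂‖ ≤ ‖r‖ :=
    (abs_le_of_sq_le_sq' (by nlinarith [sq_nonneg ‖r₁‖]) (norm_nonneg _)).2
  have hAe := hE e he
  have hAe' := hE' e' he'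
  have hadm : Adm (B', (A b - b) + r) := by
    refine ⟨hmem, hB'rot2, (A e - e) + r₁, ?_, (A e' - e') + r₂, ?_, ?_, ?_⟩
    · exact Submodule.add_mem _ (Submodule.sub_mem _ hAe.1 he) hr₁
    · exact Submodule.add_mem _ (Submodule.sub_mem _ hAe'.1 he') hr₂
    · simp only
      rw [hr12, hbe, map_add]
      abel
    · have h1 : ‖(A e' - e') + r₂‖ ≤ ν * ‖e'‖ + ‖r‖ :=
        (norm_add_le _ _).trans (add_le_add hAe'.2 hr2n)
      have h2 : μ * ‖e‖ - ‖r‖ ≤ ‖(A e - e) + r₁‖ := by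
        have h3 : ‖A e - e‖ ≤ ‖(A e - e) + r₁‖ + ‖r₁‖ := by
          have : A e - e = ((A e - e) + r₁) - r₁ := by abel
          conv_lhs => rw [this]
          exact norm_sub_le _ _
        rw [hAe.2] at h3
        linarith
      have h4 : 2 * ‖r‖ < (μ - ν) * ‖e‖ := by
        have h5 : 2 * (2 * η * ‖b‖) < (μ - ν) * ‖e‖ := by
          have h6 : 2 * (2 * η * ‖b‖) = (4 * η) * ‖b‖ := by ring
          rw [h6, hη]
          have h7 : 0 < (μ - ν) / 2 := by linarith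
          have : 4 * ((μ - ν) / 8) = (μ - ν) / 2 := by ring
          rw [this]
          nlinarith
        linarith
      have h8 : ν * ‖e'‖ ≤ ν * ‖e‖ := mul_le_mul_of_nonneg_left hlt.le hν0
      nlinarith
  have hfinal := hβmin _ hadm
  simp only at hfinal
  have h9 : ‖(A b - b) + r‖ ≤ μ * ‖b‖ + ‖r‖ :=
    (norm_add_le _ _).trans (add_le_add (rot_apply_le A b) le_rfl)
  have hb0 : 0 < ‖b‖ := by
    have h1 : ‖b‖ ^ 2 = ‖e‖ ^ 2 + ‖e'‖ ^ 2 := by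
      rw [hbe, @norm_add_sq_real, he' e he]; ring
    by_contra hcon
    have h0 : ‖b‖ = 0 := le_antisymm (not_lt.1 hcon) (norm_nonneg _)
    rw [h0] at h1
    nlinarith [sq_nonneg ‖e'‖, pow_pos he0 2]
  have h10 : 2 * η ≤ 1 / 8 := by rw [hη]; linarith
  nlinarith

/-- Bieberbach's first theorem. -/
theorem IsCryst.span_eq_top [FiniteDimensional ℝ V] {S : Set ((V ≃ₗᵢ[ℝ] V) × V)}
    (hS : IsCryst S) : Submodule.span ℝ {v : V | ((1 : V ≃ₗᵢ[ℝ] V), v) ∈ S} = ⊤ := by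
  set L := Submodule.span ℝ {v : V | ((1 : V ≃ₗᵢ[ℝ] V), v) ∈ S} with hL
  rw [← Submodule.orthogonal_eq_bot_iff, Submodule.eq_bot_iff]
  intro u hu
  by_contra hu0
  have hun : 0 < ‖u‖ := norm_pos_iff.2 hu0
  obtain ⟨z, hzS, hzrot, t, ht, hzt⟩ := hS.direction u (η := 1 / 2) (by norm_num)
    (δ := ‖u‖ / 2) (by positivity)
  have h1 := hS.small z hzS hzrot
  have h2 : z.2 ∈ L := by
    apply Submodule.subset_span
    change (1, z.2) ∈ S
    rw [← h1]; exact hzS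
  have h3 : inner ℝ z.2 u = (0 : ℝ) := hu _ h2
  have h4 : ‖z.2 - t • u‖ ^ 2 = ‖z.2‖ ^ 2 + t ^ 2 * ‖u‖ ^ 2 := by
    rw [@norm_sub_sq_real, inner_smul_right, h3, norm_smul, mul_pow, Real.norm_eq_abs, sq_abs]
    ring
  have h5 : ‖z.2 - t • u‖ ^ 2 ≤ (‖u‖ / 2 * t) ^ 2 := pow_le_pow_left₀ (norm_nonneg _) hzt 2
  have h6 : 0 < t ^ 2 * ‖u‖ ^ 2 := by positivity
  nlinarith [sq_nonneg ‖z.2‖]

end Pool.Agent.Helper39.Flats
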