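import Mathlib

set_option linter.unusedSectionVars false

namespace Pool.Agent.Helper39.Flats

open Set

/-- The Euclidean plane. -/
abbrev Plane := EuclideanSpace ℝ (Fin 2)

/-- CAT(0) spaces (for complete metric spaces): any two points are joined by a path satisfying
the CN inequality. -/
def IsCAT0 (X : Type*) [MetricSpace X] : Prop :=
  ∀ x y : X, ∃ c : ℝ → X, c 0 = x ∧ c 1 = y ∧ ∀ t ∈ Icc (0 : ℝ) 1, ∀ z : X,
    dist z (c t) ^ 2 ≤ (1 - t) * dist z x ^ 2 + t * dist z y ^ 2 - t * (1 - t) * dist x y ^ 2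

variable {X : Type*} [MetricSpace X]
variable {V : Type*} [NormedAddCommGroup V] [InnerProductSpace ℝ V]

/-- `m` is a midpoint of `x` and `y` in the sense of the CN inequality. -/
def IsMid (m x y : X) : Prop :=
  ∀ z : X, dist z m ^ 2 ≤ dist z x ^ 2 / 2 + dist z y ^ 2 / 2 - dist x y ^ 2 / 4

theorem IsCAT0.exists_mid (hX : IsCAT0 X) (x y : X) : ∃ m, IsMid m x y := by
  obtain ⟨c, -, -, hc⟩ := hX x y
  refine ⟨c (1 / 2), fun z => ?_⟩
  have := hc (1 / 2) ⟨by norm_num, by norm_num⟩ z
  nlinarith [this]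

theorem IsMid.symm {m x y : X} (h : IsMid m x y) : IsMid m y x := by
  intro z
  have := h z
  rw [dist_comm y x]
  linarith

theorem IsMid.dist_left {m x y : X} (h : IsMid m x y) : dist m x ≤ dist x y / 2 := by
  have := h x
  rw [dist_self, dist_comm x m] at this
  have h2 : dist m x ^ 2 ≤ (dist x y / 2) ^ 2 := by nlinarith
  exact (abs_le_of_sq_le_sq' h2 (by positivity)).2

theorem IsMid.dist_right {m x y : X} (h : IsMid m x y) : dist m y ≤ dist x y / 2 := by
  have := h.symm.dist_left
  rwa [dist_comm y x] at this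

theorem IsMid.dist_left_eq {m x y : X} (h : IsMid m x y) : dist m x = dist x y / 2 := by
  have h1 := h.dist_left
  have h2 := h.dist_right
  have h3 := dist_triangle_left x y m
  linarith

theorem IsMid.dist_right_eq {m x y : X} (h : IsMid m x y) : dist m y = dist x y / 2 := by
  have h1 := h.dist_left
  have h2 := h.dist_right
  have h3 := dist_triangle_left x y m
  linarith

/-- A point at distance at most half of both end points is the midpoint. -/
theorem IsMid.eq {m x y z : X} (h : IsMid m x y) (h1 : dist z x ≤ dist x y / 2)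
    (h2 : dist z y ≤ dist x y / 2) : z = m := by
  have := h z
  have e1 : dist z x ^ 2 ≤ (dist x y / 2) ^ 2 := by
    apply pow_le_pow_left₀ dist_nonneg h1
  have e2 : dist z y ^ 2 ≤ (dist x y / 2) ^ 2 := by
    apply pow_le_pow_left₀ dist_nonneg h2
  have e3 : dist z m ^ 2 ≤ 0 := by nlinarith
  have e4 : dist z m = 0 := by
    have : dist z m ^ 2 = 0 := le_antisymm e3 (by positivity)
    exact pow_eq_zero_iff (two_ne_zero) |>.1 this
  exact dist_eq_zero.1 e4

/-- The quadrilateral inequality. -/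
theorem IsCAT0.quad (hX : IsCAT0 X) (a b c d : X) :
    dist a c ^ 2 + dist b d ^ 2 ≤ dist a b ^ 2 + dist b c ^ 2 + dist c d ^ 2 + dist d a ^ 2 := by
  obtain ⟨m, hm⟩ := hX.exists_mid a c
  have h1 := hm b
  have h2 := hm d
  have h3 := dist_triangle_right b d m
  have h4 : dist b d ^ 2 ≤ (dist b m + dist d m) ^ 2 := pow_le_pow_left₀ dist_nonneg h3 2
  have h5 : (dist b m + dist d m) ^ 2 ≤ 2 * (dist b m ^ 2 + dist d m ^ 2) := by
    nlinarith [sq_nonneg (dist b m - dist d m)]
  rw [dist_comm b a] at h1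
  rw [dist_comm d c] at h2
  nlinarith

/-- comparison for a triangle: the segment between two midpoints. -/
theorem IsMid.dist_mid {m m' x y y' : X} (h : IsMid m x y) (h' : IsMid m' x y') :
    dist m m' ≤ dist y y' / 2 := by
  have h1 := h m'
  have h2 := h' y
  have h3 := h'.dist_left_eq
  have h4 : dist m' y ^ 2 ≤ dist y x ^ 2 / 2 + dist y y' ^ 2 / 2 - dist x y' ^ 2 / 4 := by
    rw [dist_comm m' y]; exact h2
  have h5 : dist m m' ^ 2 ≤ (dist y y' / 2) ^ 2 := by
    rw [dist_comm m m']
    rw [h3] at h1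
    rw [dist_comm y x] at h4
    nlinarith
  exact (abs_le_of_sq_le_sq' h5 (by positivity)).2

theorem isMid_of_isometry (hX : IsCAT0 X) {f : V → X} (hf : Isometry f) (p q : V) :
    IsMid (f ((1 / 2 : ℝ) • (p + q))) (f p) (f q) := by
  obtain ⟨m, hm⟩ := hX.exists_mid (f p) (f q)
  have e : f ((1 / 2 : ℝ) • (p + q)) = m := by
    apply hm.eq
    · rw [hf.dist_eq, hf.dist_eq, dist_eq_norm, dist_eq_norm]
      have : (1 / 2 : ℝ) • (p + q) - p = (1 / 2 : ℝ) • (q - p) := by module
      rw [this, norm_smul, norm_sub_rev q p, Real.norm_of_nonneg (by norm_num)]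
      linarith
    · rw [hf.dist_eq, hf.dist_eq, dist_eq_norm, dist_eq_norm]
      have : (1 / 2 : ℝ) • (p + q) - q = (1 / 2 : ℝ) • (p - q) := by module
      rw [this, norm_smul, Real.norm_of_nonneg (by norm_num)]
      linarith
  rw [e]; exact hm

/-- Midpoint convexity of the distance between two flats. -/
theorem dist_mid_le (hX : IsCAT0 X) {f g : V → X} (hf : Isometry f) (hg : Isometry g) (p q : V) :
    dist (f ((1 / 2 : ℝ) • (p + q))) (g ((1 / 2 : ℝ) • (p + q))) ≤
      dist (f p) (g p) / 2 + dist (f q) (g q) / 2 := by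
  obtain ⟨m, hm⟩ := hX.exists_mid (f p) (g q)
  have h1 := (isMid_of_isometry hX hf p q).dist_mid hm
  have h2 := hm.symm.dist_mid (isMid_of_isometry hX hg p q).symm
  have h3 := dist_triangle (f ((1 / 2 : ℝ) • (p + q))) m (g ((1 / 2 : ℝ) • (p + q)))
  linarith

/-- Two maps at bounded distance. -/
def Near (f g : V → X) : Prop := ∃ C : ℝ, ∀ p, dist (f p) (g p) ≤ C

theorem Near.symm {f g : V → X} (h : Near f g) : Near g f := by
  obtain ⟨C, hC⟩ := h
  exact ⟨C, fun p => by rw [dist_comm]; exact hC p⟩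

theorem Near.trans {f g h : V → X} (h1 : Near f g) (h2 : Near g h) : Near f h := by
  obtain ⟨C, hC⟩ := h1
  obtain ⟨D, hD⟩ := h2
  exact ⟨C + D, fun p => (dist_triangle _ (g p) _).trans (add_le_add (hC p) (hD p))⟩

theorem Near.refl (f : V → X) : Near f f := ⟨0, fun p => by simp⟩

/-- For flats at bounded distance the distance is constant. -/
theorem Near.dist_const (hX : IsCAT0 X) {f g : V → X} (hf : Isometry f) (hg : Isometry g)
    (h : Near f g) (p q : V) : dist (f p) (g p) = dist (f q) (g q) := by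
  -- enough: ≤ for all p q
  have key : ∀ p q : V, dist (f q) (g q) ≤ dist (f p) (g p) := by
    intro p q
    by_contra hlt
    push Not at hlt
    obtain ⟨C, hC⟩ := h
    set φ : V → ℝ := fun x => dist (f x) (g x) with hφ
    have step : ∀ n : ℕ, φ q - φ p ≤ (φ (p + (2 : ℝ) ^ n • (q - p)) - φ p) / 2 ^ n := by
      intro n
      induction n with
      | zero => simp
      | succ n ih =>
        have h1 := dist_mid_le hX hf hg p (p + (2 : ℝ) ^ (n + 1) • (q - p))
        have e : (1 / 2 : ℝ) • (p + (p + (2 : ℝ) ^ (n + 1) • (q - p))) =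
            p + (2 : ℝ) ^ n • (q - p) := by
          rw [pow_succ]; module
        rw [e] at h1
        have h2 : φ (p + (2 : ℝ) ^ n • (q - p)) ≤
            φ p / 2 + φ (p + (2 : ℝ) ^ (n + 1) • (q - p)) / 2 := h1
        calc φ q - φ p ≤ (φ (p + (2 : ℝ) ^ n • (q - p)) - φ p) / 2 ^ n := ih
          _ ≤ ((φ (p + (2 : ℝ) ^ (n + 1) • (q - p)) - φ p) / 2) / 2 ^ n := by
              gcongr; linarith
          _ = _ := by rw [pow_succ]; field_simp
    have hpos : 0 < φ q - φ p := by
      have : φ p < φ q := hlt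
      linarith
    obtain ⟨n, hn⟩ := pow_unbounded_of_one_lt (C / (φ q - φ p)) (one_lt_two (α := ℝ))
    have h3 := step n
    have h4 : φ (p + (2 : ℝ) ^ n • (q - p)) ≤ C := hC _
    have h5 : 0 ≤ φ p := dist_nonneg
    have h6 : (φ (p + (2 : ℝ) ^ n • (q - p)) - φ p) / 2 ^ n ≤ C / 2 ^ n := by
      gcongr; linarith
    have h7 : C / 2 ^ n < φ q - φ p := by
      rw [div_lt_iff₀ hpos] at hn
      rw [div_lt_iff₀ (by positivity)]
      linarith
    linarith
  exact le_antisymm (key q p) (key p q)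

end Pool.Agent.Helper39.Flats
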