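import Pool.Agent.Helper39.Flats.Align

set_option linter.unusedSectionVars false

namespace Pool.Agent.Helper39.Flats

open Set Filter Topology

variable {X : Type*} [MetricSpace X]
variable {V : Type*} [NormedAddCommGroup V] [InnerProductSpace ℝ V]

/-- Flats aligned with `f`. -/
def Fam (f : V → X) : Set (V → X) := {g | Isometry g ∧ ∃ δ, Al f g δ}

theorem Fam.self {f : V → X} (hf : Isometry f) : f ∈ Fam f := ⟨hf, 0, Al.self hf⟩

theorem Fam.al [CompleteSpace V] (hX : IsCAT0 X) {f g h : V → X} (hf : Isometry f)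
    (hg : g ∈ Fam f) (hh : h ∈ Fam f) : ∃ δ, Al g h δ := by
  obtain ⟨hg1, δ₁, h1⟩ := hg
  obtain ⟨hh1, δ₂, h2⟩ := hh
  obtain ⟨δ, -, h3⟩ := h1.symm.trans hX hg1 hf hh1 h2
  exact ⟨δ, h3⟩

theorem Fam.dist_eq [CompleteSpace V] (hX : IsCAT0 X) {f g h : V → X} (hf : Isometry f)
    (hg : g ∈ Fam f) (hh : h ∈ Fam f) (p q : V) : dist (g p) (h p) = dist (g q) (h q) := by
  obtain ⟨δ, hδ⟩ := Fam.al hX hf hg hh
  rw [hδ.dist_self, hδ.dist_self]

theorem Fam.of_al [CompleteSpace V] (hX : IsCAT0 X) {f g h : V → X} (hf : Isometry f)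
    (hg : g ∈ Fam f) (hh : Isometry h) {δ : ℝ} (h1 : Al g h δ) : h ∈ Fam f := by
  obtain ⟨hg1, δ₁, h2⟩ := hg
  obtain ⟨δ', -, h3⟩ := h2.trans hX hf hg1 hh h1
  exact ⟨hh, δ', h3⟩

/-- cross-section -/
def Cross (f : V → X) : Set X := (fun g : V → X => g 0) '' Fam f

theorem Cross.isClosed [ProperSpace X] [CompleteSpace V] (hX : IsCAT0 X) {f : V → X}
    (hf : Isometry f) : IsClosed (Cross f) := by
  apply isClosed_of_closure_subset
  intro x hx
  obtain ⟨u, hu, hlim⟩ := mem_closure_iff_seq_limit.1 hx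
  choose g hg hg0 using hu
  have hcau : ∀ p, CauchySeq (fun n => g n p) := by
    intro p
    have h1 := hlim.cauchySeq
    rw [Metric.cauchySeq_iff] at h1 ⊢
    intro ε hε
    obtain ⟨N, hN⟩ := h1 ε hε
    refine ⟨N, fun m hm n hn => ?_⟩
    rw [Fam.dist_eq hX hf (hg m) (hg n) p 0]
    have := hN m hm n hn
    simp only [hg0]
    exact this
  choose G hG using fun p => cauchySeq_tendsto_of_complete (hcau p)
  refine ⟨G, ⟨?_, dist (f 0) x, ?_⟩, ?_⟩
  · apply Isometry.of_dist_eq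
    intro p q
    have h1 : Tendsto (fun n => dist (g n p) (g n q)) atTop (𝓝 (dist (G p) (G q))) :=
      (hG p).dist (hG q)
    have h2 : (fun n => dist (g n p) (g n q)) = fun _ => dist p q :=
      funext fun n => (hg n).1.dist_eq p q
    rw [h2] at h1
    exact tendsto_nhds_unique h1 tendsto_const_nhds |>.symm ▸ rfl
  · intro p q
    have h1 : Tendsto (fun n => dist (f p) (g n q) ^ 2) atTop (𝓝 (dist (f p) (G q) ^ 2)) :=
      (tendsto_const_nhds.dist (hG q)).pow 2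
    have h2 : Tendsto (fun n => ‖p - q‖ ^ 2 + dist (f 0) (u n) ^ 2) atTop
        (𝓝 (‖p - q‖ ^ 2 + dist (f 0) x ^ 2)) :=
      tendsto_const_nhds.add ((tendsto_const_nhds.dist hlim).pow 2)
    have h3 : (fun n => dist (f p) (g n q) ^ 2) = fun n => ‖p - q‖ ^ 2 + dist (f 0) (u n) ^ 2 := by
      funext n
      obtain ⟨-, δ, hδ⟩ := hg n
      have h4 : dist (f 0) (g n 0) ^ 2 = δ ^ 2 := by rw [hδ 0 0]; simp
      have h5 : g n 0 = u n := hg0 n
      rw [hδ p q, ← h4, h5]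
    rw [h3] at h1
    exact tendsto_nhds_unique h1 h2
  · have h1 : Tendsto (fun n => g n 0) atTop (𝓝 (G 0)) := hG 0
    have h2 : (fun n => g n 0) = u := funext hg0
    rw [h2] at h1
    exact tendsto_nhds_unique h1 hlim

theorem exists_center [ProperSpace X] [CompleteSpace V] (hX : IsCAT0 X) {f : V → X}
    (hf : Isometry f) {R : ℝ} (hb : ∀ g ∈ Fam f, dist (f 0) (g 0) ≤ R) :
    ∃ g₀ ∈ Fam f, ∀ (γ : X ≃ᵢ X) (B : V ≃ᵢ V), (∃ δ, Al f (fun p => γ (f (B p))) δ) →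
      ∀ p, γ (g₀ (B p)) = g₀ p := by
  set C := Cross f with hC
  have hf0 : f 0 ∈ C := ⟨f, Fam.self hf, rfl⟩
  have hbd : ∀ x ∈ C, dist (f 0) x ≤ R := by
    rintro x ⟨g, hg, rfl⟩
    exact hb g hg
  have hcomp : IsCompact C := by
    apply Metric.isCompact_of_isClosed_isBounded (Cross.isClosed hX hf)
    rw [Metric.isBounded_iff_subset_closedBall (f 0)]
    refine ⟨R, fun x hx => ?_⟩
    rw [Metric.mem_closedBall, dist_comm]
    exact hbd x hx
  -- the radius function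
  have : Nonempty C := ⟨⟨f 0, hf0⟩⟩
  set r : X → ℝ := fun x => ⨆ y : C, dist x y with hr
  have hbdd : ∀ x, BddAbove (range fun y : C => dist x (y : X)) := by
    intro x
    refine ⟨dist x (f 0) + R, ?_⟩
    rintro _ ⟨y, rfl⟩
    exact (dist_triangle _ (f 0) _).trans (by gcongr; exact hbd y y.2)
  have hle : ∀ x, ∀ y ∈ C, dist x y ≤ r x := fun x y hy => le_ciSup (hbdd x) ⟨y, hy⟩
  have hlip : ∀ x y, r x ≤ r y + dist x y := by
    intro x y
    apply ciSup_le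
    intro z
    have := dist_triangle x y (z : X)
    have h2 := hle y z z.2
    linarith
  have hcont : Continuous r := by
    have : LipschitzWith 1 r := LipschitzWith.of_le_add fun x y => hlip x y
    exact this.continuous
  obtain ⟨x₀, hx₀, hmin⟩ := hcomp.exists_isMinOn ⟨f 0, hf0⟩ hcont.continuousOn
  have hmin' : ∀ y ∈ C, r x₀ ≤ r y := fun y hy => hmin hy
  obtain ⟨g₀, hg₀, hg₀x⟩ := hx₀
  simp only at hg₀x
  -- uniqueness
  have huniq : ∀ g ∈ Fam f, r (g 0) ≤ r x₀ → g 0 = x₀ := by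
    intro g hg hle'
    obtain ⟨δ, hδ⟩ := Fam.al hX hf hg₀ hg
    obtain ⟨F, hF0, hF1, hF⟩ := hδ.interp hX hg₀.1 hg.1
    have hh : (1 / 2 : ℝ) ∈ Icc (0 : ℝ) 1 := ⟨by norm_num, by norm_num⟩
    have h0 : (0 : ℝ) ∈ Icc (0 : ℝ) 1 := ⟨le_refl _, by norm_num⟩
    have h1 : (1 : ℝ) ∈ Icc (0 : ℝ) 1 := ⟨by norm_num, le_refl _⟩
    set gm := F (1 / 2) with hgm
    have hiso : Isometry gm := by
      apply Isometry.of_dist_eq
      intro p q
      have := hF _ hh _ hh p q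
      rw [sub_self, zero_mul] at this
      rw [dist_eq_norm]
      have h2 : dist (gm p) (gm q) ^ 2 = ‖p - q‖ ^ 2 := by rw [hgm, this]; ring
      exact (pow_left_inj₀ dist_nonneg (norm_nonneg _) two_ne_zero).1 h2
    have hal : Al g₀ gm (δ / 2) := by
      intro p q
      have := hF 0 h0 _ hh p q
      rw [hF0] at this
      rw [this]; ring
    have hmem : gm ∈ Fam f := Fam.of_al hX hf hg₀ hiso hal
    have hmC : gm 0 ∈ C := ⟨gm, hmem, rfl⟩
    obtain ⟨m, hm⟩ := hX.exists_mid (g₀ 0) (g 0)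
    have hδabs : dist (g₀ 0) (g 0) = |δ| := hδ.dist_self 0
    have e1 : dist (gm 0) (g₀ 0) = dist (g₀ 0) (g 0) / 2 := by
      rw [hδabs, dist_comm, hal.dist_self 0, abs_div, abs_two]
    have e2 : dist (gm 0) (g 0) = dist (g₀ 0) (g 0) / 2 := by
      have := hF _ hh 1 h1 0 0
      rw [hF1, sub_self, norm_zero] at this
      have h3 : dist (gm 0) (g 0) ^ 2 = (|δ| / 2) ^ 2 := by
        rw [hgm, this, div_pow, sq_abs]; ring
      rw [hδabs]
      exact (pow_left_inj₀ dist_nonneg (by positivity) two_ne_zero).1 h3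
    have e3 : gm 0 = m := hm.eq e1.le e2.le
    have hρ0 : 0 ≤ r x₀ := dist_nonneg.trans (hle x₀ (f 0) hf0)
    set d := dist (g₀ 0) (g 0) with hd
    have key : ∀ z ∈ C, dist (gm 0) z ^ 2 ≤ r x₀ ^ 2 - d ^ 2 / 4 := by
      intro z hz
      have h2 := hm z
      rw [← e3] at h2
      have h3 : dist z (g₀ 0) ≤ r x₀ := by
        rw [dist_comm, hg₀x]; exact hle x₀ z hz
      have h4 : dist z (g 0) ≤ r x₀ := by
        rw [dist_comm]; exact (hle _ z hz).trans hle'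
      have h5 := pow_le_pow_left₀ dist_nonneg h3 2
      have h6 := pow_le_pow_left₀ dist_nonneg h4 2
      rw [dist_comm]
      linarith
    have hnn : 0 ≤ r x₀ ^ 2 - d ^ 2 / 4 := (by positivity : (0 : ℝ) ≤ dist (gm 0) (f 0) ^ 2).trans
      (key _ hf0)
    have h7 : r (gm 0) ≤ Real.sqrt (r x₀ ^ 2 - d ^ 2 / 4) := by
      apply ciSup_le
      intro z
      exact Real.le_sqrt_of_sq_le (key z z.2)
    have h8 : r x₀ ≤ Real.sqrt (r x₀ ^ 2 - d ^ 2 / 4) := (hmin' _ hmC).trans h7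
    have h9 := pow_le_pow_left₀ hρ0 h8 2
    rw [Real.sq_sqrt hnn] at h9
    have h10 : d = 0 := by
      have : d ^ 2 ≤ 0 := by linarith
      exact pow_eq_zero_iff two_ne_zero |>.1 (le_antisymm this (sq_nonneg d))
    have h11 : g₀ 0 = g 0 := dist_eq_zero.1 h10
    rw [← h11, hg₀x]
  refine ⟨g₀, hg₀, fun γ B hγB => ?_⟩
  obtain ⟨δ, hδ⟩ := hγB
  have hfB : (fun p => γ (f (B p))) ∈ Fam f := ⟨γ.isometry.comp (hf.comp B.isometry), δ, hδ⟩
  have hinv : (fun p => γ.symm (f (B.symm p))) ∈ Fam f := by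
    refine ⟨γ.symm.isometry.comp (hf.comp B.symm.isometry), δ, ?_⟩
    have := (hδ.comp γ.symm.isometry B.symm.isometry).symm
    simpa using this
  -- the two maps preserve the family
  have hT : ∀ g ∈ Fam f, (fun p => γ (g (B p))) ∈ Fam f := by
    intro g hg
    obtain ⟨hgi, δg, hg2⟩ := hg
    exact Fam.of_al hX hf hfB (γ.isometry.comp (hgi.comp B.isometry))
      (hg2.comp γ.isometry B.isometry)
  have hT' : ∀ g ∈ Fam f, (fun p => γ.symm (g (B.symm p))) ∈ Fam f := by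
    intro g hg
    obtain ⟨hgi, δg, hg2⟩ := hg
    exact Fam.of_al hX hf hinv (γ.symm.isometry.comp (hgi.comp B.symm.isometry))
      (hg2.comp γ.symm.isometry B.symm.isometry)
  have h1 : r (γ (g₀ (B 0))) ≤ r x₀ := by
    apply ciSup_le
    rintro ⟨z, h, hh, rfl⟩
    simp only
    have h2 := hT' h hh
    have h3 : dist (γ (g₀ (B 0))) (h 0) = dist (g₀ (B 0)) (γ.symm (h (B.symm (B 0)))) := by
      rw [← γ.isometry.dist_eq (g₀ (B 0)), γ.apply_symm_apply, B.symm_apply_apply]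
    rw [h3]
    have h4 := Fam.dist_eq hX hf hg₀ h2 (B 0) 0
    rw [h4, hg₀x]
    exact hle x₀ _ ⟨_, h2, rfl⟩
  have h2 : γ (g₀ (B 0)) = x₀ := huniq _ (hT g₀ hg₀) h1
  intro p
  have h3 : dist (γ (g₀ (B p))) (g₀ p) = dist (γ (g₀ (B 0))) (g₀ 0) :=
    Fam.dist_eq hX hf (hT g₀ hg₀) hg₀ p 0
  rw [h2, hg₀x, dist_self] at h3
  exact dist_eq_zero.1 h3

end Pool.Agent.Helper39.Flats
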