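import Pool.Agent.Helper39.Flats.Rig

set_option linter.unusedSectionVars false

namespace Pool.Agent.Helper39.Flats

open Set Filter Topology

variable {X : Type*} [MetricSpace X]
variable {V : Type*} [NormedAddCommGroup V] [InnerProductSpace ℝ V]
variable {Γ : Type*} [Group Γ] [MulAction Γ X] [IsIsometricSMul Γ X]

/-- iterated commutators -/
def nest {G : Type*} [Group G] (β α : G) : ℕ → G
  | 0 => α
  | (j + 1) => β * nest β α j * β⁻¹ * (nest β α j)⁻¹

theorem lin_nest (β α : Γ × (V ≃ᵢ V)) (j : ℕ) :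
    lin (nest β α j).2 = nest (lin β.2) (lin α.2) j := by
  induction j with
  | zero => rfl
  | succ j ih =>
    simp only [nest]
    rw [← ih, Prod.snd_mul, Prod.snd_mul, Prod.snd_mul, Prod.snd_inv, Prod.snd_inv, lin_mul,
      lin_mul, lin_mul, lin_inv, lin_inv]

theorem nest_descend [FiniteDimensional ℝ V] {A B : V ≃ₗᵢ[ℝ] V}
    (hrot : ∀ j, rot (nest B A j) ≤ 1 / 4) {J : ℕ} (hJ : nest B A (J + 1) = 1) :
    nest B A 1 = 1 := by
  induction J with
  | zero => exact hJ
  | succ J ih =>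
    apply ih
    -- Z = nest B A (J+1) = [B, nest B A J] commutes with B
    have h1 : B * nest B A (J + 1) * B⁻¹ * (nest B A (J + 1))⁻¹ = 1 := hJ
    have h2 : B * nest B A (J + 1) = nest B A (J + 1) * B := by
      have h3 : B * nest B A (J + 1) * B⁻¹ = nest B A (J + 1) := by
        rw [mul_inv_eq_one] at h1; exact h1
      calc B * nest B A (J + 1) = B * nest B A (J + 1) * B⁻¹ * B := by group
        _ = _ := by rw [h3]
    exact frobenius (hrot J) h2

theorem commute_of_small [FiniteDimensional ℝ V]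
    (hproper : ∀ (x : X) (R : ℝ), {γ : Γ | dist (γ • x) x ≤ R}.Finite)
    {f : V → X} (hf : Isometry f) {e : V} (he : ‖e‖ = 1) {c C η m c₀ C₀ r σ : ℝ}
    (hnet : Net Γ f e c C η m) (hc0 : 0 ≤ c) (hcc₀ : c ≤ c₀) (hη : 0 ≤ η) (hr : 0 < r)
    (hr4 : r ≤ 1 / 4) (hC₀ : 0 ≤ C₀) (hσ : 0 < σ) (hσ1 : σ ≤ 1) (hrσ : 3 * r ≤ σ / 4)
    (D : ℕ) (hsum : c₀ + 3 * (D + 2 : ℕ) * r + 2 * η + r ≤ 1 - σ) {K : ℝ} (hK : 0 ≤ K)
    {α : Γ × (V ≃ᵢ V)} {Sα : ℝ} (hα : Sym f e α c₀ C₀ Sα) (hrα : rot (lin α.2) ≤ r) :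
    ∃ q₀ : ℕ, 1 ≤ q₀ ∧ ∀ q : ℕ, q₀ ≤ q → ∀ (β : Γ × (V ≃ᵢ V)) (Sβ : ℝ), Sym f e β c₀ C₀ Sβ →
      Sβ ≤ K * (q : ℝ) ^ D → rot (lin β.2) ≤ 1 / q →
      lin β.2 * lin α.2 = lin α.2 * lin β.2 := by
  have hm0 : 0 ≤ m := by
    obtain ⟨γ, x, ρ, hx, -⟩ := hnet 0
    exact (norm_nonneg _).trans hx
  have hSα := hα.nonneg
  set J : ℕ := D + 2 with hJ
  set Λ : ℝ := (8 / σ) ^ 4 with hΛ
  have hΛ1 : 1 ≤ Λ := by
    apply one_le_pow₀
    rw [le_div_iff₀ hσ]; linarith
  obtain ⟨δ, hδ, hrig⟩ := rigid hproper hf he hnet hc0 (c' := c₀ + 3 * J * r) (C' := 4 ^ J * C₀)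
    (by have : 0 ≤ 3 * (J : ℝ) * r := by positivity
        linarith) hη hr.le (by positivity) hσ hσ1 (by simpa using hsum)
  set M₀ : ℝ := 2 ^ J * ((2 * Λ) ^ J * (Sα + K) + 3 * m / σ) + 3 ^ J * (Sα + J * K) with hM₀
  obtain ⟨q₁, hq₁⟩ := exists_nat_ge (max (max M₀ (2 ^ J / δ + 1)) (max (1 / r) 2))
  refine ⟨max q₁ 1, le_max_right _ _, fun q hq β Sβ hβ hSβ hrβ => ?_⟩
  have hq1 : (q₁ : ℝ) ≤ q := by exact_mod_cast (le_max_left _ _).trans hq
  have hqM : M₀ ≤ q := ((le_max_left _ _).trans (le_max_left _ _)).trans (hq₁.trans hq1)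
  have hqδ : 2 ^ J / δ + 1 ≤ q := ((le_max_right _ _).trans (le_max_left _ _)).trans (hq₁.trans hq1)
  have hqr : 1 / r ≤ q := ((le_max_left _ _).trans (le_max_right _ _)).trans (hq₁.trans hq1)
  have hq2 : (2 : ℝ) ≤ q := ((le_max_right _ _).trans (le_max_right _ _)).trans (hq₁.trans hq1)
  have hq0 : (0 : ℝ) < q := by linarith
  have h1q : 1 / (q : ℝ) ≤ r := by
    rw [div_le_iff₀ hr] at hqr
    rw [div_le_iff₀ hq0]; linarith
  have h2q : 2 / (q : ℝ) ≤ 1 := by rw [div_le_one hq0]; exact hq2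
  have h1q0 : 0 < 1 / (q : ℝ) := by positivity
  have hrβ' : rot (lin β.2) ≤ r := hrβ.trans h1q
  -- induction
  have key : ∀ j : ℕ, j ≤ J → (rot (lin (nest β α j).2) ≤ (2 / q) ^ j * r) ∧
      (‖(nest β α j).2 0‖ ≤ (3 / q) ^ j * (Sα + j * (K * q ^ (D + 1)))) ∧
      Sym f e (nest β α j) (c₀ + 3 * j * r) (4 ^ j * C₀) ((2 * Λ) ^ j * (Sα + K * q ^ D)) := by
    intro j
    induction j with
    | zero =>
      intro _
      refine ⟨by simpa [nest] using hrα, by simpa [nest] using hα.1, ?_⟩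
      have : 0 ≤ K * (q : ℝ) ^ D := by positivity
      simp only [nest, Nat.cast_zero, mul_zero, zero_mul, add_zero, pow_zero, one_mul]
      exact hα.mono he (by linarith) (by have : 0 ≤ 3 * (J : ℝ) * r := by positivity
                                         linarith) le_rfl le_rfl (by linarith)
    | succ j ih =>
      intro hj
      obtain ⟨i1, i2, i3⟩ := ih (by omega)
      set n := nest β α j with hn
      have hrn : rot (lin n.2) ≤ r := by
        refine i1.trans ?_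
        have : (2 / (q : ℝ)) ^ j ≤ 1 := pow_le_one₀ (by positivity) h2q
        nlinarith
      have hrn0 := rot_nonneg (lin n.2)
      have hrb0 := rot_nonneg (lin β.2)
      have e0 : nest β α (j + 1) = β * n * β⁻¹ * n⁻¹ := rfl
      have hj' : ((j : ℝ) + 1) ≤ J := by exact_mod_cast hj
      have h3j : 3 * ((j : ℝ) + 1) * r ≤ 3 * J * r := by gcongr
      have hcj : c₀ + 3 * ((j : ℝ) + 1) * r ≤ 1 - σ := by linarith
      have h3j1 : 0 ≤ 3 * ((j : ℝ) + 1) * r := by positivity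
      refine ⟨?_, ?_, ?_⟩
      · rw [e0, Prod.snd_mul, Prod.snd_mul, Prod.snd_mul, Prod.snd_inv, Prod.snd_inv, lin_mul,
          lin_mul, lin_mul, lin_inv, lin_inv]
        refine (rot_comm_le _ _).trans ?_
        calc 2 * rot (lin β.2) * rot (lin n.2) ≤ 2 * (1 / q) * ((2 / q) ^ j * r) := by gcongr
          _ = (2 / q) ^ (j + 1) * r := by rw [pow_succ]; ring
      · rw [e0, Prod.snd_mul, Prod.snd_mul, Prod.snd_mul, Prod.snd_inv, Prod.snd_inv]
        refine (norm_comm_zero_le _ _).trans ?_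
        set tn := ‖n.2 0‖ with htn
        set tb := ‖β.2 0‖ with htb
        have htn0 : 0 ≤ tn := norm_nonneg _
        have htb0 : 0 ≤ tb := norm_nonneg _
        have htbK : tb ≤ K * q ^ D := hβ.1.trans hSβ
        have hrn3 : rot (lin n.2) ≤ (3 / q) ^ j * (1 / 4) := by
          refine i1.trans ?_
          have : (2 / (q : ℝ)) ^ j ≤ (3 / q) ^ j := by gcongr; norm_num
          have h0 : 0 ≤ (2 / (q : ℝ)) ^ j := by positivity
          calc (2 / (q : ℝ)) ^ j * r ≤ (2 / q) ^ j * (1 / 4) := by gcongr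
            _ ≤ _ := by gcongr
        have hrn4 : rot (lin n.2) ≤ 1 / 4 := hrn.trans hr4
        have s1 : 2 * rot (lin β.2) * rot (lin n.2) * (tb + tn) ≤
            2 * (1 / q) * (1 / 4) * tn + 1 * rot (lin n.2) * tb := by
          have a1 : 2 * rot (lin β.2) * rot (lin n.2) * tn ≤ 2 * (1 / q) * (1 / 4) * tn := by
            gcongr
          have a2 : 2 * rot (lin β.2) * rot (lin n.2) * tb ≤ 1 * rot (lin n.2) * tb := by
            have : 2 * rot (lin β.2) ≤ 1 := by
              have : 2 * (1 / (q : ℝ)) = 2 / q := by ring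
              linarith
            gcongr
          nlinarith
        have s2 : rot (lin β.2) * tn ≤ 1 / q * tn := by gcongr
        have s3 : 2 * rot (lin β.2) * rot (lin n.2) * (tb + tn) + rot (lin β.2) * tn +
            rot (lin n.2) * tb ≤ 3 / q * tn + 2 * rot (lin n.2) * tb := by
          have : 3 / (q : ℝ) * tn = 3 * (1 / q * tn) := by ring
          have h5 : 2 * (1 / (q : ℝ)) * (1 / 4) * tn = (1 / 2) * (1 / q * tn) := by ring
          have h6 : 0 ≤ 1 / (q : ℝ) * tn := by positivity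
          rw [h5] at s1
          linarith
        have s4 : 2 * rot (lin n.2) * tb ≤ (3 / q) ^ j * (K * q ^ D) := by
          calc 2 * rot (lin n.2) * tb ≤ 2 * ((3 / q) ^ j * (1 / 4)) * (K * q ^ D) := by gcongr
            _ = (1 / 2) * ((3 / q) ^ j * (K * q ^ D)) := by ring
            _ ≤ _ := by
              have : 0 ≤ (3 / (q : ℝ)) ^ j * (K * q ^ D) := by positivity
              linarith
        have s5 : 3 / q * tn ≤ 3 / q * ((3 / q) ^ j * (Sα + j * (K * q ^ (D + 1)))) := by gcongr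
        have s6 : (3 / (q : ℝ)) ^ j * (K * q ^ D) ≤ (3 / q) ^ (j + 1) * (K * q ^ (D + 1)) := by
          have : (3 / (q : ℝ)) ^ (j + 1) * (K * q ^ (D + 1)) =
              3 * ((3 / q) ^ j * (K * q ^ D)) := by
            rw [pow_succ, pow_succ]; field_simp
          rw [this]
          have : 0 ≤ (3 / (q : ℝ)) ^ j * (K * q ^ D) := by positivity
          linarith
        have s7 : (3 / (q : ℝ)) ^ (j + 1) * (Sα + ((j + 1 : ℕ) : ℝ) * (K * q ^ (D + 1))) =
            3 / q * ((3 / q) ^ j * (Sα + j * (K * q ^ (D + 1)))) +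
              (3 / q) ^ (j + 1) * (K * q ^ (D + 1)) := by
          push_cast; rw [pow_succ (3 / (q : ℝ)) j]; ring
        rw [s7]
        linarith
      · have hβ' : Sym f e β (c₀ + 3 * j * r) (4 ^ j * C₀) Sβ := by
          refine hβ.mono he (by linarith) (by linarith) ?_ ?_ le_rfl
          · have : 0 ≤ 3 * (j : ℝ) * r := by positivity
            linarith
          · have : (1 : ℝ) ≤ 4 ^ j := one_le_pow₀ (by norm_num)
            nlinarith
        have h3j0 : 0 ≤ 3 * (j : ℝ) * r := by positivity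
        have hcomm := (hβ.mono he (c' := c₀ + 3 * j * r) (C' := C₀) (S' := Sβ) (by linarith)
          (by linarith) (by linarith) le_rfl le_rfl).commutator he i3 hσ hσ1 hrβ' hrn hrσ
          (by linarith) (by have : c₀ + 3 * (j : ℝ) * r + 3 * r =
                              c₀ + 3 * ((j : ℝ) + 1) * r := by ring
                            linarith)
        rw [e0]
        refine hcomm.mono he (by linarith) (by linarith) ?_ ?_ ?_
        · push_cast; linarith
        · have h4j : (1 : ℝ) ≤ 4 ^ j := one_le_pow₀ (by norm_num)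
          have : C₀ ≤ 4 ^ j * C₀ := by nlinarith
          rw [pow_succ]; linarith
        · have hL : (1 : ℝ) ≤ (2 * Λ) ^ j := one_le_pow₀ (by linarith)
          have h0 : 0 ≤ Sα + K * (q : ℝ) ^ D := by positivity
          have h1 : Sβ ≤ (2 * Λ) ^ j * (Sα + K * q ^ D) := by
            calc Sβ ≤ K * q ^ D := hSβ
              _ ≤ 1 * (Sα + K * q ^ D) := by linarith
              _ ≤ _ := by gcongr
          calc Λ * (Sβ + (2 * Λ) ^ j * (Sα + K * q ^ D))
              ≤ Λ * ((2 * Λ) ^ j * (Sα + K * q ^ D) + (2 * Λ) ^ j * (Sα + K * q ^ D)) := by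
                gcongr
            _ = (2 * Λ) ^ (j + 1) * (Sα + K * q ^ D) := by rw [pow_succ]; ring
  obtain ⟨k1, k2, k3⟩ := key J le_rfl
  -- smallness
  have hqJ : (q : ℝ) ^ J = q ^ (D + 1) * q := by rw [hJ, ← pow_succ]
  have hq1' : (1 : ℝ) ≤ q := by linarith
  have hqD1 : (1 : ℝ) ≤ q ^ (D + 1) := one_le_pow₀ hq1'
  have hqD : (q : ℝ) ^ D ≤ q ^ (D + 1) := pow_le_pow_right₀ hq1' (by omega)
  have hqDpos : (0 : ℝ) < q ^ (D + 1) := by positivity
  have p1 : ∀ b : ℝ, 0 ≤ b → (b / q) ^ J ≤ b ^ J / q := by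
    intro b hb
    rw [div_pow, hqJ]
    apply div_le_div_of_nonneg_left (by positivity) hq0
    nlinarith
  have p2 : (2 / (q : ℝ)) ^ J * q ^ D ≤ 2 ^ J / q := by
    rw [div_pow, hqJ, div_mul_eq_mul_div, div_le_div_iff₀ (by positivity) hq0]
    have : 0 ≤ (2 : ℝ) ^ J * q := by positivity
    nlinarith
  have p3 : (3 / (q : ℝ)) ^ J * q ^ (D + 1) = 3 ^ J / q := by
    rw [div_pow, hqJ]; field_simp
  have hrJr : rot (lin (nest β α J).2) ≤ r := by
    refine k1.trans ?_
    have : (2 / (q : ℝ)) ^ J ≤ 1 := pow_le_one₀ (by positivity) h2q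
    nlinarith
  have hrJ : rot (lin (nest β α J).2) ≤ (2 / q) ^ J := by
    refine k1.trans ?_
    have : 0 ≤ (2 / (q : ℝ)) ^ J := by positivity
    nlinarith
  have hone : lin (nest β α J).2 = 1 := by
    apply hrig (nest β α J) ((2 * Λ) ^ J * (Sα + K * q ^ D)) k3 hrJr
    · refine (hrJ.trans (p1 2 (by norm_num))).trans_lt ?_
      rw [div_lt_iff₀ hq0]
      have : 2 ^ J / δ < q := by linarith
      rw [div_lt_iff₀ hδ] at this
      linarith
    · have g1 : rot (lin (nest β α J).2) * ((2 * Λ) ^ J * (Sα + K * q ^ D) + 3 * m / σ) ≤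
          (2 / q) ^ J * ((2 * Λ) ^ J * (Sα + K * q ^ D) + 3 * m / σ) := by gcongr
      have g2 : (2 / (q : ℝ)) ^ J * ((2 * Λ) ^ J * (Sα + K * q ^ D) + 3 * m / σ) =
          (2 * Λ) ^ J * (Sα * (2 / q) ^ J + K * ((2 / q) ^ J * q ^ D)) +
            3 * m / σ * (2 / q) ^ J := by ring
      have g3 : (2 * Λ) ^ J * (Sα * (2 / q) ^ J + K * ((2 / q) ^ J * q ^ D)) +
            3 * m / σ * (2 / q) ^ J ≤ (2 * Λ) ^ J * (Sα * (2 ^ J / q) + K * (2 ^ J / q)) +
            3 * m / σ * (2 ^ J / q) := by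
        have := p1 2 (by norm_num)
        gcongr
      have g4 : (3 / (q : ℝ)) ^ J * (Sα + J * (K * q ^ (D + 1))) =
          Sα * (3 / q) ^ J + J * K * ((3 / q) ^ J * q ^ (D + 1)) := by ring
      have g5 : Sα * (3 / (q : ℝ)) ^ J + J * K * ((3 / q) ^ J * q ^ (D + 1)) ≤
          Sα * (3 ^ J / q) + J * K * (3 ^ J / q) := by
        rw [p3]
        have := p1 3 (by norm_num)
        gcongr
      have g6 : (2 * Λ) ^ J * (Sα * (2 ^ J / q) + K * (2 ^ J / q)) + 3 * m / σ * (2 ^ J / q) +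
          (Sα * (3 ^ J / q) + J * K * (3 ^ J / q)) = M₀ / q := by rw [hM₀]; ring
      have g7 : M₀ / q ≤ 1 := by rw [div_le_one hq0]; exact hqM
      linarith
  -- descend
  rw [lin_nest] at hone
  have hrotall : ∀ j, rot (nest (lin β.2) (lin α.2) j) ≤ 1 / 4 := by
    intro j
    induction j with
    | zero => exact hrα.trans hr4
    | succ j ih =>
      refine (rot_comm_le _ _).trans ?_
      have h0 := rot_nonneg (nest (lin β.2) (lin α.2) j)
      have h1 := rot_nonneg (lin β.2)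
      have : 2 * rot (lin β.2) ≤ 1 := by
        have : 2 * (1 / (q : ℝ)) = 2 / q := by ring
        linarith
      nlinarith
  have h1 := nest_descend hrotall (J := D + 1) hone
  have h2 : lin β.2 * lin α.2 * (lin β.2)⁻¹ * (lin α.2)⁻¹ = 1 := h1
  rw [mul_inv_eq_one] at h2
  calc lin β.2 * lin α.2 = lin β.2 * lin α.2 * (lin β.2)⁻¹ * lin β.2 := by group
    _ = _ := by rw [h2]

end Pool.Agent.Helper39.Flats
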