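import Pool.Agent.Helper39.Flats.Maximal

set_option linter.unusedSectionVars false

namespace Pool.Agent.Helper39.Flats

open Set Filter Topology

variable {V : Type*} [NormedAddCommGroup V] [InnerProductSpace ℝ V]

/-! ### more about rotations -/

theorem rot_inv (A : V ≃ₗᵢ[ℝ] V) : rot A⁻¹ = rot A := by
  have key : ∀ A : V ≃ₗᵢ[ℝ] V, rot A⁻¹ ≤ rot A := by
    intro A
    apply rot_le (rot_nonneg A)
    intro x
    have h1 := rot_apply_le A (A⁻¹ x)
    have h2 : A (A⁻¹ x) = x := by simp [LinearIsometryEquiv.coe_inv]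
    rw [h2, (A⁻¹).norm_map, norm_sub_rev] at h1
    exact h1
  apply le_antisymm (key A)
  have := key A⁻¹
  rwa [inv_inv] at this

theorem rot_mul_le (A B : V ≃ₗᵢ[ℝ] V) : rot (A * B) ≤ rot A + rot B := by
  apply rot_le (add_nonneg (rot_nonneg A) (rot_nonneg B))
  intro x
  have h1 : (A * B) x - x = (A (B x) - B x) + (B x - x) := by
    simp [LinearIsometryEquiv.coe_mul]
  rw [h1]
  refine (norm_add_le _ _).trans ?_
  have h2 := rot_apply_le A (B x)
  have h3 := rot_apply_le B x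
  rw [B.norm_map] at h2
  linarith

theorem rot_conj (A B : V ≃ₗᵢ[ℝ] V) : rot (B⁻¹ * A * B) = rot A := by
  have key : ∀ A B : V ≃ₗᵢ[ℝ] V, rot (B⁻¹ * A * B) ≤ rot A := by
    intro A B
    apply rot_le (rot_nonneg A)
    intro x
    have h1 : (B⁻¹ * A * B) x - x = B⁻¹ (A (B x) - B x) := by
      rw [map_sub]
      simp [LinearIsometryEquiv.coe_mul, LinearIsometryEquiv.coe_inv]
    rw [h1, (B⁻¹).norm_map]
    have := rot_apply_le A (B x)
    rwa [B.norm_map] at this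
  apply le_antisymm (key A B)
  have := key (B⁻¹ * A * B) B⁻¹
  have h2 : (B⁻¹)⁻¹ * (B⁻¹ * A * B) * B⁻¹ = A := by group
  rwa [h2] at this

theorem rot_le_two (A : V ≃ₗᵢ[ℝ] V) : rot A ≤ 2 := by
  apply rot_le (by norm_num)
  intro x
  refine (norm_sub_le _ _).trans ?_
  rw [A.norm_map]; linarith

theorem maxSpace_sq {A : V ≃ₗᵢ[ℝ] V} {c : ℝ} {x : V} (hx : x ∈ maxSpace A c) :
    x ∈ maxSpace (A ^ 2) (c * (4 - c)) := by
  have hx' := hx
  rw [mem_maxSpace] at hx ⊢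
  have h1 := maxSpace_map hx'
  have h2 := maxSpace_map_inv hx'
  rw [mem_maxSpace] at h1 h2
  have e1 : A⁻¹ (A x) = x := by simp [LinearIsometryEquiv.coe_inv]
  have e2 : A (A⁻¹ x) = x := by simp [LinearIsometryEquiv.coe_inv]
  rw [e1] at h1
  rw [e2] at h2
  have e3 : (A ^ 2) x = A (A x) := by simp [pow_two, LinearIsometryEquiv.coe_mul]
  have e4 : (A ^ 2)⁻¹ x = A⁻¹ (A⁻¹ x) := by
    rw [pow_two, mul_inv_rev]
    simp [LinearIsometryEquiv.coe_mul]
  rw [e3, e4]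
  have h3 : A (A x) = (2 - c) • A x - x := eq_sub_of_add_eq h1
  have h4 : A⁻¹ (A⁻¹ x) = (2 - c) • A⁻¹ x - x := by
    rw [← h2]; abel
  rw [h3, h4]
  have h5 : (2 - c) • A x - x + ((2 - c) • A⁻¹ x - x) = (2 - c) • (A x + A⁻¹ x) - (2 : ℝ) • x := by
    module
  rw [h5, hx]
  module

/-- No small subgroups. -/
theorem eq_one_of_pow_rot_le [FiniteDimensional ℝ V] {A : V ≃ₗᵢ[ℝ] V}
    (h : ∀ m : ℕ, rot (A ^ m) ≤ 1 / 2) : A = 1 := by
  by_contra hne
  have hrot : rot A ≠ 0 := fun h0 => hne (rot_eq_zero h0)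
  -- a vector in the maximal space
  have hc : ∀ y, ‖A y - y‖ ^ 2 ≤ rot A ^ 2 * ‖y‖ ^ 2 := by
    intro y
    rw [← mul_pow]
    exact pow_le_pow_left₀ (norm_nonneg _) (rot_apply_le A y) 2
  obtain ⟨E, ν, -, -, ⟨u, huE, hu0⟩, hE, -⟩ := exists_split hrot
  have hu : u ∈ maxSpace A (rot A ^ 2) := by
    apply mem_maxSpace_of_max hc
    rw [(hE u huE).2, mul_pow]
  have hun : 0 < ‖u‖ := norm_pos_iff.2 hu0
  have hpos : 0 < rot A ^ 2 := by positivity
  have key : ∀ j : ℕ, ∃ c, 3 ^ j * rot A ^ 2 ≤ c ∧ u ∈ maxSpace (A ^ (2 ^ j)) c := by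
    intro j
    induction j with
    | zero => exact ⟨rot A ^ 2, by simp, by simpa using hu⟩
    | succ j ih =>
      obtain ⟨c, hc1, hc2⟩ := ih
      have h1 := maxSpace_norm hc2
      have h2 : ‖(A ^ 2 ^ j) u - u‖ ≤ 1 / 2 * ‖u‖ :=
        (rot_apply_le _ u).trans (mul_le_mul_of_nonneg_right (h _) hun.le)
      have h3 : c * ‖u‖ ^ 2 ≤ (1 / 2 * ‖u‖) ^ 2 := by
        rw [← h1]; exact pow_le_pow_left₀ (norm_nonneg _) h2 2
      have h4 : c ≤ 1 / 4 := by
        by_contra hcon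
        push Not at hcon
        have : 1 / 4 * ‖u‖ ^ 2 < c * ‖u‖ ^ 2 := mul_lt_mul_of_pos_right hcon (by positivity)
        nlinarith
      have hc0 : 0 ≤ c := le_trans (by positivity) hc1
      refine ⟨c * (4 - c), ?_, ?_⟩
      · rw [pow_succ]
        nlinarith
      · have := maxSpace_sq hc2
        rwa [← pow_mul, ← pow_succ] at this
  obtain ⟨j, hj⟩ := pow_unbounded_of_one_lt (1 / rot A ^ 2) (show (1 : ℝ) < 3 by norm_num)
  obtain ⟨c, hc1, hc2⟩ := key j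
  have h1 := maxSpace_norm hc2
  have h2 : ‖(A ^ 2 ^ j) u - u‖ ≤ 1 / 2 * ‖u‖ :=
    (rot_apply_le _ u).trans (mul_le_mul_of_nonneg_right (h _) hun.le)
  have h3 : c * ‖u‖ ^ 2 ≤ (1 / 2 * ‖u‖) ^ 2 := by
    rw [← h1]; exact pow_le_pow_left₀ (norm_nonneg _) h2 2
  rw [div_lt_iff₀ hpos] at hj
  have h4 : 1 < c := hj.trans_le hc1
  have : 1 * ‖u‖ ^ 2 < c * ‖u‖ ^ 2 := mul_lt_mul_of_pos_right h4 (by positivity)
  nlinarith

/-- Frobenius' lemma: if `B` commutes with `[B, A]` and `A` is close to `1` then `B` commutes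
with `A`. -/
theorem frobenius [FiniteDimensional ℝ V] {A B : V ≃ₗᵢ[ℝ] V} (hA : rot A ≤ 1 / 4)
    (h : B * (B * A * B⁻¹ * A⁻¹) = (B * A * B⁻¹ * A⁻¹) * B) : B * A * B⁻¹ * A⁻¹ = 1 := by
  set Z := B * A * B⁻¹ * A⁻¹ with hZ
  have hZA : B * A * B⁻¹ = Z * A := by rw [hZ]; group
  have hcomm : Commute B Z := h
  have hpow : ∀ m : ℕ, B ^ m * A * (B ^ m)⁻¹ = Z ^ m * A := by
    intro m
    induction m with
    | zero => simp
    | succ m ih =>
      calc B ^ (m + 1) * A * (B ^ (m + 1))⁻¹ = B * (B ^ m * A * (B ^ m)⁻¹) * B⁻¹ := by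
            rw [pow_succ']; group
        _ = B * (Z ^ m * A) * B⁻¹ := by rw [ih]
        _ = Z ^ m * (B * A * B⁻¹) := by
            have := (hcomm.pow_right m).eq
            calc B * (Z ^ m * A) * B⁻¹ = (B * Z ^ m) * A * B⁻¹ := by group
              _ = (Z ^ m * B) * A * B⁻¹ := by rw [this]
              _ = _ := by group
        _ = Z ^ (m + 1) * A := by rw [hZA, pow_succ]; group
  apply eq_one_of_pow_rot_le
  intro m
  have h1 : Z ^ m = B ^ m * A * (B ^ m)⁻¹ * A⁻¹ := by rw [hpow]; group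
  rw [h1]
  apply rot_le (by norm_num)
  intro x
  set P := B ^ m
  set y := P⁻¹ (A⁻¹ x) with hy
  have hx : x = A (P y) := by
    rw [hy]
    simp [LinearIsometryEquiv.coe_inv]
  have hnorm : ‖y‖ = ‖x‖ := by rw [hy]; simp
  have h2 : (P * A * P⁻¹ * A⁻¹) x = P (A y) := by
    rw [hy]
    simp [LinearIsometryEquiv.coe_mul]
  rw [h2]
  conv_lhs => rw [hx]
  have h3 : P (A y) - A (P y) = P (A y - y) - (A (P y) - P y) := by
    rw [map_sub]; abel
  rw [h3, ← hnorm]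
  have h4 := rot_apply_le A y
  have h5 := rot_apply_le A (P y)
  rw [P.norm_map] at h5
  calc ‖P (A y - y) - (A (P y) - P y)‖ ≤ ‖P (A y - y)‖ + ‖A (P y) - P y‖ := norm_sub_le _ _
    _ ≤ rot A * ‖y‖ + rot A * ‖y‖ := by rw [P.norm_map]; linarith
    _ ≤ 1 / 2 * ‖y‖ := by nlinarith [norm_nonneg y]

/-! ### cones -/

/-- The cone around `e` (a unit vector) of the vectors whose angle with `e` has cosine `≥ c`. -/
def Cone (e : V) (c : ℝ) : Set V := {z | c * ‖z‖ ≤ inner ℝ z e}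

theorem Cone.mono {e : V} {c c' : ℝ} (h : c ≤ c') : Cone e c' ⊆ Cone e c := by
  intro z hz
  exact (mul_le_mul_of_nonneg_right h (norm_nonneg z)).trans hz

theorem Cone.add {e : V} {c : ℝ} (hc : 0 ≤ c) {z w : V} (hz : z ∈ Cone e c) (hw : w ∈ Cone e c) :
    z + w ∈ Cone e c := by
  have hz' : c * ‖z‖ ≤ inner ℝ z e := hz
  have hw' : c * ‖w‖ ≤ inner ℝ w e := hw
  change c * ‖z + w‖ ≤ inner ℝ (z + w) e
  rw [inner_add_left]
  have := mul_le_mul_of_nonneg_left (norm_add_le z w) hc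
  nlinarith

theorem Cone.smul {e : V} {c : ℝ} {z : V} (hz : z ∈ Cone e c) {t : ℝ} (ht : 0 ≤ t) :
    t • z ∈ Cone e c := by
  have hz' : c * ‖z‖ ≤ inner ℝ z e := hz
  change c * ‖t • z‖ ≤ inner ℝ (t • z) e
  rw [norm_smul, Real.norm_of_nonneg ht, inner_smul_left]
  simp only [RCLike.conj_to_real]
  nlinarith

theorem Cone.zero (e : V) (c : ℝ) : (0 : V) ∈ Cone e c := by
  change c * ‖(0 : V)‖ ≤ inner ℝ (0 : V) e
  simp

/-- A vector `t e + w` with `w` small compared with `t` is in the cone. -/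
theorem Cone.near {e : V} (he : ‖e‖ = 1) {c : ℝ} {t : ℝ} {w : V} (hc : 0 ≤ c)
    (h : (1 + c) * ‖w‖ ≤ (1 - c) * t) (ht : 0 ≤ t) : t • e + w ∈ Cone e c := by
  change c * ‖t • e + w‖ ≤ inner ℝ (t • e + w) e
  rw [inner_add_left, inner_smul_left, real_inner_self_eq_norm_sq, he]
  simp only [RCLike.conj_to_real]
  have h1 : ‖t • e + w‖ ≤ t + ‖w‖ := by
    refine (norm_add_le _ _).trans ?_
    rw [norm_smul, he, Real.norm_of_nonneg ht, mul_one]
  have h2 : -‖w‖ ≤ inner ℝ w e := by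
    have := abs_real_inner_le_norm w e
    rw [he, mul_one, abs_le] at this
    exact this.1
  have h3 := mul_le_mul_of_nonneg_left h1 hc
  nlinarith

theorem Cone.map {e : V} (he : ‖e‖ = 1) {c : ℝ} {z : V} (A : V ≃ₗᵢ[ℝ] V)
    (hz : z ∈ Cone e (c + rot A)) : A z ∈ Cone e c := by
  have hz' : (c + rot A) * ‖z‖ ≤ inner ℝ z e := hz
  change c * ‖A z‖ ≤ inner ℝ (A z) e
  rw [A.norm_map]
  have h1 : inner ℝ (A z) e = inner ℝ (A z - z) e + inner ℝ z e := by
    rw [← inner_add_left]; congr 1; abel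
  have h2 : -(rot A * ‖z‖) ≤ inner ℝ (A z - z) e := by
    have := abs_real_inner_le_norm (A z - z) e
    rw [he, mul_one, abs_le] at this
    have h3 := rot_apply_le A z
    linarith [this.1]
  rw [h1]
  linarith

theorem Cone.map' {e : V} (he : ‖e‖ = 1) {c c' : ℝ} {z : V} (A : V ≃ₗᵢ[ℝ] V)
    (h : c + rot A ≤ c') (hz : z ∈ Cone e c') : A z ∈ Cone e c :=
  Cone.map he A (Cone.mono h hz)

/-- Linear isometries at bounded distance on a cone are equal. -/
theorem Cone.ext {e : V} (he : ‖e‖ = 1) {c : ℝ} (hc0 : 0 ≤ c) (hc : c < 1) {A B : V ≃ₗᵢ[ℝ] V}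
    {M : ℝ} (h : ∀ z ∈ Cone e c, ‖A z - B z‖ ≤ M) : A = B := by
  have h1 : ∀ z ∈ Cone e c, A z = B z := by
    intro z hz
    by_contra hne
    have hpos : 0 < ‖A z - B z‖ := norm_pos_iff.2 (sub_ne_zero.2 hne)
    have hM : 0 ≤ M := (norm_nonneg _).trans (h z hz)
    have h2 := h _ (Cone.smul hz (t := (M + 1) / ‖A z - B z‖) (by positivity))
    rw [map_smul, map_smul, ← smul_sub, norm_smul, Real.norm_of_nonneg (by positivity),
      div_mul_cancel₀ _ hpos.ne'] at h2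
    linarith
  ext v
  set t : ℝ := 2 * ‖v‖ / (1 - c) with ht
  have h1c : 0 < 1 - c := by linarith
  have ht0 : 0 ≤ t := by positivity
  have h2 : t • e + v ∈ Cone e c := by
    apply Cone.near he hc0 _ ht0
    have : (1 - c) * t = 2 * ‖v‖ := by rw [ht]; field_simp
    rw [this]
    have := norm_nonneg v
    nlinarith
  have h3 : t • e ∈ Cone e c := by
    have := Cone.near (w := 0) he hc0 (t := t) (by rw [norm_zero]; nlinarith) ht0
    simpa using this
  have h4 := h1 _ h2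
  rw [map_add, map_add, h1 _ h3] at h4
  exact add_left_cancel h4

/-! ### isometries of `V` -/

/-- linear part -/
noncomputable def lin (R : V ≃ᵢ V) : V ≃ₗᵢ[ℝ] V := R.toRealLinearIsometryEquiv

theorem lin_apply (R : V ≃ᵢ V) (v : V) : lin R v = R v - R 0 :=
  IsometryEquiv.toRealLinearIsometryEquiv_apply R v

theorem apply_add (R : V ≃ᵢ V) (p v : V) : R (p + v) = R p + lin R v := by
  have h1 := map_add (lin R) p v
  rw [lin_apply, lin_apply] at h1
  have : R (p + v) = (R (p + v) - R 0) + R 0 := by abel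
  rw [this, h1]; abel

theorem apply_eq (R : V ≃ᵢ V) (v : V) : R v = lin R v + R 0 := by
  rw [lin_apply]; abel

theorem lin_mul (R S : V ≃ᵢ V) : lin (R * S) = lin R * lin S := by
  ext v
  rw [lin_apply, LinearIsometryEquiv.coe_mul, Function.comp_apply, lin_apply S]
  rw [IsometryEquiv.mul_apply, IsometryEquiv.mul_apply]
  have h1 : S v = S 0 + (S v - S 0) := by abel
  conv_lhs => rw [h1]
  rw [apply_add]; abel

theorem lin_one : lin (1 : V ≃ᵢ V) = 1 := by
  ext v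
  rw [lin_apply]
  simp

theorem lin_inv (R : V ≃ᵢ V) : lin R⁻¹ = (lin R)⁻¹ := by
  have : lin R⁻¹ * lin R = 1 := by rw [← lin_mul]; simp [lin_one]
  exact eq_inv_of_mul_eq_one_left this

theorem norm_apply_sub_le (R : V ≃ᵢ V) (v : V) : ‖R v - v‖ ≤ rot (lin R) * ‖v‖ + ‖R 0‖ := by
  rw [apply_eq]
  have h1 : lin R v + R 0 - v = (lin R v - v) + R 0 := by abel
  rw [h1]
  exact (norm_add_le _ _).trans (add_le_add (rot_apply_le _ _) le_rfl)

theorem norm_inv_zero (R : V ≃ᵢ V) : ‖R⁻¹ 0‖ = ‖R 0‖ := by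
  have h1 := R.isometry.dist_eq (R⁻¹ 0) 0
  have h2 : R (R⁻¹ 0) = 0 := by
    rw [← IsometryEquiv.mul_apply, mul_inv_cancel, IsometryEquiv.coe_one, id]
  rw [h2, dist_zero_left, dist_zero_right] at h1
  exact h1.symm

end Pool.Agent.Helper39.Flats
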