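import Pool.Agent.Helper39.Flats.Core

set_option linter.unusedSectionVars false

namespace Pool.Agent.Helper39.Flats

open Set Filter Topology

/-! ### a scheme for countable families -/

theorem scheme_countable {Y : Type*} [TopologicalSpace Y] [LocallyCompactSpace Y] [T2Space Y]
    [Nonempty Y] {ι : Type*} [Countable ι] [Nonempty ι] {E : ι → Set (Y × Y)}
    (hE : ∀ i, IsClosed (E i)) (hE' : ∀ i, interior (E i) = ∅) :
    ∃ φ : (ℕ → Bool) → Y, ∀ x y, x ≠ y → ∀ i, (φ x, φ y) ∉ E i := by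
  obtain ⟨r, hr⟩ := exists_surjective_nat ι
  let G : ℕ → Set (Y × Y) := fun n => ⋃ i ∈ Finset.range (n + 1), E (r i)
  have hGc : ∀ n, IsClosed (G n) := fun n =>
    isClosed_biUnion_finset fun i _ => hE (r i)
  have hGs : ∀ n, G (n + 1) = E (r (n + 1)) ∪ G n := by
    intro n
    simp only [G]
    rw [Finset.range_add_one (n := n + 1), Finset.set_biUnion_insert]
  have hGi : ∀ n, interior (G n) = ∅ := by
    intro n
    induction n with
    | zero => simpa [G] using hE' (r 0)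
    | succ n ih =>
      rw [hGs, interior_union_isClosed_of_interior_empty (hE _) ih]
      exact hE' _
  have hGm : Monotone G := by
    apply monotone_nat_of_le_succ
    intro n
    rw [hGs]
    exact subset_union_right
  obtain ⟨φ, hφ⟩ := scheme hGc hGi hGm
  refine ⟨φ, fun x y hxy i => ?_⟩
  obtain ⟨n, rfl⟩ := hr i
  intro h
  refine hφ x y hxy n ?_
  simp only [G, mem_iUnion]
  exact ⟨n, by simp, h⟩

variable {X : Type*} [MetricSpace X]
variable {V : Type*} [NormedAddCommGroup V] [InnerProductSpace ℝ V]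

/-! ### flats near each other on a cone -/

/-- An isometric map of a cone into `V` which fixes the apex extends to an isometry. -/
theorem extend_cone {e : V} (he : ‖e‖ = 1) {c : ℝ} (hc0 : 0 ≤ c) (hc : c < 1) {a : V → V}
    (h0 : a 0 = 0) (ha : ∀ p ∈ Cone e c, ∀ q ∈ Cone e c, dist (a p) (a q) = dist p q) :
    ∃ b : V → V, Isometry b ∧ b 0 = 0 ∧ ∀ p ∈ Cone e c, b p = a p := by
  have hn : ∀ p ∈ Cone e c, ‖a p‖ = ‖p‖ := by
    intro p hp
    have := ha p hp 0 (Cone.zero e c)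
    rwa [h0, dist_zero_right, dist_zero_right] at this
  have hin : ∀ p ∈ Cone e c, ∀ q ∈ Cone e c, inner ℝ (a p) (a q) = inner ℝ p q := by
    intro p hp q hq
    have h1 := ha p hp q hq
    rw [dist_eq_norm, dist_eq_norm] at h1
    have h2 := norm_sub_sq_real (a p) (a q)
    have h3 := norm_sub_sq_real p q
    rw [h1, hn p hp, hn q hq] at h2
    linarith
  set M : ℝ := 2 / (1 - c) with hM
  have h1c : 0 < 1 - c := by linarith
  have hM0 : 0 ≤ M := by positivity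
  have hte : ∀ t : ℝ, 0 ≤ t → t • e ∈ Cone e c := by
    intro t ht
    have := Cone.near (w := 0) he hc0 (t := t) (by rw [norm_zero]; nlinarith) ht
    simpa using this
  have htv : ∀ v : V, (M * ‖v‖) • e + v ∈ Cone e c := by
    intro v
    apply Cone.near he hc0 _ (by positivity)
    have : (1 - c) * (M * ‖v‖) = 2 * ‖v‖ := by rw [hM]; field_simp
    rw [this]
    have := norm_nonneg v
    nlinarith
  have key : ∀ p₁ ∈ Cone e c, ∀ p₂ ∈ Cone e c, ∀ p₃ ∈ Cone e c, ∀ p₄ ∈ Cone e c,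
      ‖a p₁ - a p₂ - (a p₃ - a p₄)‖ ^ 2 = ‖p₁ - p₂ - (p₃ - p₄)‖ ^ 2 := by
    intro p₁ h₁ p₂ h₂ p₃ h₃ p₄ h₄
    rw [← real_inner_self_eq_norm_sq, ← real_inner_self_eq_norm_sq]
    simp only [inner_sub_left, inner_sub_right]
    rw [hin _ h₁ _ h₁, hin _ h₁ _ h₂, hin _ h₁ _ h₃, hin _ h₁ _ h₄, hin _ h₂ _ h₁, hin _ h₂ _ h₂,
      hin _ h₂ _ h₃, hin _ h₂ _ h₄, hin _ h₃ _ h₁, hin _ h₃ _ h₂, hin _ h₃ _ h₃, hin _ h₃ _ h₄,
      hin _ h₄ _ h₁, hin _ h₄ _ h₂, hin _ h₄ _ h₃, hin _ h₄ _ h₄]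
  have key' : ∀ p₁ ∈ Cone e c, ∀ p₂ ∈ Cone e c, ∀ p₃ ∈ Cone e c, ∀ p₄ ∈ Cone e c,
      ‖a p₁ - a p₂ - (a p₃ - a p₄)‖ = ‖p₁ - p₂ - (p₃ - p₄)‖ := by
    intro p₁ h₁ p₂ h₂ p₃ h₃ p₄ h₄
    exact (pow_left_inj₀ (norm_nonneg _) (norm_nonneg _) two_ne_zero).1
      (key p₁ h₁ p₂ h₂ p₃ h₃ p₄ h₄)
  refine ⟨fun v => a ((M * ‖v‖) • e + v) - a ((M * ‖v‖) • e), ?_, ?_, ?_⟩
  · apply Isometry.of_dist_eq
    intro v w
    rw [dist_eq_norm, dist_eq_norm, key' _ (htv v) _ (hte _ (by positivity)) _ (htv w) _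
      (hte _ (by positivity))]
    congr 1
    abel
  · simp [h0]
  · intro p hp
    have h1 := key' _ (htv p) _ (hte (M * ‖p‖) (by positivity)) _ hp _ (Cone.zero e c)
    have h2 : (M * ‖p‖) • e + p - (M * ‖p‖) • e - (p - 0) = 0 := by
      rw [sub_zero]; abel
    rw [h2, norm_zero, norm_eq_zero, h0, sub_zero] at h1
    exact sub_eq_zero.1 h1

/-- If a cone of a flat lies in a bounded neighbourhood of another flat, there is an isometry
matching the two. -/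
theorem straighten_cone [CompleteSpace V] (hX : IsCAT0 X) {f g : V → X} (hf : Isometry f)
    (hg : Isometry g) {e : V} (he : ‖e‖ = 1) {c : ℝ} (hc0 : 0 ≤ c) (hc : c < 1) {A : V → V}
    {C : ℝ} (hA : ∀ p ∈ Cone e c, dist (f p) (g (A p)) ≤ C) :
    ∃ a : V → V, (Isometry a ∧ a 0 = 0) ∧ ∃ C', ∀ p ∈ Cone e c, dist (f p) (g (a p)) ≤ C' := by
  set u : V → ℕ → V := fun p n => ((1 : ℝ) / 2 ^ n) • (A ((2 : ℝ) ^ n • p) - A 0) with hu
  have h0m : (0 : V) ∈ Cone e c := Cone.zero e c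
  have hpm : ∀ p ∈ Cone e c, ∀ n : ℕ, (2 : ℝ) ^ n • p ∈ Cone e c := fun p hp n =>
    Cone.smul hp (by positivity)
  have hstep : ∀ p ∈ Cone e c, ∀ n, dist (u p n) (u p (n + 1)) ≤ (4 * C) / 2 / 2 ^ n := by
    intro p hp n
    have h1 := dist_mid_le' hX hf hg 0 ((2 : ℝ) ^ (n + 1) • p) (A 0) (A ((2 : ℝ) ^ (n + 1) • p))
    have e1 : (1 / 2 : ℝ) • ((0 : V) + (2 : ℝ) ^ (n + 1) • p) = (2 : ℝ) ^ n • p := by
      rw [pow_succ]; module
    rw [e1] at h1
    have h2 := hA 0 h0m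
    have h3 := hA ((2 : ℝ) ^ (n + 1) • p) (hpm p hp _)
    have h4 := hA ((2 : ℝ) ^ n • p) (hpm p hp _)
    have h5 : dist (g (A ((2 : ℝ) ^ n • p)))
        (g ((1 / 2 : ℝ) • (A 0 + A ((2 : ℝ) ^ (n + 1) • p)))) ≤ 2 * C := by
      refine (dist_triangle_left _ _ (f ((2 : ℝ) ^ n • p))).trans ?_
      linarith
    rw [hg.dist_eq, dist_eq_norm] at h5
    rw [dist_eq_norm]
    have e2 : u p n - u p (n + 1) = ((1 : ℝ) / 2 ^ n) •
        (A ((2 : ℝ) ^ n • p) - (1 / 2 : ℝ) • (A 0 + A ((2 : ℝ) ^ (n + 1) • p))) := by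
      simp only [hu]
      have : (1 : ℝ) / 2 ^ (n + 1) = (1 / 2 ^ n) * (1 / 2) := by
        rw [pow_succ]; field_simp
      rw [this]
      module
    rw [e2, norm_smul, Real.norm_of_nonneg (by positivity)]
    calc (1 : ℝ) / 2 ^ n * _ ≤ 1 / 2 ^ n * (2 * C) := by gcongr
      _ = (4 * C) / 2 / 2 ^ n := by ring
  have hex : ∀ p : V, ∃ y : V, p ∈ Cone e c → Tendsto (u p) atTop (𝓝 y) := by
    intro p
    by_cases hp : p ∈ Cone e c
    · obtain ⟨y, hy⟩ := cauchySeq_tendsto_of_complete (cauchySeq_of_le_geometric_two (hstep p hp))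
      exact ⟨y, fun _ => hy⟩
    · exact ⟨0, fun h => absurd h hp⟩
  choose a ha using hex
  have ha0 : ∀ p ∈ Cone e c, dist (u p 0) (a p) ≤ 4 * C := fun p hp =>
    dist_le_of_le_geometric_two_of_tendsto₀ (hstep p hp) (ha p hp)
  have hz : a 0 = 0 := by
    refine tendsto_nhds_unique (ha 0 h0m) ?_
    have : u 0 = fun _ => 0 := by
      funext n
      simp [hu]
    rw [this]
    exact tendsto_const_nhds
  have hiso : ∀ p ∈ Cone e c, ∀ q ∈ Cone e c, dist (a p) (a q) = dist p q := by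
    intro p hp q hq
    have h1 : Tendsto (fun n => dist (u p n) (u q n)) atTop (𝓝 (dist (a p) (a q))) :=
      (ha p hp).dist (ha q hq)
    have h2 : Tendsto (fun n => dist (u p n) (u q n)) atTop (𝓝 (dist p q)) := by
      have hb : ∀ n : ℕ, |dist (u p n) (u q n) - dist p q| ≤ (2 * C) * (1 / 2) ^ n := by
        intro n
        have e1 : dist (u p n) (u q n) = (1 / 2 ^ n) *
            dist (A ((2 : ℝ) ^ n • p)) (A ((2 : ℝ) ^ n • q)) := by
          rw [dist_eq_norm, dist_eq_norm]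
          have : u p n - u q n = ((1 : ℝ) / 2 ^ n) •
              (A ((2 : ℝ) ^ n • p) - A ((2 : ℝ) ^ n • q)) := by
            simp only [hu]; module
          rw [this, norm_smul, Real.norm_of_nonneg (by positivity)]
        have e2 : dist p q = (1 / 2 ^ n) * dist ((2 : ℝ) ^ n • p) ((2 : ℝ) ^ n • q) := by
          rw [dist_smul₀, Real.norm_of_nonneg (by positivity)]
          field_simp
        have e3 : |dist (A ((2 : ℝ) ^ n • p)) (A ((2 : ℝ) ^ n • q)) -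
            dist ((2 : ℝ) ^ n • p) ((2 : ℝ) ^ n • q)| ≤ 2 * C := by
          have h3 := hA ((2 : ℝ) ^ n • p) (hpm p hp n)
          have h4 := hA ((2 : ℝ) ^ n • q) (hpm q hq n)
          have h5 := dist_triangle4_left (f ((2 : ℝ) ^ n • p)) (f ((2 : ℝ) ^ n • q))
            (g (A ((2 : ℝ) ^ n • p))) (g (A ((2 : ℝ) ^ n • q)))
          have h6 := dist_triangle4 (f ((2 : ℝ) ^ n • p)) (g (A ((2 : ℝ) ^ n • p)))
            (g (A ((2 : ℝ) ^ n • q))) (f ((2 : ℝ) ^ n • q))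
          rw [hg.dist_eq, hf.dist_eq] at h5 h6
          rw [dist_comm (g (A ((2 : ℝ) ^ n • q)))] at h6
          rw [abs_le]
          constructor <;> linarith
        rw [e1, e2, ← mul_sub, abs_mul, abs_of_pos (by positivity : (0 : ℝ) < 1 / 2 ^ n)]
        calc (1 : ℝ) / 2 ^ n * _ ≤ 1 / 2 ^ n * (2 * C) := by gcongr
          _ = (2 * C) * (1 / 2) ^ n := by rw [one_div_pow]; ring
      have h3 : Tendsto (fun n : ℕ => (2 * C) * (1 / 2 : ℝ) ^ n) atTop (𝓝 0) := by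
        have := (tendsto_pow_atTop_nhds_zero_of_lt_one (r := (1 / 2 : ℝ)) (by norm_num)
          (by norm_num)).const_mul (2 * C)
        simpa using this
      have h4 := squeeze_zero (fun n => abs_nonneg _) hb h3
      have h5 := ((tendsto_zero_iff_abs_tendsto_zero _).2 h4).add_const (dist p q)
      simpa using h5
    exact tendsto_nhds_unique h1 h2
  obtain ⟨b, hb, hb0, hba⟩ := extend_cone he hc0 hc hz hiso
  refine ⟨b, ⟨hb, hb0⟩, C + (4 * C + ‖A 0‖), fun p hp => ?_⟩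
  have h1 := hA p hp
  have h2 : dist (g (A p)) (g (b p)) ≤ 4 * C + ‖A 0‖ := by
    rw [hg.dist_eq, hba p hp]
    have h3 := ha0 p hp
    simp only [hu, pow_zero, one_smul, div_one] at h3
    have h4 := dist_triangle (A p) (A p - A 0) (a p)
    have h5 : dist (A p) (A p - A 0) = ‖A 0‖ := by rw [dist_eq_norm]; simp
    linarith
  exact (dist_triangle _ _ _).trans (add_le_add h1 h2)

/-! ### the relations -/

variable {Γ : Type*} [Group Γ] [MulAction Γ X] [IsIsometricSMul Γ X]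

/-- `g` is within `n` of `γ • h` along `D`. -/
def CRel (D : Set V) (γ : Γ) (n : ℝ) : Set (Fl V X × Fl V X) :=
  {z | ∃ a : V → V, (Isometry a ∧ a 0 = 0) ∧ ∀ p ∈ D, dist (z.1.1 p) (γ • z.2.1 (a p)) ≤ n}

theorem CRel.isClosed [ProperSpace V] (D : Set V) (γ : Γ) (n : ℝ) :
    IsClosed (CRel (X := X) D γ n) := by
  let O := {a : {a : V → V // Isometry a} // a ∈ {a : {a : V → V // Isometry a} | a.1 0 ∈ ({0} : Set V)}}
  have hO : CompactSpace O := isCompact_iff_compactSpace.1 (isCompact_fl (0 : V) isCompact_singleton)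
  have h1 : IsClosed {w : (Fl V X × Fl V X) × O |
      ∀ p ∈ D, dist (w.1.1.1 p) (γ • w.1.2.1 (w.2.1.1 p)) ≤ n} := by
    have : {w : (Fl V X × Fl V X) × O |
      ∀ p ∈ D, dist (w.1.1.1 p) (γ • w.1.2.1 (w.2.1.1 p)) ≤ n} =
        ⋂ p ∈ D, {w | dist (w.1.1.1 p) (γ • w.1.2.1 (w.2.1.1 p)) ≤ n} := by
      ext w; simp
    rw [this]
    refine isClosed_iInter fun p => isClosed_iInter fun _ => ?_
    refine isClosed_le (Continuous.dist ?_ (Continuous.const_smul ?_ γ)) continuous_const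
    · exact (continuous_apply p).comp (continuous_subtype_val.comp
        (continuous_fst.comp continuous_fst))
    · have h2 : Continuous fun w : (Fl V X × Fl V X) × O => (w.1.2, w.2.1.1 p) := by
        refine (continuous_snd.comp continuous_fst).prodMk ?_
        exact (continuous_apply p).comp (continuous_subtype_val.comp
          (continuous_subtype_val.comp continuous_snd))
      exact (continuous_eval' (W := V) (X := X)).comp h2
  have h2 : CRel (X := X) D γ n = Prod.fst '' {w : (Fl V X × Fl V X) × O |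
      ∀ p ∈ D, dist (w.1.1.1 p) (γ • w.1.2.1 (w.2.1.1 p)) ≤ n} := by
    ext z
    constructor
    · rintro ⟨a, ⟨ha, ha0⟩, h⟩
      exact ⟨(z, ⟨⟨a, ha⟩, ha0⟩), h, rfl⟩
    · rintro ⟨⟨z', a⟩, h, rfl⟩
      exact ⟨a.1.1, ⟨a.1.2, a.2⟩, h⟩
  rw [h2]
  exact isClosedMap_fst_of_compactSpace _ h1

/-- The linear isometry of an isometry fixing the origin. -/
theorem exists_lin [FiniteDimensional ℝ V] {a : V → V} (ha : Isometry a) (h0 : a 0 = 0) :
    ∃ ρ : V ≃ₗᵢ[ℝ] V, ∀ x, ρ x = a x := by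
  obtain ⟨e, he⟩ := exists_equiv_of_isometry ha
  refine ⟨lin e, fun x => ?_⟩
  rw [lin_apply, he, he, h0, sub_zero]

theorem Cone.image {e : V} {c : ℝ} (ρ : V ≃ₗᵢ[ℝ] V) {w : V} (hw : w ∈ Cone (ρ e) c) :
    ρ⁻¹ w ∈ Cone e c := by
  have hw' : c * ‖w‖ ≤ inner ℝ w (ρ e) := hw
  change c * ‖ρ⁻¹ w‖ ≤ inner ℝ (ρ⁻¹ w) e
  rw [(ρ⁻¹).norm_map]
  have h1 : inner ℝ (ρ (ρ⁻¹ w)) (ρ e) = inner ℝ (ρ⁻¹ w) e := ρ.inner_map_map _ _
  have h2 : ρ (ρ⁻¹ w) = w := by simp [LinearIsometryEquiv.coe_inv]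
  rw [h2] at h1
  rw [← h1]
  exact hw'

/-- Flats close to `f` which are near `f` on a cone have almost no rotation. -/
theorem small_rot [FiniteDimensional ℝ V] (f : Fl V X) {e : V} (he : ‖e‖ = 1) {c : ℝ}
    (hc0 : 0 ≤ c) (hc : c < 1) (C : ℝ) {η : ℝ} (hη : 0 < η) :
    ∃ N : Set (Fl V X), IsOpen N ∧ f ∈ N ∧ ∀ h ∈ N, ∀ ρ : V ≃ₗᵢ[ℝ] V,
      (∀ w ∈ Cone e c, dist (h.1 (ρ w)) (f.1 w) ≤ C) → rot ρ ≤ η := by
  have : ProperSpace V := FiniteDimensional.proper_real V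
  let O := {a : {a : V → V // Isometry a} // a ∈ {a : {a : V → V // Isometry a} | a.1 0 ∈ ({0} : Set V)}}
  have hO : CompactSpace O := isCompact_iff_compactSpace.1 (isCompact_fl (0 : V) isCompact_singleton)
  have hS : CompactSpace (Metric.sphere (0 : V) 1) := isCompact_iff_compactSpace.1
    (isCompact_sphere _ _)
  set Z : Set (Fl V X × (O × Metric.sphere (0 : V) 1)) :=
    {w | (∀ p ∈ Cone e c, dist (w.1.1 (w.2.1.1.1 p)) (f.1 p) ≤ C) ∧
      η ≤ ‖w.2.1.1.1 w.2.2.1 - w.2.2.1‖} with hZ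
  have hZc : IsClosed Z := by
    have h1 : Z = (⋂ p ∈ Cone e c, {w | dist (w.1.1 (w.2.1.1.1 p)) (f.1 p) ≤ C}) ∩
        {w | η ≤ ‖w.2.1.1.1 w.2.2.1 - w.2.2.1‖} := by
      ext w; simp [hZ]
    rw [h1]
    apply IsClosed.inter
    · refine isClosed_iInter fun p => isClosed_iInter fun _ => ?_
      refine isClosed_le (Continuous.dist ?_ continuous_const) continuous_const
      have h2 : Continuous fun w : Fl V X × (O × Metric.sphere (0 : V) 1) =>
          (w.1, w.2.1.1.1 p) := by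
        refine continuous_fst.prodMk ?_
        exact (continuous_apply p).comp (continuous_subtype_val.comp
          (continuous_subtype_val.comp (continuous_fst.comp continuous_snd)))
      exact (continuous_eval' (W := V) (X := X)).comp h2
    · refine isClosed_le continuous_const (Continuous.norm (Continuous.sub ?_ ?_))
      · have h2 : Continuous fun w : Fl V X × (O × Metric.sphere (0 : V) 1) =>
            (w.2.1.1, w.2.2.1) := by
          refine Continuous.prodMk ?_ ?_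
          · exact continuous_subtype_val.comp (continuous_fst.comp continuous_snd)
          · exact continuous_subtype_val.comp (continuous_snd.comp continuous_snd)
        exact (continuous_eval' (W := V) (X := V)).comp h2
      · exact continuous_subtype_val.comp (continuous_snd.comp continuous_snd)
  have hPc : IsClosed (Prod.fst '' Z) := isClosedMap_fst_of_compactSpace _ hZc
  refine ⟨(Prod.fst '' Z)ᶜ, hPc.isOpen_compl, ?_, ?_⟩
  · rintro ⟨⟨f', a, v⟩, ⟨h1, h2⟩, h3⟩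
    simp only at h1 h2 h3
    subst h3
    have h0 : a.1.1 0 = 0 := a.2
    obtain ⟨ρ, hρ⟩ := exists_lin a.1.2 h0
    have : ρ = 1 := by
      apply Cone.ext he hc0 hc (M := C)
      intro z hz
      have h4 := h1 z hz
      rw [f'.2.dist_eq, dist_eq_norm, ← hρ] at h4
      simpa using h4
    rw [← hρ, this] at h2
    simp only [LinearIsometryEquiv.coe_one, id, sub_self, norm_zero] at h2
    linarith
  · intro h hh ρ hρ
    by_contra hcon
    push Not at hcon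
    apply hh
    -- a unit vector moved by more than η
    have h1 : ∃ v : V, ‖v‖ = 1 ∧ η ≤ ‖ρ v - v‖ := by
      by_contra hc'
      push Not at hc'
      have h2 : rot ρ ≤ η := by
        apply rot_le hη.le
        intro x
        by_cases hx : x = 0
        · rw [hx]; simp
        · have hxn : 0 < ‖x‖ := norm_pos_iff.2 hx
          have h3 := hc' (‖x‖⁻¹ • x) (by rw [norm_smul, norm_inv, norm_norm]; field_simp)
          rw [map_smul, ← smul_sub, norm_smul, norm_inv, norm_norm] at h3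
          rw [inv_mul_lt_iff₀ hxn] at h3
          linarith
      linarith
    obtain ⟨v, hv, hv2⟩ := h1
    refine ⟨(h, ⟨⟨ρ, ρ.isometry⟩, by simp⟩, ⟨v, by simp [hv]⟩), ⟨?_, ?_⟩, rfl⟩
    · intro p hp
      exact hρ p hp
    · exact hv2

/-- If one of the relations has interior then there is a closed flat. -/
theorem closed_of_interior [FiniteDimensional ℝ V] [ProperSpace X] {K₀ : Set X}
    (H : Good V X Γ K₀) {K : Set (Fl V X)} (hK : IsMin Γ K) {e : V} (he : ‖e‖ = 1) {c : ℝ}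
    (hc0 : 0 ≤ c) (hc : c < 1) {n : ℝ} {γ₀ : Γ}
    (hint : (interior ((Prod.map Subtype.val Subtype.val) ⁻¹' (CRel (X := X) (Cone e c) γ₀ n) :
      Set (K × K))).Nonempty) :
    ∃ f ∈ K, ∃ g : V → X, Isometry g ∧ (∃ C, ∀ p, dist (f.1 p) (g p) ≤ C) ∧
      Submodule.span ℝ {v : V | ∃ γ : Γ, ∀ p, γ • g p = g (p + v)} = ⊤ := by
  obtain ⟨⟨⟨g, hg⟩, h₀, hh₀⟩, hgf⟩ := hint
  obtain ⟨A, B, hA, hB, hgA, hfB, hAB⟩ := isOpen_prod_iff.1 isOpen_interior _ _ hgf
  obtain ⟨W, hW, rfl⟩ := isOpen_induced_iff.1 hB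
  -- the reference flat
  have hrel : ∀ h : Fl V X, h ∈ K → h ∈ W → ∃ a : V → V, (Isometry a ∧ a 0 = 0) ∧
      ∀ p ∈ Cone e c, dist (g.1 p) (γ₀ • h.1 (a p)) ≤ n := by
    intro h hh hhW
    have h1 : ((⟨g, hg⟩, ⟨h, hh⟩) : K × K) ∈ (Prod.map Subtype.val Subtype.val) ⁻¹'
        (CRel (X := X) (Cone e c) γ₀ n) := interior_subset (hAB ⟨hgA, hhW⟩)
    exact h1
  set f : Fl V X := act γ₀ 0 h₀ with hf
  have hfK : f ∈ K := hK.inv _ _ _ hh₀
  set W' : Set (Fl V X) := act γ₀⁻¹ 0 ⁻¹' W with hW'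
  have hW'o : IsOpen W' := hW.preimage (act_continuous _ _)
  have hfW' : f ∈ W' := by
    change act γ₀⁻¹ 0 f ∈ W
    rw [hf, act_act, inv_mul_cancel, add_zero, act_one]
    exact hfB
  have hrel' : ∀ h : Fl V X, h ∈ K → h ∈ W' → ∃ ρ : V ≃ₗᵢ[ℝ] V,
      ∀ p ∈ Cone e c, dist (g.1 p) (h.1 (ρ p)) ≤ n := by
    intro h hh hhW
    obtain ⟨a, ⟨ha, ha0⟩, h1⟩ := hrel (act γ₀⁻¹ 0 h) (hK.inv _ _ _ hh) hhW
    obtain ⟨ρ, hρ⟩ := exists_lin ha ha0
    refine ⟨ρ, fun p hp => ?_⟩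
    have h2 := h1 p hp
    simp only [act, add_zero, smul_inv_smul] at h2
    rwa [← hρ] at h2
  obtain ⟨ρf, hρf⟩ := hrel' f hfK hfW'
  set e' : V := ρf e with he'
  have he1 : ‖e'‖ = 1 := by rw [he', ρf.norm_map, he]
  have hrel'' : ∀ h : Fl V X, h ∈ K → h ∈ W' → ∃ ρ : V ≃ₗᵢ[ℝ] V,
      ∀ w ∈ Cone e' c, dist (h.1 (ρ w)) (f.1 w) ≤ 2 * n := by
    intro h hh hhW
    obtain ⟨ρh, hρh⟩ := hrel' h hh hhW
    refine ⟨ρh * ρf⁻¹, fun w hw => ?_⟩
    have hz := Cone.image ρf hw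
    have h1 := hρf _ hz
    have h2 := hρh _ hz
    have h3 : ρf (ρf⁻¹ w) = w := by simp [LinearIsometryEquiv.coe_inv]
    rw [h3] at h1
    rw [LinearIsometryEquiv.coe_mul, Function.comp_apply]
    refine (dist_triangle_left _ _ (g.1 (ρf⁻¹ w))).trans ?_
    linarith
  have hnet : ∀ η > 0, ∃ m, Net Γ f.1 e' c (2 * n) η m := by
    intro η hη
    obtain ⟨N, hNo, hfN, hN⟩ := small_rot f he1 hc0 hc (2 * n) hη
    obtain ⟨m, hm⟩ := recur (Γ := Γ) H.compact H.cocompact hK.closed hK.inv hK.min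
      (hNo.inter hW'o) ⟨f, ⟨hfN, hfW'⟩, hfK⟩
    refine ⟨m, fun p => ?_⟩
    obtain ⟨γ, v, hv, hU⟩ := hm (act 1 p f) (hK.inv 1 p f hfK)
    rw [act_act, mul_one] at hU
    obtain ⟨ρ, hρ⟩ := hrel'' _ (hK.inv γ (v + p) f hfK) hU.2
    refine ⟨γ, v + p, ρ, by simpa using hv, hN _ hU.1 ρ hρ, ?_⟩
    intro z hz
    have h1 := hρ z hz
    simp only [act] at h1
    rwa [add_comm (v + p)]
  have hspan := core H hK hfK he1 hc0 hc hnet
  obtain ⟨g', hg', hn', hs'⟩ := exists_closed H f.2 hspan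
  exact ⟨f, hfK, g', hg', hn', hs'⟩

/-- Cones of rational direction and aperture. -/
theorem exists_cones [FiniteDimensional ℝ V] [Nontrivial V] :
    ∃ d : ℕ → V, (∀ i, ‖d i‖ = 1) ∧ ∀ e : V, ‖e‖ = 1 → ∀ c < 1, ∃ i j : ℕ,
      Cone (d i) (1 - 1 / ((j : ℝ) + 1)) ⊆ Cone e c := by
  obtain ⟨e₀, he₀⟩ := exists_norm_eq V (zero_le_one (α := ℝ))
  have hne : Nonempty (Metric.sphere (0 : V) 1) := ⟨⟨e₀, by simpa using he₀⟩⟩
  refine ⟨fun i => (TopologicalSpace.denseSeq (Metric.sphere (0 : V) 1) i).1, fun i => ?_, ?_⟩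
  · have := (TopologicalSpace.denseSeq (Metric.sphere (0 : V) 1) i).2
    simpa using this
  · intro e he c hc
    obtain ⟨i, hi⟩ := Metric.denseRange_iff.1
      (TopologicalSpace.denseRange_denseSeq (Metric.sphere (0 : V) 1)) ⟨e, by simpa using he⟩
      ((1 - c) / 2) (by linarith)
    obtain ⟨j, hj⟩ := exists_nat_one_div_lt (show (0 : ℝ) < (1 - c) / 2 by linarith)
    refine ⟨i, j, fun z hz => ?_⟩
    set d := (TopologicalSpace.denseSeq (Metric.sphere (0 : V) 1) i).1 with hd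
    have hz' : (1 - 1 / ((j : ℝ) + 1)) * ‖z‖ ≤ inner ℝ z d := hz
    change c * ‖z‖ ≤ inner ℝ z e
    have h1 : dist e d < (1 - c) / 2 := hi
    rw [dist_eq_norm] at h1
    have h2 : inner ℝ z e = inner ℝ z d + inner ℝ z (e - d) := by
      rw [← inner_add_right]; congr 1; abel
    have h3 := abs_real_inner_le_norm z (e - d)
    rw [abs_le] at h3
    have h4 : ‖z‖ * ‖e - d‖ ≤ ‖z‖ * ((1 - c) / 2) :=
      mul_le_mul_of_nonneg_left h1.le (norm_nonneg z)
    have h5 : (1 / ((j : ℝ) + 1)) * ‖z‖ ≤ (1 - c) / 2 * ‖z‖ :=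
      mul_le_mul_of_nonneg_right hj.le (norm_nonneg z)
    rw [h2]
    nlinarith [h3.1]

/-- Dichotomy, cone version, for a Euclidean space `V` such that `V × ℝ` does not embed. -/
theorem cone_dichotomy' [FiniteDimensional ℝ V] [Nontrivial V] [ProperSpace X] {K₀ : Set X}
    (hGood : Good V X Γ K₀) {f₀ : V → X} (hf₀ : Isometry f₀) :
    (∃ f ∈ Hull Γ f₀, ∃ g : V → X, Isometry g ∧
      (∃ C, ∀ p, dist (f p) (g p) ≤ C) ∧
      Submodule.span ℝ {v | ∃ γ : Γ, ∀ p, γ • g p = g (p + v)} = ⊤) ∨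
    ∃ F : ℝ → V → X, (∀ s, Isometry (F s) ∧ F s ∈ Hull Γ f₀) ∧
      ∀ s t, s ≠ t → ∀ (γ : Γ) (x e : V) (c C : ℝ), e ≠ 0 → c < 1 →
        ∃ z, c * (‖z‖ * ‖e‖) ≤ inner ℝ z e ∧ ∀ q, C < dist (F s (x + z)) (γ • F t q) := by
  have hX := hGood.cat0
  have hK₀ := hGood.compact
  have hco := hGood.cocompact
  have hcs : CompleteSpace V := FiniteDimensional.complete ℝ V
  have : ProperSpace V := FiniteDimensional.proper_real V
  have hne : Nonempty X := ⟨f₀ 0⟩
  have hcount : Countable Γ := countable_of_proper hGood.proper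
  obtain ⟨K, hKS, hKc, hKn, hinv, hmin⟩ := exists_minimal_in (Γ := Γ) (V := V) hK₀ hco
    (closure (orb Γ ⟨f₀, hf₀⟩)) isClosed_closure
    ⟨⟨f₀, hf₀⟩, subset_closure ⟨1, 0, (act_one _).symm⟩⟩ (inv_closure_orb _)
  have hhull : ∀ g ∈ K, g.1 ∈ Hull Γ f₀ := fun g hg => mem_hull_of_mem_closure (hKS hg)
  have hK : IsMin Γ K := ⟨hKc, hinv, hmin⟩
  have hemb : IsClosedEmbedding (Subtype.val : K → Fl V X) := hKc.isClosedEmbedding_subtypeVal
  have : LocallyCompactSpace K := hemb.locallyCompactSpace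
  have : Nonempty K := hKn.to_subtype
  obtain ⟨d, hd, hdc⟩ := exists_cones (V := V)
  let ap : ℕ → ℝ := fun j => 1 - 1 / ((j : ℝ) + 1)
  have hap : ∀ j, 0 ≤ ap j ∧ ap j < 1 := by
    intro j
    have h1 : (0 : ℝ) < 1 / ((j : ℝ) + 1) := by positivity
    have h2 : 1 / ((j : ℝ) + 1) ≤ 1 := by
      rw [div_le_one (by positivity)]
      have : (0 : ℝ) ≤ j := by positivity
      linarith
    exact ⟨by simp only [ap]; linarith, by simp only [ap]; linarith⟩
  let E : ℕ × ℕ × ℕ × Γ → Set (K × K) := fun i =>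
    (Prod.map Subtype.val Subtype.val) ⁻¹' (CRel (X := X) (Cone (d i.1) (ap i.2.1)) i.2.2.2 i.2.2.1)
  have hEc : ∀ i, IsClosed (E i) := fun i =>
    (CRel.isClosed _ _ _).preimage (continuous_subtype_val.prodMap continuous_subtype_val)
  by_cases hint : ∀ i, interior (E i) = ∅
  · right
    obtain ⟨φ, hφ⟩ := scheme_countable hEc hint
    have hcard : Nonempty (ℝ ≃ (ℕ → Bool)) := by
      apply Cardinal.eq.1
      rw [Cardinal.mk_real]
      simp
    obtain ⟨ee⟩ := hcard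
    refine ⟨fun s => (φ (ee s)).1.1, fun s => ⟨(φ (ee s)).1.2, hhull _ (φ (ee s)).2⟩, ?_⟩
    intro s t hst γ x e c C he hc
    by_contra hcon
    push Not at hcon
    have hen : 0 < ‖e‖ := norm_pos_iff.2 he
    set e₁ : V := ‖e‖⁻¹ • e with he₁
    have he₁n : ‖e₁‖ = 1 := by
      rw [he₁, norm_smul, norm_inv, norm_norm]; field_simp
    obtain ⟨i, j, hij⟩ := hdc e₁ he₁n c hc
    have hex : ∀ z ∈ Cone (d i) (ap j), ∃ q, dist ((φ (ee s)).1.1 (x + z))
        (γ • (φ (ee t)).1.1 q) ≤ C := by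
      intro z hz
      refine hcon z ?_
      have h1 : c * ‖z‖ ≤ inner ℝ z e₁ := hij hz
      rw [he₁, inner_smul_right, ← div_eq_inv_mul, le_div_iff₀ hen] at h1
      linarith
    choose! A hA using hex
    have hγ : Isometry (fun q => γ • (φ (ee t)).1.1 q) :=
      (isometry_smul X γ).comp (φ (ee t)).1.2
    have hA' : ∀ z ∈ Cone (d i) (ap j), dist ((φ (ee s)).1.1 z)
        (γ • (φ (ee t)).1.1 (A z)) ≤ ‖x‖ + C := by
      intro z hz
      have h1 := hA z hz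
      have h2 := dist_triangle ((φ (ee s)).1.1 z) ((φ (ee s)).1.1 (x + z))
        (γ • (φ (ee t)).1.1 (A z))
      have h3 : dist ((φ (ee s)).1.1 z) ((φ (ee s)).1.1 (x + z)) = ‖x‖ := by
        rw [(φ (ee s)).1.2.dist_eq, dist_eq_norm]; simp
      linarith
    obtain ⟨a, ha, C', hC'⟩ := straighten_cone hX (φ (ee s)).1.2 hγ (hd i) (hap j).1 (hap j).2 hA'
    obtain ⟨n, hn⟩ := exists_nat_ge C'
    refine hφ (ee s) (ee t) (fun h => hst (ee.injective h)) (i, j, n, γ) ?_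
    exact ⟨a, ha, fun p hp => (hC' p hp).trans hn⟩
  · left
    push Not at hint
    obtain ⟨⟨i, j, n, γ⟩, hi⟩ := hint
    obtain ⟨f, hf, g, hg⟩ := closed_of_interior hGood hK (hd i) (hap j).1 (hap j).2 hi
    exact ⟨f.1, hhull f hf, g, hg⟩

/-- Dichotomy for flats of maximal dimension, cone version. -/
theorem cone_dichotomy [ProperSpace X] (hX : IsCAT0 X)
    (hproper : ∀ (x : X) (R : ℝ), {γ : Γ | dist (γ • x) x ≤ R}.Finite)
    (hco : ∃ K : Set X, IsCompact K ∧ ∀ x : X, ∃ γ : Γ, γ • x ∈ K) {k : ℕ} (hk1 : 1 ≤ k)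
    (hk : ∀ f : EuclideanSpace ℝ (Fin (k + 1)) → X, ¬ Isometry f)
    {f₀ : EuclideanSpace ℝ (Fin k) → X} (hf₀ : Isometry f₀) :
    (∃ f ∈ Hull Γ f₀, ∃ g : EuclideanSpace ℝ (Fin k) → X, Isometry g ∧
      (∃ C, ∀ p, dist (f p) (g p) ≤ C) ∧
      Submodule.span ℝ {v | ∃ γ : Γ, ∀ p, γ • g p = g (p + v)} = ⊤) ∨
    ∃ F : ℝ → EuclideanSpace ℝ (Fin k) → X, (∀ s, Isometry (F s) ∧ F s ∈ Hull Γ f₀) ∧
      ∀ s t, s ≠ t → ∀ (γ : Γ) (x e : EuclideanSpace ℝ (Fin k)) (c C : ℝ), e ≠ 0 → c < 1 →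
        ∃ z, c * (‖z‖ * ‖e‖) ≤ inner ℝ z e ∧ ∀ q, C < dist (F s (x + z)) (γ • F t q) := by
  obtain ⟨K₀, hK₀, hco⟩ := hco
  have : Nontrivial (EuclideanSpace ℝ (Fin k)) := by
    have : Nonempty (Fin k) := ⟨⟨0, hk1⟩⟩
    infer_instance
  refine cone_dichotomy' ⟨hX, hK₀, hco, hproper, ?_⟩ hf₀
  rintro ⟨Ψ, hΨ⟩
  obtain ⟨f, hf⟩ := exists_succ hΨ
  exact hk f hf

end Pool.Agent.Helper39.Flats
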