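import Pool.Agent.Helper39.Flats.Per

set_option linter.unusedSectionVars false

namespace Pool.Agent.Helper39.Flats

open Set Filter Topology

variable {X : Type*} [MetricSpace X]
variable {V : Type*} [NormedAddCommGroup V] [InnerProductSpace ℝ V]
variable {Γ : Type*} [Group Γ] [MulAction Γ X] [IsIsometricSMul Γ X]

theorem pers_finite [FiniteDimensional ℝ V] [ProperSpace X] {K₀ : Set X}
    (H : Good V X Γ K₀) {f : V → X} (hf : Isometry f) (r : ℝ) :
    {b | b ∈ Pers Γ f ∧ ‖b‖ ≤ r}.Finite := by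
  have hcs : CompleteSpace V := FiniteDimensional.complete ℝ V
  obtain ⟨R, hR0, hR⟩ := exists_width H.compact H.cocompact H.cat0 H.nothick
  have hiso : ∀ (τ : Γ) (b : V), Isometry (fun p => τ • f (p - b)) := by
    intro τ b
    have := (isometry_smul X τ).comp (isometry_translate hf (-b))
    simpa [Function.comp_def, sub_eq_add_neg] using this
  choose! T hT using fun (b : V) (hb : b ∈ Pers Γ f) => hb
  refine Set.Finite.of_finite_image (f := T) ((H.proper (f 0) (R + r)).subset ?_) ?_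
  · rintro _ ⟨b, ⟨hb, hbr⟩, rfl⟩
    obtain ⟨δ, hδ⟩ := hT b hb
    have h1 := hδ.dist_self 0
    have h2 := hR _ _ hf (hiso _ _) _ hδ
    have h3 : dist (T b • f 0) (T b • f (0 - b)) = ‖b‖ := by
      rw [dist_smul, hf.dist_eq, dist_eq_norm]; simp
    change dist (T b • f 0) (f 0) ≤ R + r
    have t1 := dist_triangle (T b • f 0) (T b • f (0 - b)) (f 0)
    rw [dist_comm (T b • f (0 - b)) (f 0)] at t1
    linarith
  · rintro b ⟨hb, -⟩ b' ⟨hb', -⟩ h
    obtain ⟨δ, hδ⟩ := hT b hb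
    obtain ⟨δ', hδ'⟩ := hT b' hb'
    rw [← h] at hδ'
    have h1 : (fun p => T b • f (p - b')) = fun p => (fun p => T b • f (p - b)) (p + (b - b')) := by
      funext p
      have : p - b' = p + (b - b') - b := by abel
      simp only
      rw [this]
    rw [h1] at hδ'
    have := hδ.translate_eq_zero hδ'
    exact sub_eq_zero.1 this

/-- Small rotations preserving the aligned periods fix them. -/
theorem exists_fix [FiniteDimensional ℝ V] [ProperSpace X] {K₀ : Set X}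
    (H : Good V X Γ K₀) {f : V → X} (hf : Isometry f) :
    ∃ η > 0, ∀ ρ : V ≃ₗᵢ[ℝ] V, rot ρ ≤ η → (∀ b ∈ Pers Γ f, ρ⁻¹ b ∈ Pers Γ f) →
      ∀ b ∈ Pers Γ f, ρ b = b := by
  obtain ⟨B, hBP, hBs, hBi⟩ := exists_linearIndependent ℝ (Pers Γ f)
  have hBf : B.Finite := hBi.setFinite
  -- for each b a gap
  have hgap : ∀ b : V, ∃ η > 0, ∀ b' ∈ Pers Γ f, ‖b'‖ = ‖b‖ → ‖b' - b‖ ≤ η → b' = b := by
    intro b
    have hfin : {x : ℝ | 0 < x ∧ ∃ b' ∈ {b' | b' ∈ Pers Γ f ∧ ‖b'‖ ≤ ‖b‖}, x = ‖b' - b‖}.Finite := by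
      refine ((pers_finite H hf ‖b‖).image fun b' => ‖b' - b‖).subset ?_
      rintro x ⟨-, b', hb', rfl⟩
      exact ⟨b', hb', rfl⟩
    obtain ⟨δ, hδ, hδ'⟩ := exists_pos_lower hfin (fun x hx => hx.1)
    refine ⟨δ / 2, by positivity, fun b' hb' hn hle => ?_⟩
    by_contra hne
    have hpos : 0 < ‖b' - b‖ := norm_pos_iff.2 (sub_ne_zero.2 hne)
    have := hδ' _ ⟨hpos, b', ⟨hb', hn.le⟩, rfl⟩
    linarith
  choose g hg hg' using hgap
  have hfin : ((fun b => g b / (‖b‖ + 1)) '' B).Finite := hBf.image _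
  obtain ⟨η, hη, hη'⟩ := exists_pos_lower hfin (by
    rintro _ ⟨b, -, rfl⟩
    have := hg b
    positivity)
  refine ⟨η, hη, fun ρ hρ hpres b hb => ?_⟩
  have hfix : ∀ b ∈ B, ρ b = b := by
    intro b hb
    have h1 := hpres b (hBP hb)
    have h2 : ‖ρ⁻¹ b - b‖ ≤ g b := by
      have h3 := rot_apply_le ρ⁻¹ b
      rw [rot_inv] at h3
      have h4 := hη' _ ⟨b, hb, rfl⟩
      have h5 : rot ρ * ‖b‖ ≤ η * (‖b‖ + 1) := by
        have := norm_nonneg b
        have := rot_nonneg ρ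
        nlinarith
      simp only at h4
      rw [le_div_iff₀ (by positivity)] at h4
      linarith
    have h6 : ρ⁻¹ b = b := hg' b _ h1 (by simp) h2
    have h7 := congrArg ρ h6
    have h8 : ρ (ρ⁻¹ b) = b := by simp [LinearIsometryEquiv.coe_inv]
    rw [h8] at h7
    exact h7.symm
  have hb' : b ∈ Submodule.span ℝ B := by
    rw [hBs]; exact Submodule.subset_span hb
  have heq := LinearMap.eqOn_span (R := ℝ) (s := B) (f := ρ.toLinearEquiv.toLinearMap)
    (g := LinearMap.id) (fun x hx => hfix x hx)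
  exact heq hb'

/-- A coarsely dense subset spans. -/
theorem span_of_dense [FiniteDimensional ℝ V] {L : Set V} {M : ℝ}
    (h : ∀ p : V, ∃ b ∈ L, ‖b - p‖ ≤ M) : Submodule.span ℝ L = ⊤ := by
  rw [← Submodule.orthogonal_eq_bot_iff, Submodule.eq_bot_iff]
  intro u hu
  by_contra hu0
  have hun : 0 < ‖u‖ := norm_pos_iff.2 hu0
  have hM : 0 ≤ M := by
    obtain ⟨b, -, hb⟩ := h 0
    exact (norm_nonneg _).trans hb
  set t := (M + 1) / ‖u‖ with ht
  obtain ⟨b, hb, hbt⟩ := h (t • u)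
  have h3 : inner ℝ b u = (0 : ℝ) := hu _ (Submodule.subset_span hb)
  have h4 : ‖b - t • u‖ ^ 2 = ‖b‖ ^ 2 + ‖t • u‖ ^ 2 := by
    rw [@norm_sub_sq_real, inner_smul_right, h3]; ring
  have h5 : ‖t • u‖ = M + 1 := by
    rw [norm_smul, Real.norm_of_nonneg (by positivity), ht]; field_simp
  have h6 := pow_le_pow_left₀ (norm_nonneg _) hbt 2
  rw [h4, h5] at h6
  nlinarith [sq_nonneg ‖b‖]

/-- The core theorem: if `f` shares a cone with its translates, its aligned periods span. -/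
theorem core [FiniteDimensional ℝ V] [ProperSpace X] {K₀ : Set X}
    (H : Good V X Γ K₀) {K : Set (Fl V X)} (hK : IsMin Γ K) {f : Fl V X} (hf : f ∈ K) {e : V}
    (he : ‖e‖ = 1) {c C : ℝ} (hc0 : 0 ≤ c) (hc1 : c < 1)
    (hnet : ∀ η > 0, ∃ m, Net Γ f.1 e c C η m) :
    Submodule.span ℝ (Pers Γ f.1) = ⊤ := by
  have hk : 1 ≤ Module.finrank ℝ V := by
    have : Nontrivial V := ⟨e, 0, fun h => by rw [h, norm_zero] at he; exact zero_ne_one he⟩
    exact Module.finrank_pos
  set k := Module.finrank ℝ V with hkdef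
  set D := k * k with hD
  set J : ℕ := D + 2 with hJ
  set σ : ℝ := (1 - c) / 2 with hσ
  have hσ0 : 0 < σ := by rw [hσ]; linarith
  have hσ1 : σ ≤ 1 := by rw [hσ]; linarith
  have hσ2 : 1 - σ = c + σ := by rw [hσ]; ring
  have hσ3 : σ ≤ 1 / 2 := by rw [hσ]; linarith
  obtain ⟨ηL, hηL, hfix⟩ := exists_fix H f.2
  set η : ℝ := min ηL (σ / (24 + 6 * J + 5)) with hη
  have hJ0 : (0 : ℝ) ≤ J := by positivity
  have hden : (0 : ℝ) < 24 + 6 * J + 5 := by positivity
  have hη0 : 0 < η := lt_min hηL (by positivity)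
  have hη1 : η ≤ ηL := min_le_left _ _
  have hη2 : η * (24 + 6 * J + 5) ≤ σ := by
    have : η ≤ σ / (24 + 6 * J + 5) := min_le_right _ _
    rwa [le_div_iff₀ hden] at this
  have hηJ : 0 ≤ η * J := by positivity
  obtain ⟨m, hm⟩ := hnet η hη0
  have hm0 : 0 ≤ m := by
    obtain ⟨γ, x, ρ, hx, -⟩ := hm 0
    exact (norm_nonneg _).trans hx
  have hC0 : 0 ≤ C := by
    obtain ⟨γ, x, ρ, -, -, h⟩ := hm 0
    exact dist_nonneg.trans (h 0 (Cone.zero e c))
  have hcη : c + η ≤ 1 - σ := by rw [hσ2]; nlinarith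
  by_cases hall : ∀ (γ γ' : Γ) (x x' : V) (ρ ρ' : V ≃ₗᵢ[ℝ] V), rot ρ ≤ η → rot ρ' ≤ η →
      BaseRel f.1 e c C γ x ρ → BaseRel f.1 e c C γ' x' ρ' → ρ = ρ'
  · -- all rotational parts agree: the base points give periods
    apply span_of_dense (M := 2 * C + 2 * m)
    intro p
    obtain ⟨γ₀, x₀, ρ₀, hx₀, hρ₀, hrel₀⟩ := hm 0
    obtain ⟨γ, x, ρ, hx, hρ, hrel⟩ := hm p
    have heq := hall γ₀ γ x₀ x ρ₀ ρ hρ₀ hρ hrel₀ hrel
    have hsym := base_sym he hrel₀ hrel hρ₀ hc0 hσ0 hσ1 hcη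
    have hlin : lin (pairSym γ₀ γ x₀ x ρ₀ ρ).2 = 1 := by
      rw [pairSym_lin, heq, mul_inv_cancel]
    obtain ⟨b, hb, hbn⟩ := hsym.near_pers H hK hf he (by linarith) (by linarith) hlin
    refine ⟨b, hb, ?_⟩
    have h1 : (pairSym γ₀ γ x₀ x ρ₀ ρ).2 0 = x - x₀ := by
      rw [pairSym_apply, ← heq]
      have : ρ₀ (ρ₀⁻¹ (0 - x₀)) = 0 - x₀ := by simp [LinearIsometryEquiv.coe_inv]
      rw [this]; abel
    rw [h1] at hbn
    have h2 : b - p = (b - (x - x₀)) + ((x - p) - (x₀ - 0)) := by abel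
    rw [h2]
    have h3 := norm_add_le (b - (x - x₀)) ((x - p) - (x₀ - 0))
    have h4 := norm_sub_le (x - p) (x₀ - 0)
    linarith
  · exfalso
    push Not at hall
    obtain ⟨γ, γ', x, x', ρ, ρ', hρ, hρ', hrel, hrel', hne⟩ := hall
    set α := pairSym γ γ' x x' ρ ρ' with hα
    have hαsym := base_sym he hrel hrel' hρ hc0 hσ0 hσ1 hcη
    rw [← hα] at hαsym
    set A := lin α.2 with hA
    have hAeq : A = ρ' * ρ⁻¹ := by rw [hA, hα, pairSym_lin]
    have hA1 : A ≠ 1 := by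
      rw [hAeq]
      intro h
      rw [mul_inv_eq_one] at h
      exact hne h.symm
    have hrotA : rot A ≤ 2 * η := by
      rw [hAeq]
      refine (rot_mul_le _ _).trans ?_
      rw [rot_inv]; linarith
    have hrotA0 : rot A ≠ 0 := fun h => hA1 (rot_eq_zero h)
    have hrotpos : 0 < rot A := lt_of_le_of_ne (rot_nonneg A) (Ne.symm hrotA0)
    -- A fixes the aligned periods
    have hAfix : ∀ b ∈ Pers Γ f.1, A b = b := by
      intro b hb
      have e1 := hfix ρ (hρ.trans hη1) (fun b hb => pers_rot H hK hf he hc0 hc1 hrel hb) b hb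
      have e2 := hfix ρ' (hρ'.trans hη1) (fun b hb => pers_rot H hK hf he hc0 hc1 hrel' hb) b hb
      have e3 : ρ⁻¹ b = b := by
        have : ρ⁻¹ (ρ b) = b := by simp [LinearIsometryEquiv.coe_inv]
        rwa [e1] at this
      rw [hAeq, LinearIsometryEquiv.coe_mul, Function.comp_apply, e3, e2]
    -- direction of maximal displacement
    obtain ⟨E, ν, -, -, ⟨u₀, hu₀E, hu₀⟩, hE, -⟩ := exists_split hrotA0
    have hu₀n : 0 < ‖u₀‖ := norm_pos_iff.2 hu₀
    set a := α.2 0 with ha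
    set s : ℝ := (16 * C + 3 * ‖a‖ + 2 * m + 1) / rot A with hs
    have hs0 : 0 < s := by
      have := norm_nonneg a
      rw [hs]; positivity
    set u : V := (s / ‖u₀‖) • u₀ with hu
    have huE : u ∈ E := Submodule.smul_mem _ _ hu₀E
    have hun : ‖u‖ = s := by
      rw [hu, norm_smul, Real.norm_of_nonneg (by positivity)]; field_simp
    -- constants for the commutation theorem
    set Kc : ℝ := 2 / σ * (2 * m + 2 * s * (3 * (k : ℝ) ^ 2) ^ D) with hKc
    have hKc0 : 0 ≤ Kc := by positivity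
    have hr : (0 : ℝ) < 2 * η := by positivity
    obtain ⟨q₀, hq₀, hcomm⟩ := commute_of_small H.proper f.2 he hm hc0
      (c₀ := c + η) (C₀ := 2 * C) (r := 2 * η) (σ := σ) (by linarith) hη0.le hr
      (by nlinarith) (by positivity) hσ0 hσ1 (by nlinarith) D
      (by
        rw [hσ2]
        have : ((D + 2 : ℕ) : ℝ) = J := rfl
        rw [this]
        nlinarith) hKc0 hαsym hrotA
    obtain ⟨q₁, hq₁⟩ := exists_nat_ge (1 / (2 * η))
    set q := max q₀ q₁ with hq
    have hq1 : 1 ≤ q := hq₀.trans (le_max_left _ _)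
    have hq1r : (1 : ℝ) ≤ q := by exact_mod_cast hq1
    have hqη : 1 / (q : ℝ) ≤ 2 * η := by
      have h1 : (q₁ : ℝ) ≤ q := by exact_mod_cast le_max_right q₀ q₁
      have h2 := hq₁.trans h1
      rw [div_le_iff₀ hr] at h2
      rw [div_le_iff₀ (by linarith)]
      linarith
    obtain ⟨i, j, γi, γj, xi, xj, ρi, ρj, hij, hjN, hxi, hxj, hρi, hρj, hreli, hrelj, hrotij⟩ :=
      exists_pair hm hk u q hq1
    set β := pairSym γi γj xi xj ρi ρj with hβ
    have hβsym := base_sym he hreli hrelj hρi hc0 hσ0 hσ1 hcη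
    rw [← hβ] at hβsym
    have hβlin : lin β.2 = ρj * ρi⁻¹ := by rw [hβ, pairSym_lin]
    have hβrot : rot (lin β.2) ≤ 1 / q := by rw [hβlin]; exact hrotij
    have hxin : ‖xi‖ ≤ m + i * s := by
      have h1 : xi = (xi - (i : ℝ) • u) + (i : ℝ) • u := by abel
      have h2 := norm_add_le (xi - (i : ℝ) • u) ((i : ℝ) • u)
      rw [← h1, norm_smul, hun, Real.norm_of_nonneg (by positivity)] at h2
      linarith
    have hxjn : ‖xj‖ ≤ m + j * s := by
      have h1 : xj = (xj - (j : ℝ) • u) + (j : ℝ) • u := by abel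
      have h2 := norm_add_le (xj - (j : ℝ) • u) ((j : ℝ) • u)
      rw [← h1, norm_smul, hun, Real.norm_of_nonneg (by positivity)] at h2
      linarith
    have hijr : (i : ℝ) + 1 ≤ j := by exact_mod_cast hij
    have hjq : (j : ℝ) ≤ (3 * (k : ℝ) ^ 2) ^ D * (q : ℝ) ^ D := by
      have h1 : (j : ℝ) ≤ ((2 * k ^ 2 * q + 1 : ℕ) : ℝ) ^ D := by exact_mod_cast hjN
      refine h1.trans ?_
      rw [← mul_pow]
      apply pow_le_pow_left₀ (by positivity)
      push_cast
      have hk1 : (1 : ℝ) ≤ (k : ℝ) := by exact_mod_cast hk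
      have hk2 : (1 : ℝ) ≤ (k : ℝ) ^ 2 := one_le_pow₀ hk1
      nlinarith [mul_le_mul hk2 hq1r zero_le_one (by positivity)]
    have hβS : 2 / σ * (‖xi‖ + ‖xj‖) ≤ Kc * (q : ℝ) ^ D := by
      have hqD : (1 : ℝ) ≤ (q : ℝ) ^ D := one_le_pow₀ hq1r
      have h1 : ‖xi‖ + ‖xj‖ ≤ 2 * m + 2 * (j * s) := by nlinarith
      have h2 : (j : ℝ) * s ≤ (3 * (k : ℝ) ^ 2) ^ D * (q : ℝ) ^ D * s :=
        mul_le_mul_of_nonneg_right hjq hs0.le
      have h3 : 2 * m ≤ 2 * m * (q : ℝ) ^ D := by nlinarith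
      have h4 : ‖xi‖ + ‖xj‖ ≤ 2 * m * (q : ℝ) ^ D +
            2 * ((3 * (k : ℝ) ^ 2) ^ D * (q : ℝ) ^ D * s) := by linarith
      calc 2 / σ * (‖xi‖ + ‖xj‖) ≤ 2 / σ * (2 * m * (q : ℝ) ^ D +
            2 * ((3 * (k : ℝ) ^ 2) ^ D * (q : ℝ) ^ D * s)) :=
            mul_le_mul_of_nonneg_left h4 (by positivity)
        _ = Kc * (q : ℝ) ^ D := by rw [hKc]; ring
    have hAB := hcomm q (le_max_left _ _) β _ hβsym hβS hβrot
    set B := lin β.2 with hB
    set b := β.2 0 with hb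
    set κ := α * β * α⁻¹ * β⁻¹ with hκ
    have hκsym := hαsym.commutator he hβsym hσ0 hσ1 hrotA (hβrot.trans hqη) (by nlinarith)
      (by linarith) (by rw [hσ2]; nlinarith)
    rw [← hκ] at hκsym
    have hκlin : lin κ.2 = 1 := by
      rw [hκ, Prod.snd_mul, Prod.snd_mul, Prod.snd_mul, Prod.snd_inv, Prod.snd_inv, lin_mul,
        lin_mul, lin_mul, lin_inv, lin_inv, ← hA, ← hB]
      have hAB' : A * B = B * A := hAB.symm
      rw [hAB']
      group
    obtain ⟨w, hw, hwn⟩ := hκsym.near_pers H hK hf he (by linarith)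
      (by have : c + η + 3 * (2 * η) < 1 := by
            have : c + η + 3 * (2 * η) ≤ 1 - σ := by rw [hσ2]; nlinarith
            linarith
          exact this) hκlin
    set t := κ.2 0 with ht
    have hteq : t = (A b - b) - (B a - a) := by
      rw [ht, hκ, Prod.snd_mul, Prod.snd_mul, Prod.snd_mul, Prod.snd_inv, Prod.snd_inv, comm_zero,
        ← hA, ← hB, ← hb, ← ha]
      have : A (B (α.2⁻¹ (β.2⁻¹ 0))) = B (A (α.2⁻¹ (β.2⁻¹ 0))) := by
        have := congrArg (fun T : V ≃ₗᵢ[ℝ] V => T (α.2⁻¹ (β.2⁻¹ 0))) hAB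
        simp only [LinearIsometryEquiv.coe_mul, Function.comp_apply] at this
        exact this.symm
      rw [this, sub_self, zero_add]
    have hAw : A w = w := hAfix w hw
    have hinner : inner ℝ t w = -(inner ℝ (B a - a) w) := by
      rw [hteq, inner_sub_left]
      have h1 : inner ℝ (A b - b) w = (0 : ℝ) := by
        rw [inner_sub_left]
        have := A.inner_map_map b w
        rw [hAw] at this
        rw [this, sub_self]
      rw [h1]; ring
    have hBa : ‖B a - a‖ ≤ ‖a‖ := by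
      refine (rot_apply_le _ _).trans ?_
      have h1 : rot B ≤ 1 := hβrot.trans (by rw [div_le_one (by linarith)]; exact hq1r)
      have := norm_nonneg a
      nlinarith
    have hwbound : ‖w‖ ≤ 8 * C + ‖a‖ := by
      by_cases hw0 : w = 0
      · rw [hw0, norm_zero]; positivity
      · have hwpos : 0 < ‖w‖ := norm_pos_iff.2 hw0
        have h1 : ‖w‖ ^ 2 = inner ℝ (w - t) w + inner ℝ t w := by
          rw [← inner_add_left, sub_add_cancel, real_inner_self_eq_norm_sq]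
        have h2 : inner ℝ (w - t) w ≤ ‖w - t‖ * ‖w‖ := real_inner_le_norm _ _
        have h3 : inner ℝ t w ≤ ‖B a - a‖ * ‖w‖ := by
          rw [hinner, ← inner_neg_left]
          refine (real_inner_le_norm _ _).trans ?_
          rw [norm_neg]
        have h4 : ‖w‖ ^ 2 ≤ (8 * C + ‖a‖) * ‖w‖ := by
          have h5 : ‖w - t‖ * ‖w‖ ≤ (8 * C) * ‖w‖ := by
            apply mul_le_mul_of_nonneg_right _ hwpos.le
            have : 2 * (2 * C) + 2 * (2 * C) = 8 * C := by ring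
            rw [← this]; exact hwn
          have h6 : ‖B a - a‖ * ‖w‖ ≤ ‖a‖ * ‖w‖ := mul_le_mul_of_nonneg_right hBa hwpos.le
          nlinarith
        nlinarith
    have htbound : ‖t‖ ≤ 16 * C + ‖a‖ := by
      have h1 : t = w - (w - t) := by abel
      have h2 := norm_sub_le w (w - t)
      rw [← h1] at h2
      have h3 : ‖w - t‖ ≤ 8 * C := by
        have : 2 * (2 * C) + 2 * (2 * C) = 8 * C := by ring
        rw [← this]; exact hwn
      linarith
    -- the displacement comparison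
    have hβx : β.2 xi = xj := pairSym_base _ _ _ _ _ _
    have hκeq : α.2 xj = β.2 (α.2 xi) + t := by
      have h1 : α.2 (β.2 xi) = κ.2 (β.2 (α.2 xi)) := by
        rw [hκ]
        simp only [Prod.snd_mul, Prod.snd_inv]
        rw [← IsometryEquiv.mul_apply, ← IsometryEquiv.mul_apply, ← IsometryEquiv.mul_apply]
        congr 1
        group
      rw [hβx] at h1
      rw [h1, apply_eq κ.2, hκlin]
      simp [ht]
    have hcmp : ‖α.2 xj - xj‖ ≤ ‖t‖ + ‖α.2 xi - xi‖ := by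
      have h1 : α.2 xj - xj = t + (β.2 (α.2 xi) - β.2 xi) := by
        rw [hκeq, hβx]; abel
      rw [h1]
      refine (norm_add_le _ _).trans (add_le_add le_rfl ?_)
      rw [← dist_eq_norm, β.2.isometry.dist_eq, dist_eq_norm]
    have hlow : rot A * (j * s) - rot A * m - ‖a‖ ≤ ‖α.2 xj - xj‖ := by
      have h1 : A ((j : ℝ) • u) - (j : ℝ) • u =
          (α.2 xj - xj) - (A (xj - (j : ℝ) • u) - (xj - (j : ℝ) • u)) - a := by
        rw [apply_eq α.2 xj, ← hA, ← ha, map_sub]; abel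
      have h2 : ‖A ((j : ℝ) • u) - (j : ℝ) • u‖ = rot A * (j * s) := by
        rw [(hE _ (Submodule.smul_mem _ _ huE)).2, norm_smul, hun,
          Real.norm_of_nonneg (by positivity)]
      rw [h1] at h2
      have h3 := norm_sub_le ((α.2 xj - xj) - (A (xj - (j : ℝ) • u) - (xj - (j : ℝ) • u))) a
      have h4 := norm_sub_le (α.2 xj - xj) (A (xj - (j : ℝ) • u) - (xj - (j : ℝ) • u))
      have h5 := rot_apply_le A (xj - (j : ℝ) • u)
      have h6 : rot A * ‖xj - (j : ℝ) • u‖ ≤ rot A * m := by gcongr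
      linarith
    have hup : ‖α.2 xi - xi‖ ≤ rot A * (i * s) + rot A * m + ‖a‖ := by
      have h1 : α.2 xi - xi = (A ((i : ℝ) • u) - (i : ℝ) • u) +
          (A (xi - (i : ℝ) • u) - (xi - (i : ℝ) • u)) + a := by
        rw [apply_eq α.2 xi, ← hA, ← ha, map_sub]; abel
      have h2 : ‖A ((i : ℝ) • u) - (i : ℝ) • u‖ = rot A * (i * s) := by
        rw [(hE _ (Submodule.smul_mem _ _ huE)).2, norm_smul, hun,
          Real.norm_of_nonneg (by positivity)]
      rw [h1]
      have h3 := norm_add_le ((A ((i : ℝ) • u) - (i : ℝ) • u) +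
          (A (xi - (i : ℝ) • u) - (xi - (i : ℝ) • u))) a
      have h4 := norm_add_le (A ((i : ℝ) • u) - (i : ℝ) • u)
        (A (xi - (i : ℝ) • u) - (xi - (i : ℝ) • u))
      have h5 := rot_apply_le A (xi - (i : ℝ) • u)
      have h6 : rot A * ‖xi - (i : ℝ) • u‖ ≤ rot A * m := by gcongr
      linarith
    have hrs : rot A * s = 16 * C + 3 * ‖a‖ + 2 * m + 1 := by rw [hs]; field_simp
    have hrot1 : rot A ≤ 1 := by nlinarith
    have h1 : rot A * ((j : ℝ) * s) - rot A * ((i : ℝ) * s) ≥ rot A * s := by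
      have : rot A * ((j : ℝ) * s) - rot A * ((i : ℝ) * s) = ((j : ℝ) - i) * (rot A * s) := by ring
      rw [this]
      have h2 : 0 ≤ rot A * s := by positivity
      nlinarith
    have h2 : rot A * m ≤ m := by nlinarith
    linarith

/-- If the aligned periods span, there is a closed flat parallel to `f`. -/
theorem exists_closed [FiniteDimensional ℝ V] [ProperSpace X] {K₀ : Set X}
    (H : Good V X Γ K₀) {f : V → X} (hf : Isometry f)
    (hspan : Submodule.span ℝ (Pers Γ f) = ⊤) :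
    ∃ g : V → X, Isometry g ∧ (∃ C, ∀ p, dist (f p) (g p) ≤ C) ∧
      Submodule.span ℝ {v : V | ∃ γ : Γ, ∀ p, γ • g p = g (p + v)} = ⊤ := by
  have hcs : CompleteSpace V := FiniteDimensional.complete ℝ V
  obtain ⟨R, hR0, hR⟩ := exists_width H.compact H.cocompact H.cat0 H.nothick
  have hb : ∀ g ∈ Fam f, dist (f 0) (g 0) ≤ R := by
    rintro g ⟨hg, δ, hδ⟩
    rw [hδ.dist_self]
    exact hR f g hf hg δ hδ
  obtain ⟨g₀, hg₀, hinv⟩ := exists_center H.cat0 hf hb
  refine ⟨g₀, hg₀.1, ?_, ?_⟩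
  · obtain ⟨-, δ, hδ⟩ := hg₀
    exact hδ.near
  · rw [eq_top_iff, ← hspan]
    apply Submodule.span_mono
    rintro b ⟨τ, δ, hδ⟩
    refine ⟨τ, fun p => ?_⟩
    have h1 := hinv (IsometryEquiv.constSMul τ) (IsometryEquiv.addRight (-b))
      ⟨δ, by simpa [sub_eq_add_neg] using hδ⟩ (p + b)
    simpa using h1

end Pool.Agent.Helper39.Flats
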