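import Pool.Agent.Helper39.Flats.Main

/-!
# MP_3fb288_gt: a closed flat, or continuum many pairwise non-parallel flats

Let `X` be a proper CAT(0) space with a free cocompact isometric action of a countable group `Γ`
(for instance the universal cover of a compact manifold of nonpositive curvature with its deck
group).  If `X` contains a flat, then either some flat has two linearly independent periods (a
closed flat in the quotient), or there are continuum many flats, none of which lies in a bounded
neighbourhood of a `Γ`-translate of another one.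
-/

namespace Pool.Agent.Results.MP_3fb288_gt.FlatDichotomy

open Pool.Agent.Helper39.Flats

theorem result {X : Type*} [MetricSpace X] [ProperSpace X] (hX : IsCAT0 X)
    {Γ : Type*} [Group Γ] [Countable Γ] [MulAction Γ X] [IsIsometricSMul Γ X]
    (hfree : ∀ (γ : Γ) (x : X), γ • x = x → γ = 1)
    (hcocompact : ∃ K : Set X, IsCompact K ∧ ∀ x : X, ∃ γ : Γ, γ • x ∈ K)
    (hflat : ∃ f : EuclideanSpace ℝ (Fin 2) → X, Isometry f) :
    (∃ f : EuclideanSpace ℝ (Fin 2) → X, Isometry f ∧
      ∃ u v : EuclideanSpace ℝ (Fin 2), LinearIndependent ℝ ![u, v] ∧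
        ∃ γ₁ γ₂ : Γ, ∀ p, γ₁ • f p = f (p + u) ∧ γ₂ • f p = f (p + v)) ∨
    (∃ F : ℝ → EuclideanSpace ℝ (Fin 2) → X, (∀ s, Isometry (F s)) ∧
      ∀ s t, s ≠ t → ∀ (γ : Γ) (C : ℝ), ∃ p, ∀ q, C < dist (F s p) (γ • F t q)) :=
  dichotomy hX hfree hcocompact hflat

end Pool.Agent.Results.MP_3fb288_gt.FlatDichotomy
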