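import Pool.Agent.Helper39.Flats.Main
import Pool.Agent.Helper39.Flats.Bieber

set_option linter.unusedSectionVars false

namespace Pool.Agent.Helper39.Flats

open Set Filter Topology

variable {X : Type*} [MetricSpace X]
variable {V : Type*} [NormedAddCommGroup V] [InnerProductSpace ℝ V]
variable {Γ : Type*} [Group Γ] [MulAction Γ X] [IsIsometricSMul Γ X]

/-- The hull of a map `f : V → X`: the closure, for pointwise convergence, of the set of the maps
`p ↦ γ • f (p + v)`, `γ ∈ Γ`, `v ∈ V`. -/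
def Hull (Γ : Type*) [Group Γ] [MulAction Γ X] (f : V → X) : Set (V → X) :=
  closure {g | ∃ (γ : Γ) (v : V), g = fun p => γ • f (p + v)}

theorem exists_minimal_in [ProperSpace X] {K₀ : Set X} (hK₀ : IsCompact K₀)
    (hco : ∀ x : X, ∃ γ : Γ, γ • x ∈ K₀) (S₀ : Set (Fl V X)) (hS₀ : IsClosed S₀)
    (hS₀n : S₀.Nonempty) (hS₀i : Inv Γ S₀) :
    ∃ K : Set (Fl V X), K ⊆ S₀ ∧ IsClosed K ∧ K.Nonempty ∧ Inv Γ K ∧
      ∀ K' : Set (Fl V X), IsClosed K' → K'.Nonempty → Inv Γ K' → K' ⊆ K → K' = K := by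
  set A : Set (Set (Fl V X)) := {S | IsClosed S ∧ S.Nonempty ∧ Inv Γ S} with hA
  have hchain : ∀ c ⊆ A, IsChain (· ⊆ ·) c → c.Nonempty → ∃ lb ∈ A, ∀ s ∈ c, lb ⊆ s := by
    intro c hc hch hcn
    refine ⟨⋂₀ c, ⟨isClosed_sInter fun s hs => (hc hs).1, ?_, ?_⟩, fun s hs => sInter_subset_of_mem hs⟩
    · have : Nonempty c := hcn.to_subtype
      have h1 : (⋂ s : c, (s.1 ∩ {f : Fl V X | f.1 0 ∈ K₀})).Nonempty := by
        apply IsCompact.nonempty_iInter_of_directed_nonempty_isCompact_isClosed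
        · intro s t
          rcases hch.total s.2 t.2 with h | h
          · exact ⟨s, subset_rfl, inter_subset_inter_left _ h⟩
          · exact ⟨t, inter_subset_inter_left _ h, subset_rfl⟩
        · intro s
          obtain ⟨f, hf⟩ := (hc s.2).2.1
          obtain ⟨γ, hγ⟩ := hco (f.1 0)
          refine ⟨act γ 0 f, (hc s.2).2.2 γ 0 f hf, ?_⟩
          simpa [act] using hγ
        · intro s
          exact (isCompact_fl (0 : V) hK₀).inter_left (hc s.2).1
        · intro s
          exact ((isCompact_fl (0 : V) hK₀).inter_left (hc s.2).1).isClosed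
      obtain ⟨f, hf⟩ := h1
      refine ⟨f, ?_⟩
      rw [mem_sInter]
      intro s hs
      exact (mem_iInter.1 hf ⟨s, hs⟩).1
    · intro γ v f hf
      rw [mem_sInter] at hf ⊢
      intro s hs
      exact (hc hs).2.2 γ v f (hf s hs)
  obtain ⟨K, hKS, hK⟩ := zorn_superset_nonempty A hchain S₀ ⟨hS₀, hS₀n, hS₀i⟩
  refine ⟨K, hKS, hK.prop.1, hK.prop.2.1, hK.prop.2.2, ?_⟩
  intro K' h1 h2 h3 h4
  exact subset_antisymm h4 (hK.le_of_le ⟨h1, h2, h3⟩ h4)

/-- the orbit of a flat -/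
def orb (Γ : Type*) [Group Γ] [MulAction Γ X] [IsIsometricSMul Γ X] (f : Fl V X) :
    Set (Fl V X) := {g | ∃ (γ : Γ) (v : V), g = act γ v f}

theorem inv_closure_orb (f : Fl V X) : Inv Γ (closure (orb Γ f)) := by
  intro γ v g hg
  refine map_mem_closure (act_continuous γ v) hg ?_
  rintro _ ⟨γ', v', rfl⟩
  exact ⟨γ * γ', v + v', act_act _ _ _ _ _⟩

theorem mem_hull_of_mem_closure {f g : Fl V X} (hg : g ∈ closure (orb Γ f)) :
    g.1 ∈ Hull Γ f.1 := by
  refine map_mem_closure continuous_subtype_val hg ?_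
  rintro _ ⟨γ, v, rfl⟩
  exact ⟨γ, v, rfl⟩

theorem exists_recurrent_in [FiniteDimensional ℝ V] [ProperSpace X] {K₀ : Set X}
    (hK₀ : IsCompact K₀) (hco : ∀ x : X, ∃ γ : Γ, γ • x ∈ K₀) {f₀ : V → X} (hf₀ : Isometry f₀) :
    (∃ φ : (ℕ → Bool) → V → X, (∀ x, Isometry (φ x) ∧ φ x ∈ Hull Γ f₀) ∧
      ∀ x y, x ≠ y → ∀ a : V → V, Isometry a → ¬ ∃ C : ℝ, ∀ p, dist (φ x p) (φ y (a p)) ≤ C) ∨
    ∃ f : V → X, Isometry f ∧ f ∈ Hull Γ f₀ ∧ ∃ m n : ℝ, ∀ p : V, ∃ γ : Γ, ∃ B : V ≃ᵢ V,
      ‖B 0 - p‖ ≤ m ∧ ∀ q, dist (γ • f (B q)) (f q) ≤ n := by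
  have : ProperSpace V := FiniteDimensional.proper_real V
  obtain ⟨K, hKS, hKc, hKn, hinv, hmin⟩ := exists_minimal_in (Γ := Γ) (V := V) hK₀ hco
    (closure (orb Γ ⟨f₀, hf₀⟩)) isClosed_closure
    ⟨⟨f₀, hf₀⟩, subset_closure ⟨1, 0, (act_one _).symm⟩⟩ (inv_closure_orb _)
  have hhull : ∀ g ∈ K, g.1 ∈ Hull Γ f₀ := fun g hg => mem_hull_of_mem_closure (hKS hg)
  have hemb : IsClosedEmbedding (Subtype.val : K → Fl V X) := hKc.isClosedEmbedding_subtypeVal
  have : LocallyCompactSpace K := hemb.locallyCompactSpace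
  have : Nonempty K := hKn.to_subtype
  set E : ℕ → Set (K × K) := fun n => (Prod.map Subtype.val Subtype.val) ⁻¹' (Rel V X n) with hE
  have hEc : ∀ n, IsClosed (E n) := fun n =>
    (Rel.isClosed n).preimage (continuous_subtype_val.prodMap continuous_subtype_val)
  have hEm : Monotone E := fun m n hmn => preimage_mono (Rel.mono hmn)
  by_cases hint : ∀ n, interior (E n) = ∅
  · left
    obtain ⟨φ, hφ⟩ := scheme hEc hint hEm
    refine ⟨fun x => (φ x).1.1, fun x => ⟨(φ x).1.2, hhull _ (φ x).2⟩, ?_⟩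
    rintro x y hxy a ha ⟨C, hC⟩
    obtain ⟨n, hn⟩ := exists_nat_ge (C + ‖a 0‖)
    refine hφ x y hxy n ⟨fun p => a p - a 0, ⟨?_, sub_self _⟩, fun p => ?_⟩
    · intro p q
      rw [edist_sub_right, ha]
    · have h1 := dist_triangle ((φ x).1.1 p) ((φ y).1.1 (a p)) ((φ y).1.1 (a p - a 0))
      rw [(φ y).1.2.dist_eq (a p)] at h1
      have h2 : dist (a p) (a p - a 0) = ‖a 0‖ := by
        rw [dist_eq_norm]; simp
      rw [h2] at h1
      exact h1.trans ((add_le_add_left (hC p) _).trans hn)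
  · right
    push Not at hint
    obtain ⟨n, ⟨⟨g, hg⟩, f, hf⟩, hgf⟩ := hint
    obtain ⟨A, B, hA, hB, hgA, hfB, hAB⟩ := isOpen_prod_iff.1 isOpen_interior _ _ hgf
    obtain ⟨U, hU, rfl⟩ := isOpen_induced_iff.1 hA
    obtain ⟨m, hm⟩ := recur (Γ := Γ) hK₀ hco hKc hinv hmin hU ⟨g, hgA, hg⟩
    refine ⟨f.1, f.2, hhull _ hf, m, n, fun p => ?_⟩
    obtain ⟨γ, v, hv, hU'⟩ := hm (act 1 p f) (hinv 1 p f hf)
    rw [act_act, mul_one] at hU'
    have h1 : ((⟨act γ (v + p) f, hinv _ _ _ hf⟩, ⟨f, hf⟩) : K × K) ∈ E n :=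
      interior_subset (hAB ⟨hU', hfB⟩)
    obtain ⟨a, ⟨ha, ha0⟩, h2⟩ := h1
    obtain ⟨e, he⟩ := exists_equiv_of_isometry ha
    refine ⟨γ, e.symm.trans (IsometryEquiv.addRight (v + p)), ?_, fun q => ?_⟩
    · have : e.symm 0 = 0 := by
        rw [IsometryEquiv.symm_apply_eq, he, ha0]
      simp only [IsometryEquiv.trans_apply, this, IsometryEquiv.addRight_apply, zero_add,
        add_sub_cancel_right]
      exact hv
    · have h3 := h2 (e.symm q)
      rw [← he, IsometryEquiv.apply_symm_apply] at h3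
      exact h3

/-- Passing to representatives modulo a countable group. -/
theorem refine_countable' [FiniteDimensional ℝ V] [Countable Γ] (hX : IsCAT0 X) {F : ℝ → V → X}
    (hF : ∀ s, Isometry (F s))
    (hpar : ∀ s t, s ≠ t → ∀ a : V → V, Isometry a →
      ¬ ∃ C : ℝ, ∀ p, dist (F s p) (F t (a p)) ≤ C) :
    ∃ e : ℝ → ℝ, ∀ s t, s ≠ t → ∀ (γ : Γ) (C : ℝ), ∃ p, ∀ q,
      C < dist (F (e s) p) (γ • F (e t) q) := by
  have hcs : CompleteSpace V := FiniteDimensional.complete ℝ V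
  let r : ℝ → ℝ → Prop := fun s t => ∃ γ : Γ, ∃ a : V → V, Isometry a ∧
    ∃ C : ℝ, ∀ p, dist (F s p) (γ • F t (a p)) ≤ C
  have hrefl : ∀ s, r s s := fun s => ⟨1, id, isometry_id, 0, fun p => by simp⟩
  have hsymm : ∀ s t, r s t → r t s := by
    rintro s t ⟨γ, a, ha, C, hC⟩
    obtain ⟨e, he⟩ := exists_equiv_of_isometry ha
    refine ⟨γ⁻¹, e.symm, e.symm.isometry, C, fun p => ?_⟩
    have h1 := hC (e.symm p)
    rw [← he, e.apply_symm_apply] at h1
    rw [← dist_smul γ, smul_inv_smul, dist_comm]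
    exact h1
  have htrans : ∀ s t u, r s t → r t u → r s u := by
    rintro s t u ⟨γ, a, ha, C, hC⟩ ⟨γ', a', ha', C', hC'⟩
    refine ⟨γ * γ', a' ∘ a, ha'.comp ha, C + C', fun p => ?_⟩
    have h1 := hC p
    have h2 := hC' (a p)
    rw [← dist_smul γ] at h2
    have h3 := dist_triangle (F s p) (γ • F t (a p)) (γ • γ' • F u (a' (a p)))
    rw [mul_smul]
    exact h3.trans (add_le_add h1 h2)
  let S : Setoid ℝ := ⟨r, hrefl, fun h => hsymm _ _ h, fun h h' => htrans _ _ _ h h'⟩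
  have hclass : ∀ s, {t | r s t}.Countable := by
    intro s
    have h1 : {t | r s t} ⊆ ⋃ γ : Γ, {t | ∃ a : V → V, Isometry a ∧
        ∃ C : ℝ, ∀ p, dist (F s p) (γ • F t (a p)) ≤ C} := by
      rintro t ⟨γ, h⟩
      exact mem_iUnion.2 ⟨γ, h⟩
    refine Set.Countable.mono h1 (countable_iUnion fun γ => Set.Subsingleton.countable ?_)
    rintro t ⟨a, ha, C, hC⟩ t' ⟨a', ha', C', hC'⟩
    by_contra hne
    obtain ⟨e, he⟩ := exists_equiv_of_isometry ha
    refine hpar t t' hne (a' ∘ e.symm) (ha'.comp e.symm.isometry) ⟨C + C', fun p => ?_⟩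
    have h1 := hC (e.symm p)
    rw [← he, e.apply_symm_apply] at h1
    have h2 := hC' (e.symm p)
    rw [← dist_smul γ]
    exact (dist_triangle_left _ _ _).trans (add_le_add h1 h2)
  have hcard : Nonempty (ℝ ↪ Quotient S) := by
    have h1 : Cardinal.mk ℝ ≤ Cardinal.mk (Quotient S) * Cardinal.aleph0 := by
      apply Cardinal.mk_le_mk_mul_of_mk_preimage_le (Quotient.mk S)
      intro b
      induction b using Quotient.inductionOn with
      | h s =>
        have : (Quotient.mk S) ⁻¹' {Quotient.mk S s} ⊆ {t | r s t} := by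
          intro t ht
          have h2 : Quotient.mk S t = Quotient.mk S s := ht
          exact hsymm _ _ (Quotient.exact h2)
        exact Cardinal.le_aleph0_iff_set_countable.2 ((hclass s).mono this)
    rw [Cardinal.mk_real] at h1
    have h2 : Cardinal.continuum ≤ Cardinal.mk (Quotient S) := by
      by_contra hlt
      push Not at hlt
      have h3 := Cardinal.mul_lt_of_lt Cardinal.aleph0_le_continuum hlt
        Cardinal.aleph0_lt_continuum
      exact absurd h1 (not_le.2 h3)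
    rw [← Cardinal.mk_real] at h2
    exact h2
  obtain ⟨emb⟩ := hcard
  refine ⟨fun s => (emb s).out, ?_⟩
  intro s t hst γ C
  by_contra hcon
  push Not at hcon
  choose A hA using hcon
  have hγ : Isometry (fun q => γ • F (emb t).out q) :=
    (isometry_smul X γ).comp (hF _)
  obtain ⟨a, ha, C', hC'⟩ := straighten hX (hF (emb s).out) hγ hA
  have h1 : r (emb s).out (emb t).out := ⟨γ, a, ha, C', hC'⟩
  have h2 : (Quotient.mk S (emb s).out) = Quotient.mk S (emb t).out := Quotient.sound h1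
  rw [Quotient.out_eq, Quotient.out_eq] at h2
  exact hst (emb.injective h2)

/-- The periods of a central flat span. -/
theorem recurrent_case' [FiniteDimensional ℝ V] [ProperSpace X] (hX : IsCAT0 X)
    (hproper : ∀ (x : X) (R : ℝ), {γ : Γ | dist (γ • x) x ≤ R}.Finite) {K₀ : Set X}
    (hK₀ : IsCompact K₀)
    (hco : ∀ x : X, ∃ γ : Γ, γ • x ∈ K₀) {f : V → X} (hf : Isometry f) {m n : ℝ}
    (h : ∀ p : V, ∃ γ : Γ, ∃ B : V ≃ᵢ V,
      ‖B 0 - p‖ ≤ m ∧ ∀ q, dist (γ • f (B q)) (f q) ≤ n) :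
    (∃ g : V → X, Isometry g ∧ (∃ C, ∀ p, dist (f p) (g p) ≤ C) ∧
      Submodule.span ℝ {v : V | ∃ γ : Γ, ∀ p, γ • g p = g (p + v)} = ⊤) ∨
    ∃ Ψ : V → ℝ → X, ∀ p q s t, dist (Ψ p s) (Ψ q t) ^ 2 = ‖p - q‖ ^ 2 + (s - t) ^ 2 := by
  have hcs : CompleteSpace V := FiniteDimensional.complete ℝ V
  by_cases hb : ∃ R, ∀ g ∈ Fam f, dist (f 0) (g 0) ≤ R
  · left
    obtain ⟨R, hR⟩ := hb
    obtain ⟨g₀, hg₀, hinv⟩ := exists_center hX hf hR
    have hg₀i : Isometry g₀ := hg₀.1
    set S : Set ((V ≃ₗᵢ[ℝ] V) × V) := {z | ∃ γ : Γ, ∀ p, γ • g₀ (z.1 p + z.2) = g₀ p} with hS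
    have hcryst : IsCryst S := by
      constructor
      · rintro ⟨A, a⟩ ⟨γ, hγ⟩ ⟨B, b⟩ ⟨γ', hγ'⟩
        refine ⟨γ' * γ, fun p => ?_⟩
        have h1 := hγ (B p + b)
        have h2 := hγ' p
        simp only at h1 h2 ⊢
        rw [mul_smul, LinearIsometryEquiv.coe_mul, Function.comp_apply]
        rw [map_add, add_assoc] at h1
        rw [h1, h2]
      · rintro ⟨A, a⟩ ⟨γ, hγ⟩
        refine ⟨γ⁻¹, fun p => ?_⟩
        have h1 := hγ (A⁻¹ p + -(A⁻¹ a))
        simp only at h1 ⊢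
        have h2 : A (A⁻¹ p + -(A⁻¹ a)) + a = p := by
          rw [map_add, map_neg]
          simp [LinearIsometryEquiv.coe_inv]
        rw [h2] at h1
        rw [← h1, inv_smul_smul]
      · intro R'
        have hΦ := hproper (g₀ 0) R'
        choose! G hG using fun (z : (V ≃ₗᵢ[ℝ] V) × V) (hz : z ∈ S) => hz
        refine Set.Finite.of_finite_image (f := G) (hΦ.subset ?_) ?_
        · rintro _ ⟨z, ⟨hz, hzn⟩, rfl⟩
          have h1 := hG z hz 0
          rw [map_zero, zero_add] at h1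
          have h2 : dist (G z • g₀ 0) (G z • g₀ z.2) = ‖z.2‖ := by
            rw [dist_smul, hg₀i.dist_eq, dist_zero_left]
          rw [h1] at h2
          exact h2.le.trans hzn
        · rintro z ⟨hz, -⟩ w ⟨hw, -⟩ hzw
          have h1 : ∀ p, z.1 p + z.2 = w.1 p + w.2 := by
            intro p
            have e1 := hG z hz p
            have e2 := hG w hw p
            rw [hzw] at e1
            rw [← e2] at e1
            exact hg₀i.injective (smul_left_cancel _ e1)
          have h2 : z.2 = w.2 := by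
            have := h1 0
            simpa using this
          have h3 : z.1 = w.1 := by
            ext p
            have := h1 p
            rw [h2] at this
            exact add_right_cancel this
          exact Prod.ext h3 h2
      · refine ⟨m + n, fun p => ?_⟩
        obtain ⟨γ, B, hB, hγ⟩ := h p
        have hgi : Isometry (fun q => γ • f (B q)) :=
          (isometry_smul X γ).comp (hf.comp B.isometry)
        have hnear : Near f (fun q => γ • f (B q)) :=
          ⟨n, fun q => by rw [dist_comm]; exact hγ q⟩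
        obtain ⟨v, δ, hδ, hal⟩ := exists_align hX hf hgi hnear
        have hv : ‖v‖ ≤ n := by
          have h1 := hal 0 (-v)
          simp only [neg_add_cancel, zero_sub, neg_neg] at h1
          have h2 := hγ 0
          rw [dist_comm] at h2
          have h3 := pow_le_pow_left₀ dist_nonneg h2 2
          rw [h1] at h3
          have h4 : ‖v‖ ^ 2 ≤ n ^ 2 := by nlinarith [sq_nonneg δ]
          exact (abs_le_of_sq_le_sq' h4 (dist_nonneg.trans h2)).2
        set B' : V ≃ᵢ V := (IsometryEquiv.addRight v).trans B with hB'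
        refine ⟨(B'.toRealLinearIsometryEquiv, B' 0), ⟨γ, ?_⟩, ?_⟩
        · intro q
          have h1 := hinv (IsometryEquiv.constSMul γ) B' ⟨δ, hal⟩ q
          simpa using h1
        · simp only [hB', IsometryEquiv.trans_apply, IsometryEquiv.addRight_apply]
          have h1 : dist (B (0 + v)) (B 0) = ‖v‖ := by
            rw [B.isometry.dist_eq, dist_eq_norm]; simp
          rw [dist_eq_norm] at h1
          have h2 : B (0 + v) - p = (B (0 + v) - B 0) + (B 0 - p) := by abel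
          rw [h2]
          refine (norm_add_le _ _).trans ?_
          linarith
    refine ⟨g₀, hg₀i, ?_, ?_⟩
    · obtain ⟨-, δ, hδ⟩ := hg₀
      exact hδ.near
    · have h1 := hcryst.span_eq_top
      rw [eq_top_iff, ← h1]
      apply Submodule.span_le.2
      rintro v ⟨γ, hγ⟩
      apply Submodule.subset_span
      refine ⟨γ⁻¹, fun p => ?_⟩
      rw [inv_smul_eq_iff]
      exact (hγ p).symm
  · right
    push Not at hb
    have hthick : ∀ n : ℕ, ∃ G : V → ℝ → X, ∀ s ∈ Icc (-(n : ℝ)) n, ∀ t ∈ Icc (-(n : ℝ)) n,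
        ∀ p q, dist (G p s) (G q t) ^ 2 = ‖p - q‖ ^ 2 + (s - t) ^ 2 := by
      intro n
      obtain ⟨g, ⟨hg, δ, hal⟩, hlt⟩ := hb (2 * (n + 1))
      rw [hal.dist_self] at hlt
      obtain ⟨G, hG⟩ := hal.slab hX hf hg (r := (n + 1 : ℝ)) (by positivity) hlt.le
      refine ⟨G, fun s hs t ht => hG s ?_ t ?_⟩
      · rw [mem_Icc] at hs ⊢; constructor <;> linarith [hs.1, hs.2]
      · rw [mem_Icc] at ht ⊢; constructor <;> linarith [ht.1, ht.2]
    exact exists_thick hK₀ hco hthick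

/-- The product of a flat with a line is a flat of one dimension more. -/
theorem exists_succ {k : ℕ} {Ψ : EuclideanSpace ℝ (Fin k) → ℝ → X}
    (hΨ : ∀ p q s t, dist (Ψ p s) (Ψ q t) ^ 2 = ‖p - q‖ ^ 2 + (s - t) ^ 2) :
    ∃ f : EuclideanSpace ℝ (Fin (k + 1)) → X, Isometry f := by
  refine ⟨fun p => Ψ (WithLp.toLp 2 (fun i : Fin k => p i.castSucc)) (p (Fin.last k)), ?_⟩
  apply Isometry.of_dist_eq
  intro p q
  have h1 := hΨ (WithLp.toLp 2 (fun i : Fin k => p i.castSucc))
    (WithLp.toLp 2 (fun i : Fin k => q i.castSucc)) (p (Fin.last k)) (q (Fin.last k))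
  have h2 : dist p q ^ 2 = ‖(WithLp.toLp 2 (fun i : Fin k => p i.castSucc) :
      EuclideanSpace ℝ (Fin k)) - WithLp.toLp 2 (fun i : Fin k => q i.castSucc)‖ ^ 2 +
      (p (Fin.last k) - q (Fin.last k)) ^ 2 := by
    rw [dist_eq_norm, EuclideanSpace.norm_eq, EuclideanSpace.norm_eq, Real.sq_sqrt (by positivity),
      Real.sq_sqrt (by positivity), Fin.sum_univ_castSucc]
    simp
  rw [← h2] at h1
  exact (pow_left_inj₀ dist_nonneg dist_nonneg two_ne_zero).1 h1

/-- The dimension of flats is bounded. -/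
theorem exists_max_dim [ProperSpace X] {K₀ : Set X} (hK₀ : IsCompact K₀)
    (hco : ∀ x : X, ∃ γ : Γ, γ • x ∈ K₀) :
    ∃ N : ℕ, ∀ k : ℕ, ∀ f : EuclideanSpace ℝ (Fin k) → X, Isometry f → k ≤ N := by
  have hK₁ : IsCompact (Metric.cthickening 1 K₀) := hK₀.cthickening
  obtain ⟨t, -, htf, ht⟩ := hK₁.totallyBounded.exists_subset (Metric.dist_mem_uniformity
    (show (0 : ℝ) < 1 / 2 by norm_num))
  refine ⟨htf.toFinset.card, fun k f hf => ?_⟩
  obtain ⟨γ, hγ⟩ := hco (f 0)
  have hmem : ∀ i : Fin k, ∃ y ∈ t, dist (γ • f (EuclideanSpace.single i 1)) y < 1 / 2 := by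
    intro i
    have h1 : γ • f (EuclideanSpace.single i 1) ∈ Metric.cthickening 1 K₀ := by
      refine Metric.mem_cthickening_of_dist_le _ _ _ _ hγ ?_
      rw [dist_smul, hf.dist_eq, dist_zero_right]
      simp
    have h2 := ht h1
    simp only [mem_iUnion, exists_prop] at h2
    obtain ⟨y, hy, hy2⟩ := h2
    exact ⟨y, hy, hy2⟩
  choose y hyt hyd using hmem
  have hinj : Function.Injective y := by
    intro i j hij
    by_contra hne
    have h1 : dist (γ • f (EuclideanSpace.single i (1 : ℝ)))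
        (γ • f (EuclideanSpace.single j (1 : ℝ))) < 1 := by
      have e1 := hyd i
      have e2 := hyd j
      rw [hij] at e1
      refine (dist_triangle_right _ _ (y j)).trans_lt ?_
      linarith
    rw [dist_smul, hf.dist_eq] at h1
    have h2 : dist (EuclideanSpace.single i (1 : ℝ)) (EuclideanSpace.single j (1 : ℝ)) ^ 2 =
        2 := by
      rw [dist_eq_norm, @norm_sub_sq_real, EuclideanSpace.inner_single_left]
      simp [hne]
      norm_num
    have h3 : (0 : ℝ) ≤ dist (EuclideanSpace.single i (1 : ℝ)) (EuclideanSpace.single j (1 : ℝ)) :=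
      dist_nonneg
    nlinarith
  have := Finset.card_le_card_of_injOn (s := Finset.univ) (t := htf.toFinset) y
    (fun i _ => by simpa using hyt i) (hinj.injOn)
  simpa using this

end Pool.Agent.Helper39.Flats
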