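import Mathlib

set_option linter.unusedSectionVars false

namespace Pool.Agent.Helper39.Flats

open Set

section Scheme

variable {Y : Type*} [TopologicalSpace Y]

/-- one pair -/
theorem shrink_pair {E : Set (Y × Y)} (hE : IsClosed E) (hE' : interior E = ∅) {ι : Type*}
    (U : ι → Set Y) (hU : ∀ i, IsOpen (U i)) (hne : ∀ i, (U i).Nonempty) (i j : ι) (hij : i ≠ j) :
    ∃ W : ι → Set Y, (∀ k, IsOpen (W k)) ∧ (∀ k, (W k).Nonempty) ∧ (∀ k, W k ⊆ U k) ∧
      ∀ a ∈ W i, ∀ b ∈ W j, (a, b) ∉ E := by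
  classical
  have h1 : ∃ z ∈ U i ×ˢ U j, z ∉ E := by
    by_contra hcon
    push Not at hcon
    have h2 : U i ×ˢ U j ⊆ interior E := interior_maximal hcon ((hU i).prod (hU j))
    rw [hE'] at h2
    obtain ⟨a, ha⟩ := hne i
    obtain ⟨b, hb⟩ := hne j
    exact h2 (show (a, b) ∈ U i ×ˢ U j from ⟨ha, hb⟩)
  obtain ⟨⟨a, b⟩, ⟨ha, hb⟩, hab⟩ := h1
  obtain ⟨A, B, hA, hB, haA, hbB, hAB⟩ := isOpen_prod_iff.1 hE.isOpen_compl a b hab
  refine ⟨fun k => if k = i then U i ∩ A else if k = j then U j ∩ B else U k, ?_, ?_, ?_, ?_⟩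
  · intro k
    simp only
    split_ifs
    · exact (hU i).inter hA
    · exact (hU j).inter hB
    · exact hU k
  · intro k
    simp only
    split_ifs
    · exact ⟨a, ha, haA⟩
    · exact ⟨b, hb, hbB⟩
    · exact hne k
  · intro k
    simp only
    split_ifs with h h'
    · rw [h]; exact inter_subset_left
    · rw [h']; exact inter_subset_left
    · exact subset_rfl
  · intro x hx y hy
    simp only [if_true, if_neg hij.symm] at hx hy
    exact hAB (show (x, y) ∈ A ×ˢ B from ⟨hx.2, hy.2⟩)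

theorem shrink_open {E : Set (Y × Y)} (hE : IsClosed E) (hE' : interior E = ∅) {ι : Type*}
    [Finite ι] (U : ι → Set Y) (hU : ∀ i, IsOpen (U i)) (hne : ∀ i, (U i).Nonempty) :
    ∃ W : ι → Set Y, (∀ k, IsOpen (W k)) ∧ (∀ k, (W k).Nonempty) ∧ (∀ k, W k ⊆ U k) ∧
      ∀ i j, i ≠ j → ∀ a ∈ W i, ∀ b ∈ W j, (a, b) ∉ E := by
  classical
  have := Fintype.ofFinite ι
  have key : ∀ S : Finset (ι × ι), ∃ W : ι → Set Y, (∀ k, IsOpen (W k)) ∧
      (∀ k, (W k).Nonempty) ∧ (∀ k, W k ⊆ U k) ∧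
      ∀ p ∈ S, p.1 ≠ p.2 → ∀ a ∈ W p.1, ∀ b ∈ W p.2, (a, b) ∉ E := by
    intro S
    induction S using Finset.induction_on with
    | empty => exact ⟨U, hU, hne, fun _ => subset_rfl, by simp⟩
    | insert p S hp ih =>
      obtain ⟨W, h1, h2, h3, h4⟩ := ih
      by_cases hpp : p.1 = p.2
      · refine ⟨W, h1, h2, h3, ?_⟩
        intro q hq hne'
        rcases Finset.mem_insert.1 hq with rfl | hq
        · exact absurd hpp hne'
        · exact h4 q hq hne'
      · obtain ⟨W', g1, g2, g3, g4⟩ := shrink_pair hE hE' W h1 h2 p.1 p.2 hpp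
        refine ⟨W', g1, g2, fun k => (g3 k).trans (h3 k), ?_⟩
        intro q hq hne'
        rcases Finset.mem_insert.1 hq with rfl | hq
        · exact g4
        · exact fun a ha b hb => h4 q hq hne' a (g3 _ ha) b (g3 _ hb)
  obtain ⟨W, h1, h2, h3, h4⟩ := key Finset.univ
  exact ⟨W, h1, h2, h3, fun i j hij => h4 (i, j) (Finset.mem_univ _) hij⟩

theorem shrink [LocallyCompactSpace Y] [T2Space Y] {E : Set (Y × Y)} (hE : IsClosed E)
    (hE' : interior E = ∅) {ι : Type*} [Finite ι] (U : ι → Set Y) (hU : ∀ i, IsOpen (U i))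
    (hne : ∀ i, (U i).Nonempty) :
    ∃ W : ι → Set Y, (∀ i, IsOpen (W i)) ∧ (∀ i, (W i).Nonempty) ∧
      (∀ i, IsCompact (closure (W i))) ∧ (∀ i, closure (W i) ⊆ U i) ∧
      ∀ i j, i ≠ j → ∀ a ∈ closure (W i), ∀ b ∈ closure (W j), (a, b) ∉ E := by
  obtain ⟨W, h1, h2, h3, h4⟩ := shrink_open hE hE' U hU hne
  choose x hx using h2
  choose K hK hxK hKW using fun i => exists_compact_subset (h1 i) (hx i)
  have hcl : ∀ i, closure (interior (K i)) ⊆ K i := fun i =>
    closure_minimal interior_subset (hK i).isClosed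
  refine ⟨fun i => interior (K i), fun i => isOpen_interior, fun i => ⟨x i, hxK i⟩,
    fun i => (hK i).of_isClosed_subset isClosed_closure (hcl i),
    fun i => ((hcl i).trans (hKW i)).trans (h3 i), ?_⟩
  intro i j hij a ha b hb
  exact h4 i j hij a (hKW i (hcl i ha)) b (hKW j (hcl j hb))

/-- A Mycielski type theorem. -/
theorem scheme [LocallyCompactSpace Y] [T2Space Y] [Nonempty Y] {E : ℕ → Set (Y × Y)}
    (hE : ∀ n, IsClosed (E n)) (hE' : ∀ n, interior (E n) = ∅) (hmono : Monotone E) :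
    ∃ φ : (ℕ → Bool) → Y, ∀ x y, x ≠ y → ∀ n, (φ x, φ y) ∉ E n := by
  classical
  -- states
  let P : ℕ → Type _ := fun n =>
    {U : (Fin n → Bool) → Set Y // (∀ s, IsOpen (U s)) ∧ ∀ s, (U s).Nonempty}
  have step : ∀ n (U : P n), ∃ U' : P (n + 1),
      (∀ s, IsCompact (closure (U'.1 s))) ∧ (∀ s, closure (U'.1 s) ⊆ U.1 (Fin.init s)) ∧
      ∀ s t, s ≠ t → ∀ a ∈ closure (U'.1 s), ∀ b ∈ closure (U'.1 t), (a, b) ∉ E n := by
    intro n U
    obtain ⟨W, h1, h2, h3, h4, h5⟩ := shrink (hE n) (hE' n)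
      (fun s : Fin (n + 1) → Bool => U.1 (Fin.init s)) (fun s => U.2.1 _) (fun s => U.2.2 _)
    exact ⟨⟨W, h1, h2⟩, h3, h4, h5⟩
  choose next hn1 hn2 hn3 using step
  let U : ∀ n, P n := fun n => Nat.rec ⟨fun _ => univ, fun _ => isOpen_univ, fun _ => univ_nonempty⟩
    (fun n U => next n U) n
  have hUs : ∀ n, U (n + 1) = next n (U n) := fun n => rfl
  let r : (ℕ → Bool) → ∀ n, Fin n → Bool := fun x n i => x i
  have hr : ∀ x n, Fin.init (r x (n + 1)) = r x n := by
    intro x n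
    funext i
    simp [r, Fin.init]
  have hφ : ∀ x : ℕ → Bool, (⋂ n, closure ((U (n + 1)).1 (r x (n + 1)))).Nonempty := by
    intro x
    apply IsCompact.nonempty_iInter_of_sequence_nonempty_isCompact_isClosed
    · intro n
      refine subset_trans ?_ subset_closure
      rw [hUs (n + 1)]
      have := hn2 (n + 1) (U (n + 1)) (r x (n + 1 + 1))
      rwa [hr] at this
    · intro n
      exact ((U (n + 1)).2.2 _).closure
    · rw [hUs]; exact hn1 _ _ _
    · intro n; exact isClosed_closure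
  choose φ hφ' using hφ
  refine ⟨φ, fun x y hxy n => ?_⟩
  obtain ⟨m, hm⟩ := Function.ne_iff.1 hxy
  have hne : r x (max n m + 1) ≠ r y (max n m + 1) := by
    intro h
    have := congrFun h ⟨m, by omega⟩
    exact hm this
  have h1 := mem_iInter.1 (hφ' x) (max n m)
  have h2 := mem_iInter.1 (hφ' y) (max n m)
  rw [hUs] at h1 h2
  have h3 := hn3 _ _ _ _ hne _ h1 _ h2
  exact fun h => h3 (hmono (le_max_left n m) h)

end Scheme

end Pool.Agent.Helper39.Flats
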