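import Pool.Agent.Helper39.Flats.CN
import Pool.Agent.Helper39.Flats.Scheme

set_option linter.unusedSectionVars false

namespace Pool.Agent.Helper39.Flats

open Set Filter Topology

section Top

variable {W : Type*} [PseudoMetricSpace W] {X : Type*} [MetricSpace X]

theorem isClosed_isometry : IsClosed {f : W → X | Isometry f} := by
  have : {f : W → X | Isometry f} = ⋂ x, ⋂ y, {f | dist (f x) (f y) = dist x y} := by
    ext f
    simp only [mem_ofPred_eq, mem_iInter]
    exact isometry_iff_dist_eq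
  rw [this]
  refine isClosed_iInter fun x => isClosed_iInter fun y => ?_
  exact isClosed_eq ((continuous_apply x).dist (continuous_apply y)) continuous_const

theorem isCompact_isometry [ProperSpace X] (x0 : W) {K₀ : Set X} (hK : IsCompact K₀) :
    IsCompact {f : W → X | Isometry f ∧ f x0 ∈ K₀} := by
  have h1 : IsClosed {f : W → X | Isometry f ∧ f x0 ∈ K₀} :=
    isClosed_isometry.inter (hK.isClosed.preimage (continuous_apply x0))
  have h2 : IsCompact (Set.pi univ fun p : W => Metric.cthickening (dist p x0) K₀) :=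
    isCompact_univ_pi fun p => hK.cthickening
  refine h2.of_isClosed_subset h1 ?_
  rintro f ⟨hf, hf0⟩ p -
  exact Metric.mem_cthickening_of_dist_le _ _ _ _ hf0 (hf.dist_eq p x0).le

theorem isCompact_fl [ProperSpace X] (x0 : W) {K₀ : Set X} (hK : IsCompact K₀) :
    IsCompact {f : {f : W → X // Isometry f} | f.1 x0 ∈ K₀} := by
  rw [Subtype.isCompact_iff]
  convert isCompact_isometry x0 hK using 1
  ext f
  simp only [mem_image, mem_ofPred_eq, Subtype.exists, exists_and_left, exists_prop,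
    exists_eq_right_right]
  tauto

theorem continuous_eval' :
    Continuous (fun z : {f : W → X // Isometry f} × W => z.1.1 z.2) := by
  rw [continuous_iff_continuousAt]
  rintro ⟨f, p⟩
  rw [ContinuousAt, tendsto_iff_dist_tendsto_zero]
  refine squeeze_zero (g := fun z : {f : W → X // Isometry f} × W =>
    dist z.2 p + dist (z.1.1 p) (f.1 p)) (fun _ => dist_nonneg) (fun z => ?_) ?_
  · have := dist_triangle (z.1.1 z.2) (z.1.1 p) (f.1 p)
    rwa [z.1.2.dist_eq] at this
  · have h : Continuous (fun z : {f : W → X // Isometry f} × W =>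
        dist z.2 p + dist (z.1.1 p) (f.1 p)) := by
      apply Continuous.add
      · exact continuous_snd.dist continuous_const
      · apply Continuous.dist _ continuous_const
        exact (continuous_apply p).comp (continuous_subtype_val.comp continuous_fst)
    have h2 := h.tendsto (f, p)
    simpa using h2

end Top

variable {X : Type*} [MetricSpace X]
variable {V : Type*} [NormedAddCommGroup V] [InnerProductSpace ℝ V]

/-- The space of flats with the topology of pointwise convergence. -/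
abbrev Fl (V X : Type*) [NormedAddCommGroup V] [MetricSpace X] := {f : V → X // Isometry f}

instance [ProperSpace X] : WeaklyLocallyCompactSpace (Fl V X) where
  exists_compact_mem_nhds f := by
    refine ⟨{g : Fl V X | g.1 0 ∈ Metric.closedBall (f.1 0) 1},
      isCompact_fl (0 : V) (isCompact_closedBall (f.1 0) 1), ?_⟩
    have hc : Continuous (fun g : Fl V X => g.1 0) :=
      (continuous_apply (0 : V)).comp continuous_subtype_val
    exact hc.continuousAt.preimage_mem_nhds (Metric.closedBall_mem_nhds _ one_pos)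

section Act

variable {Γ : Type*} [Group Γ] [MulAction Γ X] [IsIsometricSMul Γ X]

/-- The action of `Γ × V` on flats. -/
def act (γ : Γ) (v : V) (f : Fl V X) : Fl V X :=
  ⟨fun p => γ • f.1 (p + v), by
    intro p q
    rw [edist_smul_left, f.2]
    simp⟩

theorem act_continuous (γ : Γ) (v : V) : Continuous (act (X := X) γ v) := by
  apply Continuous.subtype_mk
  refine continuous_pi fun p => ?_
  exact ((continuous_apply (p + v)).comp continuous_subtype_val).const_smul γ

theorem act_act (γ γ' : Γ) (v v' : V) (f : Fl V X) :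
    act γ v (act γ' v' f) = act (γ * γ') (v + v') f := by
  apply Subtype.ext
  funext p
  simp only [act]
  rw [mul_smul, add_assoc]

theorem act_one (f : Fl V X) : act (1 : Γ) (0 : V) f = f := by
  apply Subtype.ext
  funext p
  simp [act]

/-- Invariant sets. -/
def Inv (Γ : Type*) [Group Γ] [MulAction Γ X] [IsIsometricSMul Γ X] (S : Set (Fl V X)) : Prop :=
  ∀ (γ : Γ) (v : V), ∀ f ∈ S, act γ v f ∈ S

theorem exists_minimal [ProperSpace X] {K₀ : Set X} (hK₀ : IsCompact K₀)
    (hco : ∀ x : X, ∃ γ : Γ, γ • x ∈ K₀) (hfl : Nonempty (Fl V X)) :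
    ∃ K : Set (Fl V X), IsClosed K ∧ K.Nonempty ∧ Inv Γ K ∧
      ∀ K' : Set (Fl V X), IsClosed K' → K'.Nonempty → Inv Γ K' → K' ⊆ K → K' = K := by
  set A : Set (Set (Fl V X)) := {S | IsClosed S ∧ S.Nonempty ∧ Inv Γ S} with hA
  have hchain : ∀ c ⊆ A, IsChain (· ⊆ ·) c → c.Nonempty → ∃ lb ∈ A, ∀ s ∈ c, lb ⊆ s := by
    intro c hc hch hcn
    refine ⟨⋂₀ c, ⟨isClosed_sInter fun s hs => (hc hs).1, ?_, ?_⟩, fun s hs => sInter_subset_of_mem hs⟩
    · have : Nonempty c := hcn.to_subtype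
      have h1 : (⋂ s : c, (s.1 ∩ {f : Fl V X | f.1 0 ∈ K₀})).Nonempty := by
        apply IsCompact.nonempty_iInter_of_directed_nonempty_isCompact_isClosed
        · intro s t
          rcases hch.total s.2 t.2 with h | h
          · exact ⟨s, subset_rfl, inter_subset_inter_left _ h⟩
          · exact ⟨t, inter_subset_inter_left _ h, subset_rfl⟩
        · intro s
          obtain ⟨f, hf⟩ := (hc s.2).2.1
          obtain ⟨γ, hγ⟩ := hco (f.1 0)
          refine ⟨act γ 0 f, (hc s.2).2.2 γ 0 f hf, ?_⟩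
          simpa [act] using hγ
        · intro s
          exact (isCompact_fl (0 : V) hK₀).inter_left (hc s.2).1
        · intro s
          exact ((isCompact_fl (0 : V) hK₀).inter_left (hc s.2).1).isClosed
      obtain ⟨f, hf⟩ := h1
      refine ⟨f, ?_⟩
      rw [mem_sInter]
      intro s hs
      exact (mem_iInter.1 hf ⟨s, hs⟩).1
    · intro γ v f hf
      rw [mem_sInter] at hf ⊢
      intro s hs
      exact (hc hs).2.2 γ v f (hf s hs)
  have huniv : (univ : Set (Fl V X)) ∈ A := ⟨isClosed_univ, univ_nonempty, fun _ _ _ _ => mem_univ _⟩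
  obtain ⟨K, -, hK⟩ := zorn_superset_nonempty A hchain univ huniv
  refine ⟨K, hK.prop.1, hK.prop.2.1, hK.prop.2.2, ?_⟩
  intro K' h1 h2 h3 h4
  exact subset_antisymm h4 (hK.le_of_le ⟨h1, h2, h3⟩ h4)

theorem recur [ProperSpace X] {K₀ : Set X} (hK₀ : IsCompact K₀)
    (hco : ∀ x : X, ∃ γ : Γ, γ • x ∈ K₀) {K : Set (Fl V X)} (hK : IsClosed K) (hinv : Inv Γ K)
    (hmin : ∀ K' : Set (Fl V X), IsClosed K' → K'.Nonempty → Inv Γ K' → K' ⊆ K → K' = K)
    {U : Set (Fl V X)} (hU : IsOpen U) (hUK : (U ∩ K).Nonempty) :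
    ∃ m : ℕ, ∀ g ∈ K, ∃ γ : Γ, ∃ v : V, ‖v‖ ≤ m ∧ act γ v g ∈ U := by
  have h1 : ∀ g ∈ K, ∃ γ : Γ, ∃ v : V, act γ v g ∈ U := by
    intro g hg
    by_contra hcon
    push Not at hcon
    have h2 := hmin {h | h ∈ K ∧ ∀ (γ : Γ) (v : V), act γ v h ∉ U} ?_ ⟨g, hg, hcon⟩ ?_
      (fun h hh => hh.1)
    · obtain ⟨u, hu, huK⟩ := hUK
      rw [← h2] at huK
      have := huK.2 1 0
      rw [act_one] at this
      exact this hu
    · have : {h | h ∈ K ∧ ∀ (γ : Γ) (v : V), act γ v h ∉ U} =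
          K ∩ ⋂ γ : Γ, ⋂ v : V, (act γ v ⁻¹' Uᶜ) := by
        ext h
        simp
      rw [this]
      refine hK.inter (isClosed_iInter fun γ => isClosed_iInter fun v => ?_)
      exact hU.isClosed_compl.preimage (act_continuous γ v)
    · rintro γ v h ⟨hh1, hh2⟩
      refine ⟨hinv γ v h hh1, fun γ' v' => ?_⟩
      rw [act_act]
      exact hh2 _ _
  -- compactness
  have h2 : IsCompact (K ∩ {f : Fl V X | f.1 0 ∈ K₀}) := (isCompact_fl (0 : V) hK₀).inter_left hK
  let O : ℕ → Set (Fl V X) := fun m => ⋃ γ : Γ, ⋃ v : V, ⋃ _ : ‖v‖ ≤ m, act γ v ⁻¹' U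
  have hO : ∀ m, IsOpen (O m) := fun m =>
    isOpen_iUnion fun γ => isOpen_iUnion fun v => isOpen_iUnion fun _ =>
      hU.preimage (act_continuous γ v)
  have hmem : ∀ m g, g ∈ O m ↔ ∃ γ : Γ, ∃ v : V, ‖v‖ ≤ m ∧ act γ v g ∈ U := by
    intro m g
    simp [O]
  have hcov : K ∩ {f : Fl V X | f.1 0 ∈ K₀} ⊆ ⋃ m, O m := by
    rintro g ⟨hg, -⟩
    obtain ⟨γ, v, h⟩ := h1 g hg
    obtain ⟨m, hm⟩ := exists_nat_ge ‖v‖
    rw [mem_iUnion]
    exact ⟨m, (hmem m g).2 ⟨γ, v, hm, h⟩⟩
  have hdir : Directed (· ⊆ ·) O := by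
    apply Monotone.directed_le
    intro m n hmn g hg
    obtain ⟨γ, v, h3, h4⟩ := (hmem m g).1 hg
    exact (hmem n g).2 ⟨γ, v, h3.trans (by exact_mod_cast hmn), h4⟩
  obtain ⟨m, hm⟩ := h2.elim_directed_cover O hO hcov hdir
  refine ⟨m, fun g hg => ?_⟩
  obtain ⟨γ', hγ'⟩ := hco (g.1 0)
  have h3 : act γ' 0 g ∈ K ∩ {f : Fl V X | f.1 0 ∈ K₀} := by
    refine ⟨hinv γ' 0 g hg, ?_⟩
    simpa [act] using hγ'
  obtain ⟨γ, v, h4, h5⟩ := (hmem m _).1 (hm h3)
  rw [act_act, add_zero] at h5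
  exact ⟨γ * γ', v, h4, h5⟩

end Act

/-- The relations. -/
def Rel (V X : Type*) [NormedAddCommGroup V] [MetricSpace X] (n : ℕ) : Set (Fl V X × Fl V X) :=
  {z | ∃ a : V → V, (Isometry a ∧ a 0 = 0) ∧ ∀ p, dist (z.1.1 p) (z.2.1 (a p)) ≤ n}

theorem Rel.isClosed [ProperSpace V] (n : ℕ) : IsClosed (Rel V X n) := by
  let O := {a : {a : V → V // Isometry a} // a ∈ {a : {a : V → V // Isometry a} | a.1 0 ∈ ({0} : Set V)}}
  have hO : CompactSpace O := isCompact_iff_compactSpace.1 (isCompact_fl (0 : V) isCompact_singleton)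
  have h1 : IsClosed {w : (Fl V X × Fl V X) × O |
      ∀ p, dist (w.1.1.1 p) (w.1.2.1 (w.2.1.1 p)) ≤ n} := by
    have : {w : (Fl V X × Fl V X) × O |
      ∀ p, dist (w.1.1.1 p) (w.1.2.1 (w.2.1.1 p)) ≤ n} =
        ⋂ p, {w | dist (w.1.1.1 p) (w.1.2.1 (w.2.1.1 p)) ≤ n} := by
      ext w; simp
    rw [this]
    refine isClosed_iInter fun p => ?_
    refine isClosed_le (Continuous.dist ?_ ?_) continuous_const
    · exact (continuous_apply p).comp (continuous_subtype_val.comp
        (continuous_fst.comp continuous_fst))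
    · have h2 : Continuous fun w : (Fl V X × Fl V X) × O => (w.1.2, w.2.1.1 p) := by
        refine (continuous_snd.comp continuous_fst).prodMk ?_
        exact (continuous_apply p).comp (continuous_subtype_val.comp
          (continuous_subtype_val.comp continuous_snd))
      exact (continuous_eval' (W := V) (X := X)).comp h2
  have h2 : Rel V X n = Prod.fst '' {w : (Fl V X × Fl V X) × O |
      ∀ p, dist (w.1.1.1 p) (w.1.2.1 (w.2.1.1 p)) ≤ n} := by
    ext z
    constructor
    · rintro ⟨a, ⟨ha, ha0⟩, h⟩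
      exact ⟨(z, ⟨⟨a, ha⟩, ha0⟩), h, rfl⟩
    · rintro ⟨⟨z', a⟩, h, rfl⟩
      exact ⟨a.1.1, ⟨a.1.2, a.2⟩, h⟩
  rw [h2]
  exact isClosedMap_fst_of_compactSpace _ h1

theorem Rel.mono : Monotone (Rel V X) := by
  rintro m n hmn z ⟨a, ha, h⟩
  exact ⟨a, ha, fun p => (h p).trans (by exact_mod_cast hmn)⟩

theorem surj_of_isometry [FiniteDimensional ℝ V] {a : V → V} (ha : Isometry a) :
    Function.Surjective a := by
  set A : V →ᵃⁱ[ℝ] V := ha.affineIsometryOfStrictConvexSpace with hA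
  have h0 : ⇑A = a := by
    funext x
    simp [hA]
  have h1 : Function.Injective A.linearIsometry := A.linearIsometry.injective
  have h2 : Function.Surjective A.linearIsometry.toLinearMap :=
    LinearMap.surjective_of_injective h1
  have h3 : Function.Surjective A.toAffineMap := by
    rw [← AffineMap.linear_surjective_iff]
    exact h2
  rw [← h0]
  exact h3

/-- an isometry of `V` as an equivalence -/
theorem exists_equiv_of_isometry [FiniteDimensional ℝ V] {a : V → V} (ha : Isometry a) :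
    ∃ e : V ≃ᵢ V, ∀ x, e x = a x :=
  ⟨⟨Equiv.ofBijective a ⟨ha.injective, surj_of_isometry ha⟩, ha⟩, fun _ => rfl⟩

theorem exists_recurrent [FiniteDimensional ℝ V] [ProperSpace X] {Γ : Type*} [Group Γ]
    [MulAction Γ X] [IsIsometricSMul Γ X] {K₀ : Set X} (hK₀ : IsCompact K₀)
    (hco : ∀ x : X, ∃ γ : Γ, γ • x ∈ K₀) (hfl : ∃ f : V → X, Isometry f) :
    (∃ φ : (ℕ → Bool) → V → X, (∀ x, Isometry (φ x)) ∧ ∀ x y, x ≠ y → ∀ a : V → V, Isometry a →
      ¬ ∃ C : ℝ, ∀ p, dist (φ x p) (φ y (a p)) ≤ C) ∨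
    ∃ f : V → X, Isometry f ∧ ∃ m n : ℝ, ∀ p : V, ∃ γ : Γ, ∃ B : V ≃ᵢ V,
      ‖B 0 - p‖ ≤ m ∧ ∀ q, dist (γ • f (B q)) (f q) ≤ n := by
  have : ProperSpace V := FiniteDimensional.proper_real V
  obtain ⟨f₀, hf₀⟩ := hfl
  obtain ⟨K, hKc, hKn, hinv, hmin⟩ := exists_minimal (Γ := Γ) (V := V) hK₀ hco ⟨⟨f₀, hf₀⟩⟩
  have hemb : IsClosedEmbedding (Subtype.val : K → Fl V X) := hKc.isClosedEmbedding_subtypeVal
  have : LocallyCompactSpace K := hemb.locallyCompactSpace
  have : Nonempty K := hKn.to_subtype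
  set E : ℕ → Set (K × K) := fun n => (Prod.map Subtype.val Subtype.val) ⁻¹' (Rel V X n) with hE
  have hEc : ∀ n, IsClosed (E n) := fun n =>
    (Rel.isClosed n).preimage (continuous_subtype_val.prodMap continuous_subtype_val)
  have hEm : Monotone E := fun m n hmn => preimage_mono (Rel.mono hmn)
  by_cases hint : ∀ n, interior (E n) = ∅
  · left
    obtain ⟨φ, hφ⟩ := scheme hEc hint hEm
    refine ⟨fun x => (φ x).1.1, fun x => (φ x).1.2, ?_⟩
    rintro x y hxy a ha ⟨C, hC⟩
    obtain ⟨n, hn⟩ := exists_nat_ge (C + ‖a 0‖)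
    refine hφ x y hxy n ⟨fun p => a p - a 0, ⟨?_, sub_self _⟩, fun p => ?_⟩
    · intro p q
      rw [edist_sub_right, ha]
    · have h1 := dist_triangle ((φ x).1.1 p) ((φ y).1.1 (a p)) ((φ y).1.1 (a p - a 0))
      rw [(φ y).1.2.dist_eq (a p)] at h1
      have h2 : dist (a p) (a p - a 0) = ‖a 0‖ := by
        rw [dist_eq_norm]; simp
      rw [h2] at h1
      exact h1.trans ((add_le_add_left (hC p) _).trans hn)
  · right
    push Not at hint
    obtain ⟨n, ⟨⟨g, hg⟩, f, hf⟩, hgf⟩ := hint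
    obtain ⟨A, B, hA, hB, hgA, hfB, hAB⟩ := isOpen_prod_iff.1 isOpen_interior _ _ hgf
    obtain ⟨U, hU, rfl⟩ := isOpen_induced_iff.1 hA
    obtain ⟨m, hm⟩ := recur (Γ := Γ) hK₀ hco hKc hinv hmin hU ⟨g, hgA, hg⟩
    refine ⟨f.1, f.2, m, n, fun p => ?_⟩
    obtain ⟨γ, v, hv, hU'⟩ := hm (act 1 p f) (hinv 1 p f hf)
    rw [act_act, mul_one] at hU'
    have h1 : ((⟨act γ (v + p) f, hinv _ _ _ hf⟩, ⟨f, hf⟩) : K × K) ∈ E n :=
      interior_subset (hAB ⟨hU', hfB⟩)
    obtain ⟨a, ⟨ha, ha0⟩, h2⟩ := h1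
    obtain ⟨e, he⟩ := exists_equiv_of_isometry ha
    refine ⟨γ, e.symm.trans (IsometryEquiv.addRight (v + p)), ?_, fun q => ?_⟩
    · have : e.symm 0 = 0 := by
        rw [IsometryEquiv.symm_apply_eq, he, ha0]
      simp only [IsometryEquiv.trans_apply, this, IsometryEquiv.addRight_apply, zero_add,
        add_sub_cancel_right]
      exact hv
    · have h3 := h2 (e.symm q)
      rw [← he, IsometryEquiv.apply_symm_apply] at h3
      exact h3

end Pool.Agent.Helper39.Flats
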