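import Pool.Agent.Helper39.Flats.CN

set_option linter.unusedSectionVars false

namespace Pool.Agent.Helper39.Flats

open Set

/-- normal form of plane isometries -/
def Ori (B : Plane → Plane) (ε : ℝ) : Prop :=
  ∃ x z b0 b1 : ℝ, x ^ 2 + z ^ 2 = 1 ∧
    ∀ q : Plane, B q 0 = x * q 0 - ε * z * q 1 + b0 ∧ B q 1 = z * q 0 + ε * x * q 1 + b1

theorem exists_ori {B : Plane → Plane} (hB : Isometry B) : ∃ ε : ℝ, (ε = 1 ∨ ε = -1) ∧ Ori B ε := by
  set A := hB.affineIsometryOfStrictConvexSpace with hA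
  have h0 : ∀ q, A q = B q := fun q => by simp [hA]
  set L := A.linearIsometry with hL
  have h1 : ∀ q, B q = L q + B 0 := by
    intro q
    have := A.map_vadd 0 q
    simp only [vadd_eq_add, add_zero] at this
    rw [← h0 q, ← h0 0, this]
  set e0 : Plane := EuclideanSpace.single 0 1 with he0
  set e1 : Plane := EuclideanSpace.single 1 1 with he1
  have h2 : ∀ q : Plane, q = q 0 • e0 + q 1 • e1 := by
    intro q
    ext i
    fin_cases i <;> simp [he0, he1]
  have h3 : ∀ q : Plane, L q = q 0 • L e0 + q 1 • L e1 := by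
    intro q
    conv_lhs => rw [h2 q]
    rw [map_add, map_smul, map_smul]
  have hn : ∀ q : Plane, (L q 0) ^ 2 + (L q 1) ^ 2 = q 0 ^ 2 + q 1 ^ 2 := by
    intro q
    have := L.norm_map q
    rw [EuclideanSpace.norm_eq, EuclideanSpace.norm_eq, Real.sqrt_inj (by positivity)
      (by positivity)] at this
    simpa [Fin.sum_univ_two] using this
  have a0 : (L e0 0) ^ 2 + (L e0 1) ^ 2 = 1 := by
    have := hn e0
    simpa [he0] using this
  have a1 : (L e1 0) ^ 2 + (L e1 1) ^ 2 = 1 := by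
    have := hn e1
    simpa [he1] using this
  have a2 : (L e0 0) * (L e1 0) + (L e0 1) * (L e1 1) = 0 := by
    have := hn (e0 + e1)
    rw [map_add] at this
    simp only [PiLp.add_apply] at this
    have e00 : e0 0 = 1 := by simp [he0]
    have e01 : e0 1 = 0 := by simp [he0]
    have e10 : e1 0 = 0 := by simp [he1]
    have e11 : e1 1 = 1 := by simp [he1]
    rw [e00, e01, e10, e11] at this
    nlinarith
  set x := L e0 0
  set z := L e0 1
  set y := L e1 0
  set w := L e1 1
  have hD : (x * w - z * y) ^ 2 = 1 := by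
    have : (x * w - z * y) ^ 2 = (x ^ 2 + z ^ 2) * (y ^ 2 + w ^ 2) - (x * y + z * w) ^ 2 := by ring
    rw [this, a0, a1, a2]; ring
  refine ⟨x * w - z * y, ?_, x, z, B 0 0, B 0 1, a0, fun q => ?_⟩
  · have h4 : ((x * w - z * y) - 1) * ((x * w - z * y) + 1) = 0 := by linear_combination hD
    rcases mul_eq_zero.1 h4 with h | h
    · exact Or.inl (by linarith)
    · exact Or.inr (by linarith)
  · have hw : w = (x * w - z * y) * x := by
      have : w = w * (x ^ 2 + z ^ 2) := by rw [a0, mul_one]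
      linear_combination this + z * a2
    have hy : y = - ((x * w - z * y) * z) := by
      have : y = y * (x ^ 2 + z ^ 2) := by rw [a0, mul_one]
      linear_combination this + x * a2
    rw [h1 q, h3 q]
    simp only [PiLp.add_apply, PiLp.smul_apply, smul_eq_mul]
    refine ⟨?_, ?_⟩
    · change q 0 * x + q 1 * y + B 0 0 = _
      linear_combination q 1 * hy
    · change q 0 * z + q 1 * w + B 0 1 = _
      linear_combination q 1 * hw

theorem Ori.comp {B B' : Plane → Plane} {ε ε' : ℝ} (hε : ε ^ 2 = 1) (h : Ori B ε)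
    (h' : Ori B' ε') : Ori (fun p => B (B' p)) (ε * ε') := by
  obtain ⟨x, z, b0, b1, hxz, hB⟩ := h
  obtain ⟨x', z', b0', b1', hxz', hB'⟩ := h'
  refine ⟨x * x' - ε * z * z', ε * x * z' + z * x', x * b0' - ε * z * b1' + b0,
    z * b0' + ε * x * b1' + b1, ?_, fun q => ⟨?_, ?_⟩⟩
  · linear_combination (x' ^ 2 + z' ^ 2) * hxz + hxz' + (z ^ 2 * z' ^ 2 + x ^ 2 * z' ^ 2) * hε
  · rw [(hB (B' q)).1, (hB' q).1, (hB' q).2]
    linear_combination (ε' * x * z' * q 1) * hε
  · rw [(hB (B' q)).2, (hB' q).1, (hB' q).2]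
    linear_combination (z * ε' * z' * q 1) * hε

/-- orientation preserving isometries without fixed points are translations -/
theorem Ori.translation {B : Plane → Plane} (h : Ori B 1) (hfix : (∃ q, B q = q) → ∀ q, B q = q) :
    ∃ u, ∀ q, B q = q + u := by
  obtain ⟨x, z, b0, b1, hxz, hB⟩ := h
  by_cases hx : x = 1
  · have hz : z = 0 := by
      rw [hx] at hxz
      have : z ^ 2 = 0 := by linarith
      exact pow_eq_zero_iff two_ne_zero |>.1 this
    refine ⟨!₂[b0, b1], fun q => ?_⟩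
    ext i
    fin_cases i
    · have := (hB q).1
      simp only [Fin.zero_eta, PiLp.add_apply]
      rw [this, hx, hz]
      simp
    · have := (hB q).2
      simp only [Fin.mk_one, PiLp.add_apply]
      rw [this, hx, hz]
      simp
  · have hx' : 1 - x ≠ 0 := fun h => hx (by linarith)
    set Δ := (1 - x) ^ 2 + z ^ 2 with hΔ
    have hΔ0 : Δ ≠ 0 := by positivity
    have hfx : B !₂[((1 - x) * b0 - z * b1) / Δ, (z * b0 + (1 - x) * b1) / Δ] =
        !₂[((1 - x) * b0 - z * b1) / Δ, (z * b0 + (1 - x) * b1) / Δ] := by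
      set q : Plane := !₂[((1 - x) * b0 - z * b1) / Δ, (z * b0 + (1 - x) * b1) / Δ] with hq
      have q0 : q 0 = ((1 - x) * b0 - z * b1) / Δ := by simp [hq]
      have q1 : q 1 = (z * b0 + (1 - x) * b1) / Δ := by simp [hq]
      ext i
      fin_cases i
      · have := (hB q).1
        simp only [Fin.zero_eta]
        rw [this, q0, q1]
        field_simp
        rw [hΔ]; ring
      · have := (hB q).2
        simp only [Fin.mk_one]
        rw [this, q0, q1]
        field_simp
        rw [hΔ]; ring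
    exact ⟨0, fun q => by rw [hfix ⟨_, hfx⟩ q, add_zero]⟩

/-- Two independent periods. -/
theorem exists_periods {S : Set (Plane → Plane)} (hiso : ∀ B ∈ S, Isometry B)
    (hcomp : ∀ B ∈ S, ∀ B' ∈ S, (fun p => B (B' p)) ∈ S)
    (hfix : ∀ B ∈ S, (∃ q, B q = q) → ∀ q, B q = q) {m : ℝ}
    (hco : ∀ p, ∃ B ∈ S, ‖B 0 - p‖ ≤ m) :
    ∃ u v : Plane, LinearIndependent ℝ ![u, v] ∧ (fun p => p + u) ∈ S ∧ (fun p => p + v) ∈ S := by
  -- translations are cobounded
  have key : ∃ R : ℝ, ∀ p, ∃ u : Plane, ‖u - p‖ ≤ R ∧ (fun p => p + u) ∈ S := by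
    by_cases hall : ∀ B ∈ S, Ori B 1
    · refine ⟨m, fun p => ?_⟩
      obtain ⟨B, hB, hBp⟩ := hco p
      obtain ⟨u, hu⟩ := (hall B hB).translation (hfix B hB)
      have hBu : B = fun p => p + u := funext hu
      refine ⟨u, ?_, hBu ▸ hB⟩
      rw [hu, zero_add] at hBp
      exact hBp
    · push Not at hall
      obtain ⟨B₁, hB₁, hnot⟩ := hall
      obtain ⟨ε₁, hε₁, ho₁⟩ := exists_ori (hiso B₁ hB₁)
      have hε₁' : ε₁ = -1 := by
        rcases hε₁ with h | h
        · exact absurd (h ▸ ho₁) hnot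
        · exact h
      rw [hε₁'] at ho₁
      refine ⟨m + ‖B₁ 0‖, fun p => ?_⟩
      obtain ⟨B, hB, hBp⟩ := hco p
      obtain ⟨ε, hε, ho⟩ := exists_ori (hiso B hB)
      rcases hε with h | h
      · rw [h] at ho
        obtain ⟨u, hu⟩ := ho.translation (hfix B hB)
        have hBu : B = fun p => p + u := funext hu
        refine ⟨u, ?_, hBu ▸ hB⟩
        rw [hu, zero_add] at hBp
        have := norm_nonneg (B₁ 0)
        linarith
      · rw [h] at ho
        have h1 := ho.comp (by norm_num) ho₁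
        rw [show (-1 : ℝ) * -1 = 1 by norm_num] at h1
        obtain ⟨u, hu⟩ := h1.translation (hfix _ (hcomp B hB B₁ hB₁))
        have hBu : (fun p => B (B₁ p)) = fun p => p + u := funext hu
        refine ⟨u, ?_, hBu ▸ hcomp B hB B₁ hB₁⟩
        have h2 := hu 0
        rw [zero_add] at h2
        have h3 : dist (B (B₁ 0)) (B 0) = ‖B₁ 0‖ := by
          rw [(hiso B hB).dist_eq, dist_zero_right]
        have h4 : u - p = (B (B₁ 0) - B 0) + (B 0 - p) := by rw [h2]; abel
        rw [h4]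
        refine (norm_add_le _ _).trans ?_
        rw [dist_eq_norm] at h3
        linarith
  obtain ⟨R, hR⟩ := key
  set M := max R 1 with hM
  have hM1 : 1 ≤ M := le_max_right _ _
  have hMR : R ≤ M := le_max_left _ _
  obtain ⟨u, hu, huS⟩ := hR !₂[3 * M, 0]
  obtain ⟨v, hv, hvS⟩ := hR !₂[0, 3 * M]
  refine ⟨u, v, ?_, huS, hvS⟩
  have hcoord : ∀ (w : Plane), (w 0) ^ 2 + (w 1) ^ 2 = ‖w‖ ^ 2 := by
    intro w
    rw [EuclideanSpace.norm_eq, Real.sq_sqrt (by positivity)]
    simp [Fin.sum_univ_two]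
  have hu' := hcoord (u - !₂[3 * M, 0])
  have hv' := hcoord (v - !₂[0, 3 * M])
  have hu2 : ‖u - !₂[3 * M, 0]‖ ^ 2 ≤ M ^ 2 := pow_le_pow_left₀ (norm_nonneg _) (hu.trans hMR) 2
  have hv2 : ‖v - !₂[0, 3 * M]‖ ^ 2 ≤ M ^ 2 := pow_le_pow_left₀ (norm_nonneg _) (hv.trans hMR) 2
  rw [← hu'] at hu2
  rw [← hv'] at hv2
  simp only [PiLp.sub_apply, Matrix.cons_val_zero, Matrix.cons_val_one,
    Matrix.cons_val_fin_one, sub_zero] at hu2 hv2
  have M0 : (0 : ℝ) ≤ M := by linarith
  have a1 : |u 0 - 3 * M| ≤ M := abs_le_of_sq_le_sq (by nlinarith [sq_nonneg (u 1)]) M0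
  have a2 : |u 1| ≤ M := abs_le_of_sq_le_sq (by nlinarith [sq_nonneg (u 0 - 3 * M)]) M0
  have a3 : |v 0| ≤ M := abs_le_of_sq_le_sq (by nlinarith [sq_nonneg (v 1 - 3 * M)]) M0
  have a4 : |v 1 - 3 * M| ≤ M := abs_le_of_sq_le_sq (by nlinarith [sq_nonneg (v 0)]) M0
  rw [abs_le] at a1 a4
  have a5 : |u 1 * v 0| ≤ M * M := by
    rw [abs_mul]
    exact mul_le_mul a2 a3 (abs_nonneg _) M0
  have a6 : (2 * M) * (2 * M) ≤ u 0 * v 1 := by
    apply mul_le_mul <;> linarith
  have hdet : u 0 * v 1 - u 1 * v 0 ≠ 0 := by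
    have := (abs_le.1 a5).2
    have h5 : 0 < u 0 * v 1 - u 1 * v 0 := by nlinarith
    exact h5.ne'
  rw [LinearIndependent.pair_iff]
  intro s t hst
  have e0 : s * u 0 + t * v 0 = 0 := by
    have := congrArg (fun w : Plane => w 0) hst
    simpa using this
  have e1 : s * u 1 + t * v 1 = 0 := by
    have := congrArg (fun w : Plane => w 1) hst
    simpa using this
  constructor
  · have : s * (u 0 * v 1 - u 1 * v 0) = 0 := by linear_combination v 1 * e0 - v 0 * e1
    exact (mul_eq_zero.1 this).resolve_right hdet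
  · have : t * (u 0 * v 1 - u 1 * v 0) = 0 := by linear_combination u 0 * e1 - u 1 * e0
    exact (mul_eq_zero.1 this).resolve_right hdet

end Pool.Agent.Helper39.Flats
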