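import Pool.Agent.Helper39.Flats.Tilt
import Pool.Agent.Helper39.Flats.Periods
import Pool.Agent.Helper39.Flats.Minimal

set_option linter.unusedSectionVars false

namespace Pool.Agent.Helper39.Flats

open Set Filter Topology

variable {X : Type*} [MetricSpace X]

section Straighten

variable {V : Type*} [NormedAddCommGroup V] [InnerProductSpace ℝ V]

theorem dist_mid_le' (hX : IsCAT0 X) {f g : V → X} (hf : Isometry f) (hg : Isometry g)
    (p q p' q' : V) :
    dist (f ((1 / 2 : ℝ) • (p + q))) (g ((1 / 2 : ℝ) • (p' + q'))) ≤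
      dist (f p) (g p') / 2 + dist (f q) (g q') / 2 := by
  obtain ⟨m, hm⟩ := hX.exists_mid (f p) (g q')
  have h1 := (isMid_of_isometry hX hf p q).dist_mid hm
  have h2 := hm.symm.dist_mid (isMid_of_isometry hX hg p' q').symm
  have h3 := dist_triangle (f ((1 / 2 : ℝ) • (p + q))) m (g ((1 / 2 : ℝ) • (p' + q')))
  linarith

/-- A flat in a bounded neighbourhood of another one is parallel to it. -/
theorem straighten [CompleteSpace V] (hX : IsCAT0 X) {f g : V → X} (hf : Isometry f)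
    (hg : Isometry g) {A : V → V} {C : ℝ} (hA : ∀ p, dist (f p) (g (A p)) ≤ C) :
    ∃ a : V → V, Isometry a ∧ ∃ C', ∀ p, dist (f p) (g (a p)) ≤ C' := by
  set u : V → ℕ → V := fun p n => ((1 : ℝ) / 2 ^ n) • (A ((2 : ℝ) ^ n • p) - A 0) with hu
  have hstep : ∀ p n, dist (u p n) (u p (n + 1)) ≤ (4 * C) / 2 / 2 ^ n := by
    intro p n
    have h1 := dist_mid_le' hX hf hg 0 ((2 : ℝ) ^ (n + 1) • p) (A 0) (A ((2 : ℝ) ^ (n + 1) • p))
    have e1 : (1 / 2 : ℝ) • ((0 : V) + (2 : ℝ) ^ (n + 1) • p) = (2 : ℝ) ^ n • p := by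
      rw [pow_succ]; module
    rw [e1] at h1
    have h2 := hA 0
    have h3 := hA ((2 : ℝ) ^ (n + 1) • p)
    have h4 := hA ((2 : ℝ) ^ n • p)
    have h5 : dist (g (A ((2 : ℝ) ^ n • p)))
        (g ((1 / 2 : ℝ) • (A 0 + A ((2 : ℝ) ^ (n + 1) • p)))) ≤ 2 * C := by
      refine (dist_triangle_left _ _ (f ((2 : ℝ) ^ n • p))).trans ?_
      linarith
    rw [hg.dist_eq, dist_eq_norm] at h5
    rw [dist_eq_norm]
    have e2 : u p n - u p (n + 1) = ((1 : ℝ) / 2 ^ n) •
        (A ((2 : ℝ) ^ n • p) - (1 / 2 : ℝ) • (A 0 + A ((2 : ℝ) ^ (n + 1) • p))) := by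
      simp only [hu]
      have : (1 : ℝ) / 2 ^ (n + 1) = (1 / 2 ^ n) * (1 / 2) := by
        rw [pow_succ]; field_simp
      rw [this]
      module
    rw [e2, norm_smul, Real.norm_of_nonneg (by positivity)]
    calc (1 : ℝ) / 2 ^ n * _ ≤ 1 / 2 ^ n * (2 * C) := by gcongr
      _ = (4 * C) / 2 / 2 ^ n := by ring
  choose a ha using fun p => cauchySeq_tendsto_of_complete (cauchySeq_of_le_geometric_two (hstep p))
  have ha0 : ∀ p, dist (u p 0) (a p) ≤ 4 * C := fun p =>
    dist_le_of_le_geometric_two_of_tendsto₀ (hstep p) (ha p)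
  have hiso : Isometry a := by
    apply Isometry.of_dist_eq
    intro p q
    have h1 : Tendsto (fun n => dist (u p n) (u q n)) atTop (𝓝 (dist (a p) (a q))) :=
      (ha p).dist (ha q)
    have h2 : Tendsto (fun n => dist (u p n) (u q n)) atTop (𝓝 (dist p q)) := by
      have hb : ∀ n : ℕ, |dist (u p n) (u q n) - dist p q| ≤ (2 * C) * (1 / 2) ^ n := by
        intro n
        have e1 : dist (u p n) (u q n) = (1 / 2 ^ n) *
            dist (A ((2 : ℝ) ^ n • p)) (A ((2 : ℝ) ^ n • q)) := by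
          rw [dist_eq_norm, dist_eq_norm]
          have : u p n - u q n = ((1 : ℝ) / 2 ^ n) •
              (A ((2 : ℝ) ^ n • p) - A ((2 : ℝ) ^ n • q)) := by
            simp only [hu]; module
          rw [this, norm_smul, Real.norm_of_nonneg (by positivity)]
        have e2 : dist p q = (1 / 2 ^ n) * dist ((2 : ℝ) ^ n • p) ((2 : ℝ) ^ n • q) := by
          rw [dist_smul₀, Real.norm_of_nonneg (by positivity)]
          field_simp
        have e3 : |dist (A ((2 : ℝ) ^ n • p)) (A ((2 : ℝ) ^ n • q)) -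
            dist ((2 : ℝ) ^ n • p) ((2 : ℝ) ^ n • q)| ≤ 2 * C := by
          have h3 := hA ((2 : ℝ) ^ n • p)
          have h4 := hA ((2 : ℝ) ^ n • q)
          have h5 := dist_triangle4_left (f ((2 : ℝ) ^ n • p)) (f ((2 : ℝ) ^ n • q))
            (g (A ((2 : ℝ) ^ n • p))) (g (A ((2 : ℝ) ^ n • q)))
          have h6 := dist_triangle4 (f ((2 : ℝ) ^ n • p)) (g (A ((2 : ℝ) ^ n • p)))
            (g (A ((2 : ℝ) ^ n • q))) (f ((2 : ℝ) ^ n • q))
          rw [hg.dist_eq, hf.dist_eq] at h5 h6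
          rw [dist_comm (g (A ((2 : ℝ) ^ n • q)))] at h6
          rw [abs_le]
          constructor <;> linarith
        rw [e1, e2, ← mul_sub, abs_mul, abs_of_pos (by positivity : (0 : ℝ) < 1 / 2 ^ n)]
        calc (1 : ℝ) / 2 ^ n * _ ≤ 1 / 2 ^ n * (2 * C) := by gcongr
          _ = (2 * C) * (1 / 2) ^ n := by rw [one_div_pow]; ring
      have h3 : Tendsto (fun n : ℕ => (2 * C) * (1 / 2 : ℝ) ^ n) atTop (𝓝 0) := by
        have := (tendsto_pow_atTop_nhds_zero_of_lt_one (r := (1 / 2 : ℝ)) (by norm_num)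
          (by norm_num)).const_mul (2 * C)
        simpa using this
      have h4 := squeeze_zero (fun n => abs_nonneg _) hb h3
      have h5 := ((tendsto_zero_iff_abs_tendsto_zero _).2 h4).add_const (dist p q)
      simpa using h5
    exact tendsto_nhds_unique h1 h2
  refine ⟨fun p => a p + A 0, ?_, 5 * C, fun p => ?_⟩
  · intro p q
    rw [edist_add_right, hiso]
  · have h1 := ha0 p
    have h2 : u p 0 = A p - A 0 := by simp [hu]
    rw [h2, dist_eq_norm] at h1
    have h3 : dist (g (A p)) (g (a p + A 0)) ≤ 4 * C := by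
      rw [hg.dist_eq, dist_eq_norm]
      have : A p - (a p + A 0) = A p - A 0 - a p := by abel
      rw [this]; exact h1
    have h4 := dist_triangle (f p) (g (A p)) (g (a p + A 0))
    have h5 := hA p
    linarith

end Straighten

section Final

variable {Γ : Type*} [Group Γ] [MulAction Γ X] [IsIsometricSMul Γ X]

theorem surj_plane {a : Plane → Plane} (ha : Isometry a) : Function.Surjective a :=
  surj_of_isometry ha

/-- Passing to representatives modulo a countable group. -/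
theorem refine_countable [Countable Γ] (hX : IsCAT0 X) {F : ℝ → Plane → X}
    (hF : ∀ s, Isometry (F s))
    (hpar : ∀ s t, s ≠ t → ∀ a : Plane → Plane, Isometry a →
      ¬ ∃ C : ℝ, ∀ p, dist (F s p) (F t (a p)) ≤ C) :
    ∃ F : ℝ → Plane → X, (∀ s, Isometry (F s)) ∧
      ∀ s t, s ≠ t → ∀ (γ : Γ) (C : ℝ), ∃ p, ∀ q, C < dist (F s p) (γ • F t q) := by
  let r : ℝ → ℝ → Prop := fun s t => ∃ γ : Γ, ∃ a : Plane → Plane, Isometry a ∧
    ∃ C : ℝ, ∀ p, dist (F s p) (γ • F t (a p)) ≤ C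
  have hrefl : ∀ s, r s s := fun s => ⟨1, id, isometry_id, 0, fun p => by simp⟩
  have hsymm : ∀ s t, r s t → r t s := by
    rintro s t ⟨γ, a, ha, C, hC⟩
    obtain ⟨e, he⟩ := exists_equiv_of_isometry ha
    refine ⟨γ⁻¹, e.symm, e.symm.isometry, C, fun p => ?_⟩
    have h1 := hC (e.symm p)
    rw [← he, e.apply_symm_apply] at h1
    rw [← dist_smul γ, smul_inv_smul, dist_comm]
    exact h1
  have htrans : ∀ s t u, r s t → r t u → r s u := by
    rintro s t u ⟨γ, a, ha, C, hC⟩ ⟨γ', a', ha', C', hC'⟩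
    refine ⟨γ * γ', a' ∘ a, ha'.comp ha, C + C', fun p => ?_⟩
    have h1 := hC p
    have h2 := hC' (a p)
    rw [← dist_smul γ] at h2
    have h3 := dist_triangle (F s p) (γ • F t (a p)) (γ • γ' • F u (a' (a p)))
    rw [mul_smul]
    exact h3.trans (add_le_add h1 h2)
  let S : Setoid ℝ := ⟨r, hrefl, fun h => hsymm _ _ h, fun h h' => htrans _ _ _ h h'⟩
  have hclass : ∀ s, {t | r s t}.Countable := by
    intro s
    have h1 : {t | r s t} ⊆ ⋃ γ : Γ, {t | ∃ a : Plane → Plane, Isometry a ∧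
        ∃ C : ℝ, ∀ p, dist (F s p) (γ • F t (a p)) ≤ C} := by
      rintro t ⟨γ, h⟩
      exact mem_iUnion.2 ⟨γ, h⟩
    refine Set.Countable.mono h1 (countable_iUnion fun γ => Set.Subsingleton.countable ?_)
    rintro t ⟨a, ha, C, hC⟩ t' ⟨a', ha', C', hC'⟩
    by_contra hne
    obtain ⟨e, he⟩ := exists_equiv_of_isometry ha
    refine hpar t t' hne (a' ∘ e.symm) (ha'.comp e.symm.isometry) ⟨C + C', fun p => ?_⟩
    have h1 := hC (e.symm p)
    rw [← he, e.apply_symm_apply] at h1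
    have h2 := hC' (e.symm p)
    rw [← dist_smul γ]
    exact (dist_triangle_left _ _ _).trans (add_le_add h1 h2)
  have hcard : Nonempty (ℝ ↪ Quotient S) := by
    have h1 : Cardinal.mk ℝ ≤ Cardinal.mk (Quotient S) * Cardinal.aleph0 := by
      apply Cardinal.mk_le_mk_mul_of_mk_preimage_le (Quotient.mk S)
      intro b
      induction b using Quotient.inductionOn with
      | h s =>
        have : (Quotient.mk S) ⁻¹' {Quotient.mk S s} ⊆ {t | r s t} := by
          intro t ht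
          have h2 : Quotient.mk S t = Quotient.mk S s := ht
          exact hsymm _ _ (Quotient.exact h2)
        exact Cardinal.le_aleph0_iff_set_countable.2 ((hclass s).mono this)
    rw [Cardinal.mk_real] at h1
    have h2 : Cardinal.continuum ≤ Cardinal.mk (Quotient S) := by
      by_contra hlt
      push Not at hlt
      have h3 := Cardinal.mul_lt_of_lt Cardinal.aleph0_le_continuum hlt
        Cardinal.aleph0_lt_continuum
      exact absurd h1 (not_le.2 h3)
    rw [← Cardinal.mk_real] at h2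
    exact h2
  obtain ⟨emb⟩ := hcard
  refine ⟨fun s => F (emb s).out, fun s => hF _, ?_⟩
  intro s t hst γ C
  by_contra hcon
  push Not at hcon
  choose A hA using hcon
  have hγ : Isometry (fun q => γ • F (emb t).out q) :=
    (isometry_smul X γ).comp (hF _)
  obtain ⟨a, ha, C', hC'⟩ := straighten hX (hF (emb s).out) hγ hA
  have h1 : r (emb s).out (emb t).out := ⟨γ, a, ha, C', hC'⟩
  have h2 : (Quotient.mk S (emb s).out) = Quotient.mk S (emb t).out := Quotient.sound h1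
  rw [Quotient.out_eq, Quotient.out_eq] at h2
  exact hst (emb.injective h2)

/-- the case of a recurrent flat -/
theorem recurrent_case [ProperSpace X] (hX : IsCAT0 X)
    (hfree : ∀ (γ : Γ) (x : X), γ • x = x → γ = 1) {K₀ : Set X} (hK₀ : IsCompact K₀)
    (hco : ∀ x : X, ∃ γ : Γ, γ • x ∈ K₀) {f : Plane → X} (hf : Isometry f) {m n : ℝ}
    (h : ∀ p : Plane, ∃ γ : Γ, ∃ B : Plane ≃ᵢ Plane,
      ‖B 0 - p‖ ≤ m ∧ ∀ q, dist (γ • f (B q)) (f q) ≤ n) :
    (∃ f : Plane → X, Isometry f ∧ ∃ u v : Plane, LinearIndependent ℝ ![u, v] ∧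
      ∃ γ₁ γ₂ : Γ, ∀ p, γ₁ • f p = f (p + u) ∧ γ₂ • f p = f (p + v)) ∨
    ∃ F : ℝ → Plane → X, (∀ x, Isometry (F x)) ∧ ∀ x y, x ≠ y → ∀ A : Plane → Plane,
      ¬ ∃ C : ℝ, ∀ p, dist (F x p) (F y (A p)) ≤ C := by
  by_cases hb : ∃ R, ∀ g ∈ Fam f, dist (f 0) (g 0) ≤ R
  · left
    obtain ⟨R, hR⟩ := hb
    obtain ⟨g₀, hg₀, hinv⟩ := exists_center hX hf hR
    have hg₀i : Isometry g₀ := hg₀.1
    set S : Set (Plane → Plane) := {B | Isometry B ∧ ∃ γ : Γ, ∀ q, γ • g₀ (B q) = g₀ q} with hS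
    have hcomp : ∀ B ∈ S, ∀ B' ∈ S, (fun p => B (B' p)) ∈ S := by
      rintro B ⟨hB, γ, hγ⟩ B' ⟨hB', γ', hγ'⟩
      refine ⟨hB.comp hB', γ' * γ, fun q => ?_⟩
      rw [mul_smul, hγ, hγ']
    have hfix : ∀ B ∈ S, (∃ q, B q = q) → ∀ q, B q = q := by
      rintro B ⟨hB, γ, hγ⟩ ⟨q, hq⟩ q'
      have h1 := hγ q
      rw [hq] at h1
      have h2 := hfree γ _ h1
      have h3 := hγ q'
      rw [h2, one_smul] at h3
      exact hg₀i.injective h3
    have hco' : ∀ p, ∃ B ∈ S, ‖B 0 - p‖ ≤ m + n := by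
      intro p
      obtain ⟨γ, B, hB, hγ⟩ := h p
      have hgi : Isometry (fun q => γ • f (B q)) :=
        (isometry_smul X γ).comp (hf.comp B.isometry)
      have hnear : Near f (fun q => γ • f (B q)) :=
        ⟨n, fun q => by rw [dist_comm]; exact hγ q⟩
      obtain ⟨v, δ, hδ, hal⟩ := exists_align hX hf hgi hnear
      have hv : ‖v‖ ≤ n := by
        have h1 := hal 0 (-v)
        simp only [neg_add_cancel, zero_sub, neg_neg] at h1
        have h2 := hγ 0
        rw [dist_comm] at h2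
        have h3 := pow_le_pow_left₀ dist_nonneg h2 2
        rw [h1] at h3
        have h4 : ‖v‖ ^ 2 ≤ n ^ 2 := by nlinarith [sq_nonneg δ]
        exact (abs_le_of_sq_le_sq' h4 (dist_nonneg.trans h2)).2
      refine ⟨fun q => B (q + v), ⟨?_, γ, ?_⟩, ?_⟩
      · exact isometry_translate B.isometry v
      · intro q
        have h1 := hinv (IsometryEquiv.constSMul γ) ((IsometryEquiv.addRight v).trans B)
          ⟨δ, hal⟩ q
        simpa using h1
      · have h1 : dist (B (0 + v)) (B 0) = ‖v‖ := by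
          rw [B.isometry.dist_eq, dist_eq_norm]; simp
        rw [dist_eq_norm] at h1
        have h2 : B (0 + v) - p = (B (0 + v) - B 0) + (B 0 - p) := by abel
        rw [h2]
        refine (norm_add_le _ _).trans ?_
        linarith
    obtain ⟨u, v, huv, ⟨-, γ₁, h₁⟩, ⟨-, γ₂, h₂⟩⟩ := exists_periods (fun B hB => hB.1) hcomp hfix hco'
    refine ⟨g₀, hg₀i, u, v, huv, γ₁⁻¹, γ₂⁻¹, fun p => ⟨?_, ?_⟩⟩
    · rw [inv_smul_eq_iff]; exact (h₁ p).symm
    · rw [inv_smul_eq_iff]; exact (h₂ p).symm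
  · right
    push Not at hb
    have hthick : ∀ n : ℕ, ∃ G : Plane → ℝ → X, ∀ s ∈ Icc (-(n : ℝ)) n, ∀ t ∈ Icc (-(n : ℝ)) n,
        ∀ p q, dist (G p s) (G q t) ^ 2 = ‖p - q‖ ^ 2 + (s - t) ^ 2 := by
      intro n
      obtain ⟨g, ⟨hg, δ, hal⟩, hlt⟩ := hb (2 * (n + 1))
      rw [hal.dist_self] at hlt
      obtain ⟨G, hG⟩ := hal.slab hX hf hg (r := (n + 1 : ℝ)) (by positivity) hlt.le
      refine ⟨G, fun s hs t ht => hG s ?_ t ?_⟩
      · rw [mem_Icc] at hs ⊢; constructor <;> linarith [hs.1, hs.2]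
      · rw [mem_Icc] at ht ⊢; constructor <;> linarith [ht.1, ht.2]
    obtain ⟨Ψ, hΨ⟩ := exists_thick hK₀ hco hthick
    exact exists_tilted hΨ

theorem dichotomy [ProperSpace X] [Countable Γ] (hX : IsCAT0 X)
    (hfree : ∀ (γ : Γ) (x : X), γ • x = x → γ = 1)
    (hco : ∃ K : Set X, IsCompact K ∧ ∀ x : X, ∃ γ : Γ, γ • x ∈ K)
    (hflat : ∃ f : Plane → X, Isometry f) :
    (∃ f : Plane → X, Isometry f ∧ ∃ u v : Plane, LinearIndependent ℝ ![u, v] ∧
      ∃ γ₁ γ₂ : Γ, ∀ p, γ₁ • f p = f (p + u) ∧ γ₂ • f p = f (p + v)) ∨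
    ∃ F : ℝ → Plane → X, (∀ s, Isometry (F s)) ∧
      ∀ s t, s ≠ t → ∀ (γ : Γ) (C : ℝ), ∃ p, ∀ q, C < dist (F s p) (γ • F t q) := by
  obtain ⟨K₀, hK₀, hco⟩ := hco
  rcases exists_recurrent (Γ := Γ) hK₀ hco hflat with ⟨φ, hφ, hφ'⟩ | ⟨f, hf, m, n, h⟩
  · right
    have hcard : Nonempty (ℝ ≃ (ℕ → Bool)) := by
      apply Cardinal.eq.1
      rw [Cardinal.mk_real]
      simp
    obtain ⟨e⟩ := hcard
    exact refine_countable hX (F := fun s => φ (e s)) (fun s => hφ _)
      (fun s t hst => hφ' _ _ (fun h => hst (e.injective h)))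
  · rcases recurrent_case hX hfree hK₀ hco hf h with h1 | ⟨F, hF, hF'⟩
    · exact Or.inl h1
    · exact Or.inr (refine_countable hX hF fun s t hst a _ => hF' s t hst a)

end Final

end Pool.Agent.Helper39.Flats
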