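import Pool.Agent.Helper39.Flats.Hull

set_option linter.unusedSectionVars false

namespace Pool.Agent.Helper39.Flats

open Set Filter Topology

variable {X : Type*} [MetricSpace X]
variable {Γ : Type*} [Group Γ] [MulAction Γ X] [IsIsometricSMul Γ X]

theorem countable_of_proper [Nonempty X]
    (hproper : ∀ (x : X) (R : ℝ), {γ : Γ | dist (γ • x) x ≤ R}.Finite) : Countable Γ := by
  obtain ⟨x⟩ := ‹Nonempty X›
  rw [← Set.countable_univ_iff]
  have h1 : (univ : Set Γ) = ⋃ n : ℕ, {γ : Γ | dist (γ • x) x ≤ n} := by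
    ext γ
    simp only [mem_univ, mem_iUnion, mem_ofPred_eq, true_iff]
    exact exists_nat_ge _
  rw [h1]
  exact countable_iUnion fun n => (hproper x n).countable

/-- A spanning set of periods gives a closed flat of dimension two. -/
theorem exists_plane {V : Type*} [NormedAddCommGroup V] [InnerProductSpace ℝ V]
    [FiniteDimensional ℝ V] (hdim : 2 ≤ Module.finrank ℝ V) {P : Set V}
    (hP : Submodule.span ℝ P = ⊤) :
    ∃ L : Plane →ₗᵢ[ℝ] V, Submodule.span ℝ {w : Plane | L w ∈ P} = ⊤ := by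
  have h1 : ∃ u ∈ P, u ≠ 0 := by
    by_contra hcon
    push Not at hcon
    have : Submodule.span ℝ P = ⊥ := Submodule.span_eq_bot.2 hcon
    rw [hP] at this
    have h2 := congrArg (fun W : Submodule ℝ V => Module.finrank ℝ W) this
    simp only [finrank_top, finrank_bot] at h2
    omega
  obtain ⟨u, hu, hu0⟩ := h1
  have h2 : ∃ v ∈ P, v ∉ Submodule.span ℝ {u} := by
    by_contra hcon
    push Not at hcon
    have h3 : Submodule.span ℝ P ≤ Submodule.span ℝ {u} := Submodule.span_le.2 hcon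
    rw [hP] at h3
    have h4 := finrank_span_singleton (K := ℝ) hu0
    have h5 := Submodule.finrank_mono h3
    rw [finrank_top, h4] at h5
    omega
  obtain ⟨v, hv, hvu⟩ := h2
  have hli : LinearIndependent ℝ ![u, v] := by
    rw [LinearIndependent.pair_iff' hu0]
    intro a ha
    exact hvu (ha ▸ Submodule.smul_mem _ _ (Submodule.mem_span_singleton_self u))
  set W := Submodule.span ℝ (range ![u, v]) with hW
  have hWf : Module.finrank ℝ W = 2 := by
    rw [hW, finrank_span_eq_card hli]; simp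
  have huW : u ∈ W := Submodule.subset_span ⟨0, rfl⟩
  have hvW : v ∈ W := Submodule.subset_span ⟨1, rfl⟩
  let e : W ≃ₗᵢ[ℝ] Plane := ((stdOrthonormalBasis ℝ W).reindex (finCongr hWf)).repr
  let L : Plane →ₗᵢ[ℝ] V := W.subtypeₗᵢ.comp e.symm.toLinearIsometry
  have hL : ∀ w : W, L (e w) = w := by
    intro w
    simp [L]
  refine ⟨L, ?_⟩
  rw [eq_top_iff]
  have h3 : ∀ w : W, e w ∈ Submodule.span ℝ {w : Plane | L w ∈ P} := by
    rintro ⟨w, hw⟩
    -- w is a combination of u and v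
    have h4 : ∃ a b : ℝ, w = a • u + b • v := by
      rw [hW, Matrix.range_cons, Matrix.range_cons, Matrix.range_empty, union_empty,
        singleton_union, Submodule.mem_span_pair] at hw
      obtain ⟨a, b, hab⟩ := hw
      exact ⟨a, b, hab.symm⟩
    obtain ⟨a, b, hab⟩ := h4
    have h5 : (⟨w, hw⟩ : W) = a • ⟨u, huW⟩ + b • ⟨v, hvW⟩ := by
      apply Subtype.ext
      simpa using hab
    rw [h5, map_add, map_smul, map_smul]
    refine Submodule.add_mem _ (Submodule.smul_mem _ _ (Submodule.subset_span ?_))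
      (Submodule.smul_mem _ _ (Submodule.subset_span ?_))
    · change L (e ⟨u, huW⟩) ∈ P
      rw [hL]; exact hu
    · change L (e ⟨v, hvW⟩) ∈ P
      rw [hL]; exact hv
  intro z _
  have := h3 (e.symm z)
  rwa [e.apply_symm_apply] at this

theorem isometry_of_mem_hull {V : Type*} [NormedAddCommGroup V] [InnerProductSpace ℝ V]
    {f g : V → X} (hf : Isometry f) (hg : g ∈ Hull Γ f) : Isometry g := by
  have h1 : Hull Γ f ⊆ {g : V → X | Isometry g} := by
    apply closure_minimal _ isClosed_isometry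
    rintro _ ⟨γ, v, rfl⟩
    exact (isometry_smul X γ).comp (isometry_translate hf v)
  exact h1 hg

/-- Dichotomy for flats of maximal dimension. -/
theorem maximal_dichotomy [ProperSpace X] (hX : IsCAT0 X)
    (hproper : ∀ (x : X) (R : ℝ), {γ : Γ | dist (γ • x) x ≤ R}.Finite)
    (hco : ∃ K : Set X, IsCompact K ∧ ∀ x : X, ∃ γ : Γ, γ • x ∈ K) {k : ℕ}
    (hk : ∀ f : EuclideanSpace ℝ (Fin (k + 1)) → X, ¬ Isometry f)
    {f₀ : EuclideanSpace ℝ (Fin k) → X} (hf₀ : Isometry f₀) :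
    (∃ f ∈ Hull Γ f₀, ∃ g : EuclideanSpace ℝ (Fin k) → X, Isometry g ∧
      (∃ C, ∀ p, dist (f p) (g p) ≤ C) ∧
      Submodule.span ℝ {v | ∃ γ : Γ, ∀ p, γ • g p = g (p + v)} = ⊤) ∨
    ∃ F : ℝ → EuclideanSpace ℝ (Fin k) → X, (∀ s, Isometry (F s) ∧ F s ∈ Hull Γ f₀) ∧
      ∀ s t, s ≠ t → ∀ (γ : Γ) (C : ℝ), ∃ p, ∀ q, C < dist (F s p) (γ • F t q) := by
  obtain ⟨K₀, hK₀, hco⟩ := hco
  have hne : Nonempty X := ⟨f₀ 0⟩
  have hcount : Countable Γ := countable_of_proper hproper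
  rcases exists_recurrent_in (Γ := Γ) hK₀ hco hf₀ with ⟨φ, hφ, hφ'⟩ | ⟨f, hf, hfh, m, n, h⟩
  · right
    have hcard : Nonempty (ℝ ≃ (ℕ → Bool)) := by
      apply Cardinal.eq.1
      rw [Cardinal.mk_real]
      simp
    obtain ⟨e⟩ := hcard
    obtain ⟨e', he'⟩ := refine_countable' (Γ := Γ) hX (F := fun s => φ (e s))
      (fun s => (hφ _).1) (fun s t hst => hφ' _ _ (fun h => hst (e.injective h)))
    exact ⟨fun s => φ (e (e' s)), fun s => hφ _, he'⟩
  · rcases recurrent_case' hX hproper hK₀ hco hf h with ⟨g, hg, hgn, hspan⟩ | ⟨Ψ, hΨ⟩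
    · exact Or.inl ⟨f, hfh, g, hg, hgn, hspan⟩
    · obtain ⟨f', hf'⟩ := exists_succ hΨ
      exact absurd hf' (hk f')

theorem exists_maximal [ProperSpace X]
    (hco : ∃ K : Set X, IsCompact K ∧ ∀ x : X, ∃ γ : Γ, γ • x ∈ K)
    (hflat : ∃ f : Plane → X, Isometry f) :
    ∃ k : ℕ, 2 ≤ k ∧ (∃ f : EuclideanSpace ℝ (Fin k) → X, Isometry f) ∧
      ∀ f : EuclideanSpace ℝ (Fin (k + 1)) → X, ¬ Isometry f := by
  obtain ⟨K₀, hK₀, hco⟩ := hco
  obtain ⟨N, hN⟩ := exists_max_dim hK₀ hco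
  by_contra hcon
  push Not at hcon
  have h1 : ∀ k : ℕ, ∃ f : EuclideanSpace ℝ (Fin (k + 2)) → X, Isometry f := by
    intro k
    induction k with
    | zero => exact hflat
    | succ k ih =>
      obtain ⟨f, hf⟩ := ih
      exact hcon (k + 2) (by omega) ⟨f, hf⟩
  obtain ⟨f, hf⟩ := h1 N
  have := hN _ f hf
  omega

end Pool.Agent.Helper39.Flats
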