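import Pool.Agent.Helper39.Flats.Maximal

/-!
# MP_3fb288_gt: closed flats, or continuum many pairwise non-parallel flats of maximal dimension

Let `X` be a proper CAT(0) space with a properly discontinuous cocompact isometric action of a
group `Γ` (for instance the universal cover of a compact manifold of nonpositive curvature with its
deck group), and suppose that `X` contains a flat plane.  Let `k ≥ 2` be the largest dimension of a
flat in `X` (it exists).  For every `k`-flat `f₀` of `X`, one of the following holds.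

* Some flat in the hull of `f₀` (the closure of its translates) is parallel to a `k`-flat `g` with
  `k` independent periods, i.e. to a closed `k`-flat of `X / Γ`; in particular `X / Γ` has a closed
  two-dimensional flat, contained in the image of `g`.
* The hull of `f₀` contains a family of continuum many `k`-flats such that no member lies in a
  bounded neighbourhood of a `Γ`-translate of another member.
-/

namespace Pool.Agent.Results.MP_3fb288_gt.MaximalFlats

open Pool.Agent.Helper39.Flats

/-- The periods of the flat `g`: the vectors `v` such that some element of `Γ` acts on the image of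
`g` as the translation by `v`. -/
def periods (Γ : Type*) {X V : Type*} [SMul Γ X] [Add V] (g : V → X) : Set V :=
  {v | ∃ γ : Γ, ∀ p, γ • g p = g (p + v)}

theorem result {X : Type*} [MetricSpace X] [ProperSpace X] (hX : IsCAT0 X)
    {Γ : Type*} [Group Γ] [MulAction Γ X] [IsIsometricSMul Γ X]
    (hproper : ∀ (x : X) (r : ℝ), {γ : Γ | dist (γ • x) x ≤ r}.Finite)
    (hcocompact : ∃ K : Set X, IsCompact K ∧ ∀ x : X, ∃ γ : Γ, γ • x ∈ K)
    (hflat : ∃ f : EuclideanSpace ℝ (Fin 2) → X, Isometry f) :
    ∃ k : ℕ, 2 ≤ k ∧ (∃ f : EuclideanSpace ℝ (Fin k) → X, Isometry f) ∧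
      (∀ f : EuclideanSpace ℝ (Fin (k + 1)) → X, ¬ Isometry f) ∧
      ∀ f₀ : EuclideanSpace ℝ (Fin k) → X, Isometry f₀ →
        (∃ f ∈ Hull Γ f₀, ∃ g : EuclideanSpace ℝ (Fin k) → X, Isometry g ∧
          (∃ C : ℝ, ∀ p, dist (f p) (g p) ≤ C) ∧
          Submodule.span ℝ (periods Γ g) = ⊤ ∧
          ∃ L : EuclideanSpace ℝ (Fin 2) →ₗᵢ[ℝ] EuclideanSpace ℝ (Fin k),
            Submodule.span ℝ (periods Γ (g ∘ L)) = ⊤) ∨
        (∃ F : ℝ → EuclideanSpace ℝ (Fin k) → X,
          (∀ s, Isometry (F s) ∧ F s ∈ Hull Γ f₀) ∧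
          ∀ s t, s ≠ t → ∀ (γ : Γ) (C : ℝ), ∃ p, ∀ q, C < dist (F s p) (γ • F t q)) := by
  obtain ⟨k, hk2, hk, hmax⟩ := exists_maximal hcocompact hflat
  refine ⟨k, hk2, hk, hmax, fun f₀ hf₀ => ?_⟩
  rcases maximal_dichotomy hX hproper hcocompact hmax hf₀ with
    ⟨f, hf, g, hg, hC, hspan⟩ | h
  · left
    refine ⟨f, hf, g, hg, hC, hspan, ?_⟩
    obtain ⟨L, hL⟩ := exists_plane (V := EuclideanSpace ℝ (Fin k)) (by simpa using hk2) hspan
    refine ⟨L, ?_⟩
    rw [eq_top_iff, ← hL]
    apply Submodule.span_mono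
    rintro v ⟨γ, hγ⟩
    refine ⟨γ, fun p => ?_⟩
    have := hγ (L p)
    simpa using this
  · exact Or.inr h

end Pool.Agent.Results.MP_3fb288_gt.MaximalFlats
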