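import Pool.Agent.Helper39.Flats.Pig

set_option linter.unusedSectionVars false

namespace Pool.Agent.Helper39.Flats

open Set Filter Topology

variable {X : Type*} [MetricSpace X]
variable {V : Type*} [NormedAddCommGroup V] [InnerProductSpace ℝ V]
variable {Γ : Type*} [Group Γ] [MulAction Γ X] [IsIsometricSMul Γ X]

/-- Aligned periods of a flat (periods up to parallelism). -/
def Pers (Γ : Type*) [Group Γ] [MulAction Γ X] (g : V → X) : Set V :=
  {b | ∃ τ : Γ, ∃ δ, Al g (fun p => τ • g (p - b)) δ}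

/-- There is no flat of the form `V × ℝ`. -/
def NoThick (V X : Type*) [NormedAddCommGroup V] [MetricSpace X] : Prop :=
  ¬ ∃ Ψ : V → ℝ → X, ∀ p q s t, dist (Ψ p s) (Ψ q t) ^ 2 = ‖p - q‖ ^ 2 + (s - t) ^ 2

theorem exists_width [ProperSpace X] {K₀ : Set X} (hK₀ : IsCompact K₀)
    (hco : ∀ x : X, ∃ γ : Γ, γ • x ∈ K₀) (hX : IsCAT0 X) (hno : NoThick V X) :
    ∃ R : ℝ, 0 ≤ R ∧ ∀ f g : V → X, Isometry f → Isometry g → ∀ δ, Al f g δ → |δ| ≤ R := by
  by_contra hcon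
  push Not at hcon
  apply hno
  have hthick : ∀ n : ℕ, ∃ G : V → ℝ → X, ∀ s ∈ Icc (-(n : ℝ)) n, ∀ t ∈ Icc (-(n : ℝ)) n,
      ∀ p q, dist (G p s) (G q t) ^ 2 = ‖p - q‖ ^ 2 + (s - t) ^ 2 := by
    intro n
    obtain ⟨f, g, hf, hg, δ, hal, hlt⟩ := hcon (2 * (n + 1)) (by positivity)
    obtain ⟨G, hG⟩ := hal.slab hX hf hg (r := (n + 1 : ℝ)) (by positivity) hlt.le
    refine ⟨G, fun s hs t ht => hG s ?_ t ?_⟩
    · rw [mem_Icc] at hs ⊢; constructor <;> linarith [hs.1, hs.2]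
    · rw [mem_Icc] at ht ⊢; constructor <;> linarith [ht.1, ht.2]
  exact exists_thick hK₀ hco hthick

/-- Minimal closed invariant sets. -/
structure IsMin (Γ : Type*) [Group Γ] [MulAction Γ X] [IsIsometricSMul Γ X]
    (K : Set (Fl V X)) : Prop where
  closed : IsClosed K
  inv : Inv Γ K
  min : ∀ K' : Set (Fl V X), IsClosed K' → K'.Nonempty → Inv Γ K' → K' ⊆ K → K' = K

theorem Pers.closed_set (b : V) (τ : Γ) :
    IsClosed {h : Fl V X | ∀ p q, dist (h.1 p) (τ • h.1 (q - b)) ^ 2 =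
      ‖p - q‖ ^ 2 + dist (h.1 0) (τ • h.1 (0 - b)) ^ 2} := by
  have : {h : Fl V X | ∀ p q, dist (h.1 p) (τ • h.1 (q - b)) ^ 2 =
      ‖p - q‖ ^ 2 + dist (h.1 0) (τ • h.1 (0 - b)) ^ 2} =
      ⋂ p, ⋂ q, {h : Fl V X | dist (h.1 p) (τ • h.1 (q - b)) ^ 2 =
      ‖p - q‖ ^ 2 + dist (h.1 0) (τ • h.1 (0 - b)) ^ 2} := by
    ext h; simp
  rw [this]
  have hev : ∀ v : V, Continuous fun h : Fl V X => h.1 v := fun v =>
    (continuous_apply v).comp continuous_subtype_val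
  refine isClosed_iInter fun p => isClosed_iInter fun q => ?_
  apply isClosed_eq
  · exact ((hev p).dist ((hev _).const_smul τ)).pow 2
  · exact continuous_const.add (((hev 0).dist ((hev _).const_smul τ)).pow 2)

theorem mem_pers_iff {h : V → X} {b : V} {τ : Γ} : (∃ δ, Al h (fun p => τ • h (p - b)) δ) ↔
    ∀ p q, dist (h p) (τ • h (q - b)) ^ 2 = ‖p - q‖ ^ 2 + dist (h 0) (τ • h (0 - b)) ^ 2 := by
  constructor
  · rintro ⟨δ, hδ⟩ p q
    have h1 := hδ p q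
    have h2 := hδ 0 0
    simp only [sub_self, norm_zero] at h2
    rw [h1, h2]; ring
  · intro h1
    exact ⟨dist (h 0) (τ • h (0 - b)), fun p q => h1 p q⟩

/-- All flats of a minimal set have the same aligned periods. -/
theorem IsMin.pers [ProperSpace X] {K₀ : Set X} (hK₀ : IsCompact K₀)
    (hco : ∀ x : X, ∃ γ : Γ, γ • x ∈ K₀) (hX : IsCAT0 X) (hno : NoThick V X)
    (hproper : ∀ (x : X) (R : ℝ), {γ : Γ | dist (γ • x) x ≤ R}.Finite)
    {K : Set (Fl V X)} (hK : IsMin Γ K) {g h : Fl V X} (hg : g ∈ K) (hh : h ∈ K) {b : V}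
    (hb : b ∈ Pers Γ g.1) : b ∈ Pers Γ h.1 := by
  obtain ⟨R, hR0, hR⟩ := exists_width hK₀ hco hX hno
  set Kb : Set (Fl V X) := {h | h ∈ K ∧ b ∈ Pers Γ h.1} with hKb
  have hiso : ∀ (h : Fl V X) (τ : Γ) (b : V), Isometry (fun p => τ • h.1 (p - b)) := by
    intro h τ b
    have := (isometry_smul X τ).comp (isometry_translate h.2 (-b))
    simpa [Function.comp_def, sub_eq_add_neg] using this
  have hcl : IsClosed Kb := by
    apply isClosed_of_closure_subset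
    intro h₀ hh₀
    have hh₀K : h₀ ∈ K := hK.closed.closure_subset_iff.2 (fun x hx => hx.1) hh₀
    refine ⟨hh₀K, ?_⟩
    set N : Set (Fl V X) := {h | dist (h.1 0) (h₀.1 0) < 1} with hN
    have hNo : IsOpen N := by
      apply isOpen_lt _ continuous_const
      exact ((continuous_apply (0 : V)).comp continuous_subtype_val).dist continuous_const
    have hh₀N : h₀ ∈ N := by simp [hN]
    have hΦ := hproper (h₀.1 0) (2 + R + ‖b‖)
    have hcov : N ∩ Kb ⊆ ⋃ τ ∈ {γ : Γ | dist (γ • h₀.1 0) (h₀.1 0) ≤ 2 + R + ‖b‖},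
        {h : Fl V X | ∀ p q, dist (h.1 p) (τ • h.1 (q - b)) ^ 2 =
          ‖p - q‖ ^ 2 + dist (h.1 0) (τ • h.1 (0 - b)) ^ 2} := by
      rintro h ⟨hhN, hhK, τ, δ, hδ⟩
      rw [mem_iUnion₂]
      refine ⟨τ, ?_, mem_pers_iff.1 ⟨δ, hδ⟩⟩
      have h1 := hR h.1 _ h.2 (hiso h τ b) δ hδ
      have h2 := hδ.dist_self 0
      have h3 : dist (τ • h.1 (0 - b)) (τ • h.1 0) = ‖b‖ := by
        rw [dist_smul, h.2.dist_eq, dist_eq_norm]; simp
      have h4 : dist (h.1 0) (h₀.1 0) < 1 := hhN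
      have h5 : dist (τ • h₀.1 0) (τ • h.1 0) < 1 := by rw [dist_smul, dist_comm]; exact h4
      change dist (τ • h₀.1 0) (h₀.1 0) ≤ 2 + R + ‖b‖
      have t1 := dist_triangle4 (τ • h₀.1 0) (τ • h.1 0) (τ • h.1 (0 - b)) (h.1 0)
      have t2 := dist_triangle (τ • h₀.1 0) (h.1 0) (h₀.1 0)
      rw [dist_comm (τ • h.1 0) (τ • h.1 (0 - b)), dist_comm (τ • h.1 (0 - b)) (h.1 0)] at t1
      linarith
    have hcl' : IsClosed (⋃ τ ∈ {γ : Γ | dist (γ • h₀.1 0) (h₀.1 0) ≤ 2 + R + ‖b‖},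
        {h : Fl V X | ∀ p q, dist (h.1 p) (τ • h.1 (q - b)) ^ 2 =
          ‖p - q‖ ^ 2 + dist (h.1 0) (τ • h.1 (0 - b)) ^ 2}) :=
      hΦ.isClosed_biUnion fun τ _ => Pers.closed_set b τ
    have h1 : h₀ ∈ closure (N ∩ Kb) := hNo.inter_closure ⟨hh₀N, hh₀⟩
    have h2 := (hcl'.closure_subset_iff.2 hcov) h1
    rw [mem_iUnion₂] at h2
    obtain ⟨τ, -, h3⟩ := h2
    exact ⟨τ, mem_pers_iff.2 h3⟩
  have hinv : Inv Γ Kb := by
    rintro γ v h ⟨hhK, τ, δ, hδ⟩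
    refine ⟨hK.inv γ v h hhK, γ * τ * γ⁻¹, δ, ?_⟩
    have h1 := hδ.comp (isometry_smul X γ) (B := fun p => p + v)
      (IsometryEquiv.addRight v).isometry
    have h2 : (fun p => (γ * τ * γ⁻¹) • (act γ v h).1 (p - b)) =
        fun p => γ • τ • h.1 (p + v - b) := by
      funext p
      simp only [act]
      rw [mul_smul, mul_smul, inv_smul_smul]
      have : p - b + v = p + v - b := by abel
      rw [this]
    rw [h2]
    exact h1
  have := hK.min Kb hcl ⟨g, hg, hb⟩ hinv (fun x hx => hx.1)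
  rw [← this] at hh
  exact hh.2

/-- Iterates of an aligned period. -/
theorem al_pow [CompleteSpace V] (hX : IsCAT0 X) {g : V → X} (hg : Isometry g) {b : V} {τ : Γ}
    {δ : ℝ} (h : Al g (fun p => τ • g (p - b)) δ) (n : ℕ) :
    ∃ δ', Al g (fun p => τ ^ n • g (p - (n : ℝ) • b)) δ' := by
  have hiso : ∀ (τ : Γ) (b : V), Isometry (fun p => τ • g (p - b)) := by
    intro τ b
    have := (isometry_smul X τ).comp (isometry_translate hg (-b))
    simpa [Function.comp_def, sub_eq_add_neg] using this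
  induction n with
  | zero => exact ⟨0, by simpa using Al.self hg⟩
  | succ n ih =>
    obtain ⟨δ', hδ'⟩ := ih
    have h1 := hδ'.comp (isometry_smul X τ) (B := fun p => p + (-b))
      (IsometryEquiv.addRight (-b)).isometry
    have h2 : Al (fun p => τ • g (p - b)) (fun p => τ ^ (n + 1) • g (p - ((n + 1 : ℕ) : ℝ) • b))
        δ' := by
      have e1 : (fun p => τ • g (p - b)) = fun p => τ • g (p + -b) := by
        funext p; rw [sub_eq_add_neg]
      have e2 : (fun p => τ ^ (n + 1) • g (p - ((n + 1 : ℕ) : ℝ) • b)) =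
          fun p => τ • τ ^ n • g (p + -b - (n : ℝ) • b) := by
        funext p
        rw [pow_succ', mul_smul]
        congr 3
        push_cast; module
      rw [e1, e2]; exact h1
    obtain ⟨δ'', -, h3⟩ := h.trans hX hg (hiso τ b) (hiso _ _) h2
    exact ⟨δ'', h3⟩

/-- The deep limit. -/
theorem deep_limit [FiniteDimensional ℝ V] [ProperSpace X] {K₀ : Set X} (hK₀ : IsCompact K₀)
    (hco : ∀ x : X, ∃ γ : Γ, γ • x ∈ K₀)
    (hproper : ∀ (x : X) (R : ℝ), {γ : Γ | dist (γ • x) x ≤ R}.Finite)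
    {K : Set (Fl V X)} (hK : IsMin Γ K) {f : Fl V X} (hf : f ∈ K) {e : V} (he : ‖e‖ = 1)
    (τ : Γ) {M : ℝ} (hdisp : ∀ᶠ j : ℕ in atTop, dist (τ • f.1 ((j : ℝ) • e)) (f.1 ((j : ℝ) • e)) ≤ M) :
    ∃ f' ∈ K, ∃ τ' : Γ, ∀ (n : ℕ) (t : V) (C c S : ℝ), 0 ≤ c → c < 1 →
      (∀ z ∈ Cone e c, dist (τ ^ n • f.1 (S • e + z)) (f.1 (S • e + z + t)) ≤ C) →
      ∀ v, dist (τ' ^ n • f'.1 v) (f'.1 (v + t)) ≤ C := by
  choose G hG using fun j : ℕ => hco (f.1 ((j : ℝ) • e))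
  set F : ℕ → Fl V X := fun j => act (G j) ((j : ℝ) • e) f with hF
  have hF0 : ∀ j v, (F j).1 v = G j • f.1 (v + (j : ℝ) • e) := fun j v => rfl
  have hcomp : IsCompact (K ∩ {f : Fl V X | f.1 0 ∈ K₀}) :=
    (isCompact_fl (0 : V) hK₀).inter_left hK.closed
  have hmem : ∀ j, F j ∈ K ∩ {f : Fl V X | f.1 0 ∈ K₀} := by
    intro j
    refine ⟨hK.inv _ _ f hf, ?_⟩
    change (F j).1 0 ∈ K₀
    rw [hF0, zero_add]; exact hG j
  set 𝒰 : Ultrafilter ℕ := hyperfilter ℕ with h𝒰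
  obtain ⟨f', ⟨hf'K, -⟩, hlim⟩ := hcomp.ultrafilter_le_nhds (𝒰.map F) (by
    rw [le_principal_iff]
    exact Ultrafilter.mem_map.2 (Filter.univ_mem' hmem))
  have hlim' : Tendsto F 𝒰 (𝓝 f') := hlim
  have hev : ∀ v : V, Tendsto (fun j => (F j).1 v) 𝒰 (𝓝 (f'.1 v)) := fun v =>
    (((continuous_apply v).comp continuous_subtype_val).tendsto f').comp hlim'
  -- base point bounded: conjugates take finitely many values
  obtain ⟨x₀, hx₀⟩ : K₀.Nonempty := ⟨_, hG 0⟩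
  obtain ⟨R₀, hR₀⟩ := (Metric.isBounded_iff_subset_closedBall x₀).1 hK₀.isBounded
  have hfin := hproper x₀ (2 * R₀ + M)
  have hev2 : ∀ᶠ j in (𝒰 : Filter ℕ), ∃ τ' ∈ {γ : Γ | dist (γ • x₀) x₀ ≤ 2 * R₀ + M},
      G j * τ * (G j)⁻¹ = τ' := by
    have h1 := hdisp.filter_mono (Nat.hyperfilter_le_atTop)
    filter_upwards [h1] with j hj
    refine ⟨_, ?_, rfl⟩
    have h2 : dist (G j • f.1 ((j : ℝ) • e)) x₀ ≤ R₀ := hR₀ (hG j)
    have h3 : dist ((G j * τ * (G j)⁻¹) • x₀)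
        ((G j * τ * (G j)⁻¹) • G j • f.1 ((j : ℝ) • e)) ≤ R₀ := by
      rw [dist_smul, dist_comm]; exact h2
    have h4 : (G j * τ * (G j)⁻¹) • G j • f.1 ((j : ℝ) • e) = G j • τ • f.1 ((j : ℝ) • e) := by
      rw [mul_smul, mul_smul, inv_smul_smul]
    rw [h4] at h3
    have h5 : dist (G j • τ • f.1 ((j : ℝ) • e)) (G j • f.1 ((j : ℝ) • e)) ≤ M := by
      rw [dist_smul]; exact hj
    have t1 := dist_triangle4 ((G j * τ * (G j)⁻¹) • x₀) (G j • τ • f.1 ((j : ℝ) • e))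
      (G j • f.1 ((j : ℝ) • e)) x₀
    change dist ((G j * τ * (G j)⁻¹) • x₀) x₀ ≤ 2 * R₀ + M
    linarith
  obtain ⟨τ', -, hτ'⟩ := (Ultrafilter.eventually_exists_mem_iff hfin).1 hev2
  refine ⟨f', hf'K, τ', fun n t C c S hc0 hc1 h v => ?_⟩
  have h1 : Tendsto (fun j => dist (τ' ^ n • (F j).1 v) ((F j).1 (v + t))) 𝒰
      (𝓝 (dist (τ' ^ n • f'.1 v) (f'.1 (v + t)))) :=
    ((hev v).const_smul (τ' ^ n)).dist (hev (v + t))
  refine le_of_tendsto h1 ?_
  have h2 : ∀ᶠ j : ℕ in atTop, (2 * (‖v‖ + |S|)) / (1 - c) + |S| ≤ j := by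
    obtain ⟨N, hN⟩ := exists_nat_ge ((2 * (‖v‖ + |S|)) / (1 - c) + |S|)
    filter_upwards [eventually_ge_atTop N] with j hj
    exact hN.trans (by exact_mod_cast hj)
  filter_upwards [hτ', h2.filter_mono (Nat.hyperfilter_le_atTop)] with j hj hj2
  have h1c : 0 < 1 - c := by linarith
  have hcone : ((j : ℝ) - S) • e + v ∈ Cone e c := by
    have hge : (2 * (‖v‖ + |S|)) / (1 - c) ≤ (j : ℝ) - S := by
      have := le_abs_self S
      linarith
    have hnn : 0 ≤ (2 * (‖v‖ + |S|)) / (1 - c) := by positivity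
    apply Cone.near he hc0 _ (hnn.trans hge)
    rw [div_le_iff₀ h1c] at hge
    have h3 := abs_nonneg S
    have h4 := norm_nonneg v
    nlinarith
  have h3 := h _ hcone
  have e1 : S • e + (((j : ℝ) - S) • e + v) = v + (j : ℝ) • e := by module
  rw [e1] at h3
  have e2 : τ' ^ n = G j * τ ^ n * (G j)⁻¹ := by
    rw [← hj]; exact conj_pow
  rw [e2, hF0, hF0, mul_smul, mul_smul, inv_smul_smul, dist_smul]
  have e3 : v + t + (j : ℝ) • e = v + (j : ℝ) • e + t := by abel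
  rw [e3]
  exact h3

/-- An approximate period is close to an aligned period. -/
theorem near_period [CompleteSpace V] (hX : IsCAT0 X) {f : V → X} (hf : Isometry f) {τ : Γ}
    {t : V} {C : ℝ} (h : ∀ v, dist (τ • f v) (f (v + t)) ≤ C) :
    ∃ b : V, ‖b - t‖ ≤ C ∧ ∃ δ, Al f (fun p => τ • f (p - b)) δ := by
  have hiso : Isometry (fun p => τ • f (p - t)) := by
    have := (isometry_smul X τ).comp (isometry_translate hf (-t))
    simpa [Function.comp_def, sub_eq_add_neg] using this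
  have hnear : Near f (fun p => τ • f (p - t)) := by
    refine ⟨C, fun p => ?_⟩
    have := h (p - t)
    rw [sub_add_cancel, dist_comm] at this
    exact this
  obtain ⟨v, δ, hδ, hal⟩ := exists_align hX hf hiso hnear
  refine ⟨t - v, ?_, δ, ?_⟩
  · have h1 := hal 0 (-v)
    simp only [neg_add_cancel, zero_sub, neg_neg] at h1
    have h2 := h (-t)
    rw [neg_add_cancel, dist_comm] at h2
    have h3 := pow_le_pow_left₀ dist_nonneg h2 2
    rw [h1] at h3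
    have h4 : ‖v‖ ^ 2 ≤ C ^ 2 := by nlinarith [sq_nonneg δ]
    have h5 : t - v - t = -v := by abel
    rw [h5, norm_neg]
    exact (abs_le_of_sq_le_sq' h4 (dist_nonneg.trans h2)).2
  · have h1 : (fun p => τ • f (p - (t - v))) = fun p => τ • f (p + v - t) := by
      funext p
      have : p - (t - v) = p + v - t := by abel
      rw [this]
    rw [h1]; exact hal

/-- Standing assumptions on the space and the action. -/
structure Good (V X Γ : Type*) [NormedAddCommGroup V] [MetricSpace X] [Group Γ]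
    [MulAction Γ X] (K₀ : Set X) : Prop where
  cat0 : IsCAT0 X
  compact : IsCompact K₀
  cocompact : ∀ x : X, ∃ γ : Γ, γ • x ∈ K₀
  proper : ∀ (x : X) (R : ℝ), {γ : Γ | dist (γ • x) x ≤ R}.Finite
  nothick : NoThick V X

/-- A partial symmetry which is a translation is close to an aligned period. -/
theorem Sym.near_pers [FiniteDimensional ℝ V] [ProperSpace X] {K₀ : Set X}
    (H : Good V X Γ K₀) {K : Set (Fl V X)} (hK : IsMin Γ K) {f : Fl V X} (hf : f ∈ K) {e : V}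
    (he : ‖e‖ = 1) {g : Γ × (V ≃ᵢ V)} {c C S : ℝ} (hc0 : 0 ≤ c) (hc1 : c < 1)
    (h : Sym f.1 e g c C S) (hlin : lin g.2 = 1) :
    ∃ b ∈ Pers Γ f.1, ‖b - g.2 0‖ ≤ C := by
  have hcs : CompleteSpace V := FiniteDimensional.complete ℝ V
  have hg : ∀ y, g.2 y = y + g.2 0 := by
    intro y
    rw [apply_eq g.2 y, hlin]; simp
  have hrel : ∀ z ∈ Cone e c, dist (g.1 • f.1 (S • e + z)) (f.1 (S • e + z + g.2 0)) ≤ C := by
    intro z hz
    have := h.2 z hz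
    rwa [hg] at this
  have hdisp : ∀ᶠ j : ℕ in atTop, dist (g.1 • f.1 ((j : ℝ) • e)) (f.1 ((j : ℝ) • e)) ≤
      C + ‖g.2 0‖ := by
    obtain ⟨N, hN⟩ := exists_nat_ge S
    filter_upwards [eventually_ge_atTop N] with j hj
    have hjS : S ≤ j := hN.trans (by exact_mod_cast hj)
    have h1 := hrel (((j : ℝ) - S) • e) (cone_axis he hc1.le (by linarith))
    have h2 : S • e + ((j : ℝ) - S) • e = (j : ℝ) • e := by module
    rw [h2] at h1
    refine (dist_triangle _ _ _).trans (add_le_add h1 ?_)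
    rw [f.2.dist_eq, dist_eq_norm]; simp
  obtain ⟨f', hf'K, τ', hτ'⟩ := deep_limit H.compact H.cocompact H.proper hK hf he g.1 hdisp
  have h1 := hτ' 1 (g.2 0) C c S hc0 hc1 (by simpa using hrel)
  obtain ⟨b, hb, δ, hδ⟩ := near_period H.cat0 f'.2 (τ := τ') (t := g.2 0) (C := C)
    (by simpa using h1)
  exact ⟨b, hK.pers H.compact H.cocompact H.cat0 H.nothick H.proper hf'K hf ⟨τ', δ, hδ⟩, hb⟩

/-- The base rotations preserve the aligned periods. -/
theorem pers_rot [FiniteDimensional ℝ V] [ProperSpace X] {K₀ : Set X}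
    (H : Good V X Γ K₀) {K : Set (Fl V X)} (hK : IsMin Γ K) {f : Fl V X} (hf : f ∈ K) {e : V}
    (he : ‖e‖ = 1) {c C : ℝ} (hc0 : 0 ≤ c) (hc1 : c < 1) {γ : Γ} {x : V} {ρ : V ≃ₗᵢ[ℝ] V}
    (hrel : BaseRel f.1 e c C γ x ρ) {b : V} (hb : b ∈ Pers Γ f.1) :
    ρ⁻¹ b ∈ Pers Γ f.1 := by
  have hcs : CompleteSpace V := FiniteDimensional.complete ℝ V
  obtain ⟨R, hR0, hR⟩ := exists_width H.compact H.cocompact H.cat0 H.nothick
  set g : Fl V X := act γ 0 f with hg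
  have hgK : g ∈ K := hK.inv γ 0 f hf
  have hgv : ∀ v, g.1 v = γ • f.1 v := by
    intro v
    change γ • f.1 (v + 0) = _
    rw [add_zero]
  obtain ⟨τ, δ, hδ⟩ := hK.pers H.compact H.cocompact H.cat0 H.nothick H.proper hf hgK hb
  have hiso : ∀ (h : Fl V X) (τ : Γ) (b : V), Isometry (fun p => τ • h.1 (p - b)) := by
    intro h τ b
    have := (isometry_smul X τ).comp (isometry_translate h.2 (-b))
    simpa [Function.comp_def, sub_eq_add_neg] using this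
  have hpow : ∀ (h : Fl V X) (τ : Γ) (b : V) (δ : ℝ), Al h.1 (fun p => τ • h.1 (p - b)) δ →
      ∀ (n : ℕ) p, dist (τ ^ n • h.1 p) (h.1 (p + (n : ℝ) • b)) ≤ R := by
    intro h τ b δ hδ n p
    obtain ⟨δ', hδ'⟩ := al_pow H.cat0 h.2 hδ n
    have h1 := hδ'.dist_self (p + (n : ℝ) • b)
    simp only [add_sub_cancel_right] at h1
    rw [dist_comm, h1]
    exact hR _ _ h.2 (hiso h _ _) _ hδ'
  have hC0 : 0 ≤ C := dist_nonneg.trans (hrel 0 (Cone.zero e c))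
  -- partial symmetries
  have hsym : ∀ n : ℕ, ∀ z ∈ Cone e c, z + (n : ℝ) • ρ⁻¹ b ∈ Cone e c →
      dist (τ ^ n • f.1 z) (f.1 (z + (n : ℝ) • ρ⁻¹ b)) ≤ 2 * C + R := by
    intro n z hz hz2
    have h1 := hrel z hz
    have h2 := hrel _ hz2
    have h3 := hpow g τ b δ hδ n (x + ρ z)
    rw [hgv, hgv] at h3
    have e1 : x + ρ (z + (n : ℝ) • ρ⁻¹ b) = x + ρ z + (n : ℝ) • b := by
      rw [map_add, map_smul]
      have : ρ (ρ⁻¹ b) = b := by simp [LinearIsometryEquiv.coe_inv]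
      rw [this]; abel
    rw [e1] at h2
    have h4 : dist (τ ^ n • f.1 z) (τ ^ n • γ • f.1 (x + ρ z)) ≤ C := by
      rw [dist_smul, dist_comm]; exact h1
    have t1 := dist_triangle4 (τ ^ n • f.1 z) (τ ^ n • γ • f.1 (x + ρ z))
      (γ • f.1 (x + ρ z + (n : ℝ) • b)) (f.1 (z + (n : ℝ) • ρ⁻¹ b))
    linarith
  have hdeep : ∀ n : ℕ, ∃ S : ℝ, 0 ≤ S ∧ ∀ z ∈ Cone e c,
      dist (τ ^ n • f.1 (S • e + z)) (f.1 (S • e + z + (n : ℝ) • ρ⁻¹ b)) ≤ 2 * C + R := by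
    intro n
    have h1c : 0 < 1 - c := by linarith
    set S := 2 * ‖(n : ℝ) • ρ⁻¹ b‖ / (1 - c) with hS
    have hS0 : 0 ≤ S := by positivity
    refine ⟨S, hS0, fun z hz => hsym n _ ?_ ?_⟩
    · exact Cone.add hc0 (cone_axis he hc1.le hS0) hz
    · have e1 : S • e + z + (n : ℝ) • ρ⁻¹ b = (S • e + (n : ℝ) • ρ⁻¹ b) + z := by abel
      rw [e1]
      apply Cone.add hc0 _ hz
      apply Cone.near he hc0 _ hS0
      have : (1 - c) * S = 2 * ‖(n : ℝ) • ρ⁻¹ b‖ := by rw [hS]; field_simp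
      rw [this]
      have := norm_nonneg ((n : ℝ) • ρ⁻¹ b)
      nlinarith
  have hdisp : ∀ᶠ j : ℕ in atTop, dist (τ • f.1 ((j : ℝ) • e)) (f.1 ((j : ℝ) • e)) ≤
      2 * C + R + ‖b‖ := by
    obtain ⟨S, hS0, hS⟩ := hdeep 1
    obtain ⟨N, hN⟩ := exists_nat_ge S
    filter_upwards [eventually_ge_atTop N] with j hj
    have hjS : S ≤ j := hN.trans (by exact_mod_cast hj)
    have h1 := hS (((j : ℝ) - S) • e) (cone_axis he hc1.le (by linarith))
    have h2 : S • e + ((j : ℝ) - S) • e = (j : ℝ) • e := by module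
    rw [h2, pow_one] at h1
    refine (dist_triangle _ _ _).trans (add_le_add h1 ?_)
    rw [f.2.dist_eq, dist_eq_norm]; simp
  obtain ⟨f', hf'K, τ', hτ'⟩ := deep_limit H.compact H.cocompact H.proper hK hf he τ hdisp
  have hall : ∀ (n : ℕ) v, dist (τ' ^ n • f'.1 v) (f'.1 (v + (n : ℝ) • ρ⁻¹ b)) ≤ 2 * C + R := by
    intro n
    obtain ⟨S, hS0, hS⟩ := hdeep n
    exact hτ' n _ _ c S hc0 hc1 hS
  obtain ⟨b', hb', δ', hδ'⟩ := near_period H.cat0 f'.2 (τ := τ') (t := ρ⁻¹ b) (C := 2 * C + R)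
    (by simpa using hall 1)
  have heq : b' = ρ⁻¹ b := by
    by_contra hne
    have hpos : 0 < ‖b' - ρ⁻¹ b‖ := norm_pos_iff.2 (sub_ne_zero.2 hne)
    obtain ⟨n, hn⟩ := exists_nat_gt ((2 * C + R + R) / ‖b' - ρ⁻¹ b‖)
    have h1 := hall n 0
    have h2 := hpow f' τ' b' δ' hδ' n 0
    have h3 := dist_triangle_left (f'.1 (0 + (n : ℝ) • b')) (f'.1 (0 + (n : ℝ) • ρ⁻¹ b))
      (τ' ^ n • f'.1 0)
    rw [f'.2.dist_eq (0 + (n : ℝ) • b'), dist_eq_norm] at h3
    have h4 : 0 + (n : ℝ) • b' - (0 + (n : ℝ) • ρ⁻¹ b) = (n : ℝ) • (b' - ρ⁻¹ b) := by module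
    rw [h4, norm_smul, Real.norm_of_nonneg (by positivity)] at h3
    rw [div_lt_iff₀ hpos] at hn
    linarith
  rw [heq] at hδ'
  exact hK.pers H.compact H.cocompact H.cat0 H.nothick H.proper hf'K hf ⟨τ', δ', hδ'⟩

end Pool.Agent.Helper39.Flats
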