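import Pool.Agent.Helper39.Flats.Comm

set_option linter.unusedSectionVars false

namespace Pool.Agent.Helper39.Flats

open Set Filter Topology

variable {X : Type*} [MetricSpace X]
variable {V : Type*} [NormedAddCommGroup V] [InnerProductSpace ℝ V]
variable {Γ : Type*} [Group Γ] [MulAction Γ X] [IsIsometricSMul Γ X]

/-- The isometry `z ↦ x + ρ z`. -/
noncomputable def mkIso (x : V) (ρ : V ≃ₗᵢ[ℝ] V) : V ≃ᵢ V :=
  (IsometryEquiv.addLeft x) * ρ.toIsometryEquiv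

theorem mkIso_apply (x : V) (ρ : V ≃ₗᵢ[ℝ] V) (z : V) : mkIso x ρ z = x + ρ z := rfl

theorem mkIso_zero (x : V) (ρ : V ≃ₗᵢ[ℝ] V) : mkIso x ρ 0 = x := by simp [mkIso_apply]

theorem lin_mkIso (x : V) (ρ : V ≃ₗᵢ[ℝ] V) : lin (mkIso x ρ) = ρ := by
  ext v
  rw [lin_apply, mkIso_apply, mkIso_zero]; abel

theorem mkIso_inv_apply (x : V) (ρ : V ≃ₗᵢ[ℝ] V) (y : V) : (mkIso x ρ)⁻¹ y = ρ⁻¹ (y - x) := by
  have h1 : mkIso x ρ (ρ⁻¹ (y - x)) = y := by
    rw [mkIso_apply]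
    simp [LinearIsometryEquiv.coe_inv]
  have h2 : (mkIso x ρ)⁻¹ (mkIso x ρ (ρ⁻¹ (y - x))) = ρ⁻¹ (y - x) := by
    rw [← IsometryEquiv.mul_apply, inv_mul_cancel]; simp
  rw [h1] at h2
  exact h2

/-- The partial symmetry defined by two base relations. -/
noncomputable def pairSym (γ γ' : Γ) (x x' : V) (ρ ρ' : V ≃ₗᵢ[ℝ] V) : Γ × (V ≃ᵢ V) :=
  (γ'⁻¹ * γ, mkIso x' ρ' * (mkIso x ρ)⁻¹)

theorem pairSym_lin (γ γ' : Γ) (x x' : V) (ρ ρ' : V ≃ₗᵢ[ℝ] V) :
    lin (pairSym γ γ' x x' ρ ρ').2 = ρ' * ρ⁻¹ := by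
  simp only [pairSym]
  rw [lin_mul, lin_inv, lin_mkIso, lin_mkIso]

theorem pairSym_apply (γ γ' : Γ) (x x' : V) (ρ ρ' : V ≃ₗᵢ[ℝ] V) (y : V) :
    (pairSym γ γ' x x' ρ ρ').2 y = x' + ρ' (ρ⁻¹ (y - x)) := by
  simp only [pairSym]
  rw [IsometryEquiv.mul_apply, mkIso_inv_apply, mkIso_apply]

theorem pairSym_base (γ γ' : Γ) (x x' : V) (ρ ρ' : V ≃ₗᵢ[ℝ] V) :
    (pairSym γ γ' x x' ρ ρ').2 x = x' := by
  rw [pairSym_apply]; simp

theorem base_sym {f : V → X} {e : V} (he : ‖e‖ = 1) {c C η σ : ℝ} {γ γ' : Γ} {x x' : V}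
    {ρ ρ' : V ≃ₗᵢ[ℝ] V} (h : BaseRel f e c C γ x ρ) (h' : BaseRel f e c C γ' x' ρ')
    (hρ : rot ρ ≤ η) (hc : 0 ≤ c) (hσ : 0 < σ) (hσ1 : σ ≤ 1) (hsum : c + η ≤ 1 - σ) :
    Sym f e (pairSym γ γ' x x' ρ ρ') (c + η) (2 * C) (2 / σ * (‖x‖ + ‖x'‖)) := by
  have hη : 0 ≤ η := (rot_nonneg ρ).trans hρ
  set S := 2 / σ * (‖x‖ + ‖x'‖) with hS
  have hx := norm_nonneg x
  have hx' := norm_nonneg x'
  have hσS : σ * S = 2 * (‖x‖ + ‖x'‖) := by rw [hS]; field_simp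
  have hS0 : 0 ≤ S := by rw [hS]; positivity
  have hge : 2 * (‖x‖ + ‖x'‖) ≤ S := by
    have : σ * S ≤ 1 * S := mul_le_mul_of_nonneg_right hσ1 hS0
    linarith
  refine ⟨?_, fun z hz => ?_⟩
  · rw [pairSym_apply]
    refine (norm_add_le _ _).trans ?_
    rw [ρ'.norm_map, (ρ⁻¹).norm_map, zero_sub, norm_neg]
    linarith
  · set y := S • e + z with hy
    set w := ρ⁻¹ (y - x) with hw
    have hyx : y - x ∈ Cone e (c + η) := by
      have : y - x = (S • e + (-x)) + z := by rw [hy]; abel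
      rw [this]
      apply Cone.add (by linarith) _ hz
      apply Cone.near he (by linarith) _ hS0
      rw [norm_neg]
      nlinarith
    have hwc : w ∈ Cone e c := Cone.map' he _ (by rw [rot_inv]; linarith) hyx
    have hyw : x + ρ w = y := by rw [hw]; simp [LinearIsometryEquiv.coe_inv]
    have e1 := h w hwc
    have e2 := h' w hwc
    rw [hyw] at e1
    rw [pairSym_apply]
    simp only [pairSym]
    rw [← hw, mul_smul, ← dist_smul γ', smul_inv_smul]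
    have := dist_triangle_right (γ • f y) (γ' • f (x' + ρ' w)) (f w)
    linarith

/-- Approximate pigeonhole for rotations. -/
theorem exists_color [FiniteDimensional ℝ V] (q : ℕ) (hq : 1 ≤ q)
    (hk : 1 ≤ Module.finrank ℝ V) :
    ∃ col : (V ≃ₗᵢ[ℝ] V) → (Fin (Module.finrank ℝ V) × Fin (Module.finrank ℝ V) →
      Fin (2 * (Module.finrank ℝ V) ^ 2 * q + 1)),
      ∀ ρ ρ', col ρ = col ρ' → ∀ v, ‖ρ v - ρ' v‖ ≤ 1 / q * ‖v‖ := by
  set k := Module.finrank ℝ V with hkdef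
  let b := stdOrthonormalBasis ℝ V
  set Q : ℕ := k ^ 2 * q with hQ
  have hQpos : 0 < Q := by positivity
  have hQr : (0 : ℝ) < Q := by exact_mod_cast hQpos
  have hentry : ∀ (ρ : V ≃ₗᵢ[ℝ] V) i j, |inner ℝ (ρ (b i)) (b j)| ≤ 1 := by
    intro ρ i j
    have := abs_real_inner_le_norm (ρ (b i)) (b j)
    rw [ρ.norm_map, b.norm_eq_one, b.norm_eq_one, mul_one] at this
    exact this
  have hlt : ∀ (ρ : V ≃ₗᵢ[ℝ] V) i j, ⌊(inner ℝ (ρ (b i)) (b j) + 1) * (Q : ℝ)⌋₊ <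
      2 * k ^ 2 * q + 1 := by
    intro ρ i j
    have h1 := (abs_le.1 (hentry ρ i j))
    have h2 : (inner ℝ (ρ (b i)) (b j) + 1) * (Q : ℝ) ≤ ((2 * k ^ 2 * q : ℕ) : ℝ) := by
      have : ((2 * k ^ 2 * q : ℕ) : ℝ) = 2 * (Q : ℝ) := by rw [hQ]; push_cast; ring
      rw [this]
      nlinarith [h1.2]
    exact Nat.lt_succ_of_le (Nat.floor_le_of_le h2)
  refine ⟨fun ρ p => ⟨⌊(inner ℝ (ρ (b p.1)) (b p.2) + 1) * (Q : ℝ)⌋₊, hlt ρ p.1 p.2⟩, ?_⟩
  intro ρ ρ' hcol v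
  have hdiff : ∀ i j, |inner ℝ (ρ (b i) - ρ' (b i)) (b j)| ≤ 1 / Q := by
    intro i j
    have h1 := congrFun hcol (i, j)
    simp only [Fin.mk.injEq] at h1
    have a1 := (abs_le.1 (hentry ρ i j))
    have a2 := (abs_le.1 (hentry ρ' i j))
    have p1 : 0 ≤ (inner ℝ (ρ (b i)) (b j) + 1) * (Q : ℝ) := by
      apply mul_nonneg _ hQr.le; linarith [a1.1]
    have p2 : 0 ≤ (inner ℝ (ρ' (b i)) (b j) + 1) * (Q : ℝ) := by
      apply mul_nonneg _ hQr.le; linarith [a2.1]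
    have f1 := Nat.floor_le p1
    have f2 := Nat.floor_le p2
    have f3 := Nat.lt_floor_add_one ((inner ℝ (ρ (b i)) (b j) + 1) * (Q : ℝ))
    have f4 := Nat.lt_floor_add_one ((inner ℝ (ρ' (b i)) (b j) + 1) * (Q : ℝ))
    rw [h1] at f1 f3
    rw [inner_sub_left, abs_le]
    have hQi : 1 / (Q : ℝ) * Q = 1 := by field_simp
    constructor
    · by_contra hcon
      push Not at hcon
      have : (inner ℝ (ρ (b i)) (b j) - inner ℝ (ρ' (b i)) (b j)) * (Q : ℝ) <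
          -(1 / Q) * Q := mul_lt_mul_of_pos_right hcon hQr
      nlinarith
    · by_contra hcon
      push Not at hcon
      have : (1 / Q) * (Q : ℝ) < (inner ℝ (ρ (b i)) (b j) - inner ℝ (ρ' (b i)) (b j)) * Q :=
        mul_lt_mul_of_pos_right hcon hQr
      nlinarith
  have hcolumn : ∀ i, ‖ρ (b i) - ρ' (b i)‖ ≤ k / Q := by
    intro i
    have h1 := b.sum_repr' (ρ (b i) - ρ' (b i))
    rw [← h1]
    refine (norm_sum_le _ _).trans ?_
    calc ∑ j, ‖inner ℝ (b j) (ρ (b i) - ρ' (b i)) • b j‖ ≤ ∑ _j : Fin k, 1 / (Q : ℝ) := by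
          apply Finset.sum_le_sum
          intro j _
          rw [norm_smul, b.norm_eq_one, mul_one, real_inner_comm]
          exact hdiff i j
      _ = k / Q := by
          rw [Finset.sum_const, Finset.card_univ, Fintype.card_fin, nsmul_eq_mul]; ring
  have h1 := b.sum_repr' v
  have h2 : ρ v - ρ' v = ∑ i, inner ℝ (b i) v • (ρ (b i) - ρ' (b i)) := by
    conv_lhs => rw [← h1]
    rw [map_sum, map_sum, ← Finset.sum_sub_distrib]
    apply Finset.sum_congr rfl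
    intro i _
    rw [map_smul, map_smul, smul_sub]
  rw [h2]
  refine (norm_sum_le _ _).trans ?_
  calc ∑ i, ‖inner ℝ (b i) v • (ρ (b i) - ρ' (b i))‖ ≤ ∑ _i : Fin k, ‖v‖ * (k / Q) := by
        apply Finset.sum_le_sum
        intro i _
        rw [norm_smul]
        have h3 : ‖inner ℝ (b i) v‖ ≤ ‖v‖ := by
          have := abs_real_inner_le_norm (b i) v
          rw [b.norm_eq_one, one_mul] at this
          exact this
        gcongr
        exact hcolumn i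
    _ = 1 / q * ‖v‖ := by
        rw [Finset.sum_const, Finset.card_univ, Fintype.card_fin, nsmul_eq_mul, hQ]
        have hk0 : (k : ℝ) ≠ 0 := by positivity
        push_cast
        field_simp

/-- Two base points on a line with almost the same rotational part. -/
theorem exists_pair [FiniteDimensional ℝ V] {f : V → X} {e : V} {c C η m : ℝ}
    (hnet : Net Γ f e c C η m) (hk : 1 ≤ Module.finrank ℝ V) (u : V) (q : ℕ) (hq : 1 ≤ q) :
    ∃ (i j : ℕ) (γ γ' : Γ) (x x' : V) (ρ ρ' : V ≃ₗᵢ[ℝ] V), i < j ∧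
      j ≤ (2 * (Module.finrank ℝ V) ^ 2 * q + 1) ^ (Module.finrank ℝ V * Module.finrank ℝ V) ∧
      ‖x - (i : ℝ) • u‖ ≤ m ∧ ‖x' - (j : ℝ) • u‖ ≤ m ∧ rot ρ ≤ η ∧ rot ρ' ≤ η ∧
      BaseRel f e c C γ x ρ ∧ BaseRel f e c C γ' x' ρ' ∧ rot (ρ' * ρ⁻¹) ≤ 1 / q := by
  set k := Module.finrank ℝ V with hkdef
  obtain ⟨col, hcol⟩ := exists_color (V := V) q hq hk
  choose γ x ρ hx hρ hrel using fun i : ℕ => hnet ((i : ℝ) • u)
  set N := (2 * k ^ 2 * q + 1) ^ (k * k) with hN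
  have hcard : Fintype.card (Fin k × Fin k → Fin (2 * k ^ 2 * q + 1)) <
      Fintype.card (Fin (N + 1)) := by
    rw [Fintype.card_fun, Fintype.card_prod, Fintype.card_fin, Fintype.card_fin, Fintype.card_fin]
    exact Nat.lt_succ_self _
  obtain ⟨a, b, hab, hcab⟩ := Fintype.exists_ne_map_eq_of_card_lt
    (fun i : Fin (N + 1) => col (ρ i)) hcard
  have key : ∀ a b : ℕ, col (ρ a) = col (ρ b) → rot (ρ b * (ρ a)⁻¹) ≤ 1 / q := by
    intro a b hcab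
    apply rot_le (by positivity)
    intro v
    have h1 := hcol _ _ hcab ((ρ a)⁻¹ v)
    rw [LinearIsometryEquiv.norm_map] at h1
    have h2 : ρ a ((ρ a)⁻¹ v) = v := by simp [LinearIsometryEquiv.coe_inv]
    rw [h2, norm_sub_rev] at h1
    exact h1
  rcases lt_or_gt_of_ne hab with h | h
  · exact ⟨a, b, γ a, γ b, x a, x b, ρ a, ρ b, h, Nat.lt_succ_iff.1 b.2, hx a, hx b, hρ a,
      hρ b, hrel a, hrel b, key a b hcab⟩
  · exact ⟨b, a, γ b, γ a, x b, x a, ρ b, ρ a, h, Nat.lt_succ_iff.1 a.2, hx b, hx a, hρ b,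
      hρ a, hrel b, hrel a, key b a hcab.symm⟩

end Pool.Agent.Helper39.Flats
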