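import Pool.Agent.Helper39.Flats.Sym

set_option linter.unusedSectionVars false

namespace Pool.Agent.Helper39.Flats

open Set Filter Topology

variable {X : Type*} [MetricSpace X]
variable {V : Type*} [NormedAddCommGroup V] [InnerProductSpace ℝ V]
variable {Γ : Type*} [Group Γ] [MulAction Γ X] [IsIsometricSMul Γ X]

/-- the translate of `f` by `γ` contains a copy of the cone of `f` at the point `x` -/
def BaseRel (f : V → X) (e : V) (c C : ℝ) (γ : Γ) (x : V) (ρ : V ≃ₗᵢ[ℝ] V) : Prop :=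
  ∀ z ∈ Cone e c, dist (γ • f (x + ρ z)) (f z) ≤ C

/-- The base points are coarsely dense. -/
def Net (Γ : Type*) [Group Γ] [MulAction Γ X] (f : V → X) (e : V) (c C η m : ℝ) : Prop :=
  ∀ p : V, ∃ γ : Γ, ∃ x : V, ∃ ρ : V ≃ₗᵢ[ℝ] V, ‖x - p‖ ≤ m ∧ rot ρ ≤ η ∧ BaseRel f e c C γ x ρ

theorem exists_pos_lower {T : Set ℝ} (hT : T.Finite) (hpos : ∀ x ∈ T, 0 < x) :
    ∃ δ > 0, ∀ x ∈ T, δ ≤ x := by
  rcases T.eq_empty_or_nonempty with h | h
  · exact ⟨1, one_pos, by rw [h]; simp⟩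
  · obtain ⟨a, ha, hmin⟩ := Set.exists_min_image T id hT h
    exact ⟨a, hpos a ha, hmin⟩

theorem theta_finite (hproper : ∀ (x : X) (R : ℝ), {γ : Γ | dist (γ • x) x ≤ R}.Finite)
    {f : V → X} (hf : Isometry f) {e : V} (he : ‖e‖ = 1) {c : ℝ} (hc0 : 0 ≤ c) (hc1 : c < 1)
    (C : ℝ) : {θ : V ≃ₗᵢ[ℝ] V | ∃ κ : Γ, ∀ z ∈ Cone e c, dist (κ • f z) (f (θ z)) ≤ C}.Finite := by
  choose! K hK using fun (θ : V ≃ₗᵢ[ℝ] V)
    (h : θ ∈ {θ : V ≃ₗᵢ[ℝ] V | ∃ κ : Γ, ∀ z ∈ Cone e c, dist (κ • f z) (f (θ z)) ≤ C}) => h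
  refine Set.Finite.of_finite_image (f := K) ((hproper (f 0) C).subset ?_) ?_
  · rintro _ ⟨θ, hθ, rfl⟩
    have := hK θ hθ 0 (Cone.zero e c)
    rwa [map_zero] at this
  · intro θ hθ θ' hθ' h
    apply Cone.ext he hc0 hc1 (M := 2 * C)
    intro z hz
    have h1 := hK θ hθ z hz
    have h2 := hK θ' hθ' z hz
    rw [← h] at h2
    rw [← dist_eq_norm, ← hf.dist_eq]
    have := dist_triangle_left (f (θ z)) (f (θ' z)) (K θ • f z)
    linarith

/-- Discreteness of the rotational parts. -/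
theorem rigid (hproper : ∀ (x : X) (R : ℝ), {γ : Γ | dist (γ • x) x ≤ R}.Finite)
    {f : V → X} (hf : Isometry f) {e : V} (he : ‖e‖ = 1) {c C η m c' C' r σ : ℝ}
    (hnet : Net Γ f e c C η m) (hc0 : 0 ≤ c) (hcc' : c ≤ c') (hη : 0 ≤ η) (hr : 0 ≤ r)
    (hC' : 0 ≤ C') (hσ : 0 < σ) (hσ1 : σ ≤ 1) (hsum : c' + 2 * η + r ≤ 1 - σ) :
    ∃ δ > 0, ∀ (g : Γ × (V ≃ᵢ V)) (S : ℝ), Sym f e g c' C' S → rot (lin g.2) ≤ r →
      rot (lin g.2) < δ → rot (lin g.2) * (S + 3 * m / σ) + ‖g.2 0‖ ≤ 1 → lin g.2 = 1 := by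
  have hm0 : 0 ≤ m := by
    obtain ⟨γ, x, ρ, hx, -⟩ := hnet 0
    exact (norm_nonneg _).trans hx
  have hC0 : 0 ≤ C := by
    obtain ⟨γ, x, ρ, -, -, h⟩ := hnet 0
    exact dist_nonneg.trans (h 0 (Cone.zero e c))
  set c₁ := c' + 2 * η + r with hc₁
  set C₁ := 2 * C + C' + m + 1 with hC₁
  set Θ : Set (V ≃ₗᵢ[ℝ] V) :=
    {θ | ∃ κ : Γ, ∀ z ∈ Cone e c₁, dist (κ • f z) (f (θ z)) ≤ C₁} with hΘ
  have hΘf : Θ.Finite := theta_finite hproper hf he (by linarith) (by linarith) C₁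
  set T : Set ℝ := {x | 0 < x ∧ ∃ θ ∈ Θ, ∃ θ' ∈ Θ, x = rot (θ'⁻¹ * θ)} with hT
  have hTf : T.Finite := by
    refine ((hΘf.prod hΘf).image fun p => rot (p.2⁻¹ * p.1)).subset ?_
    rintro x ⟨-, θ, hθ, θ', hθ', rfl⟩
    exact ⟨(θ, θ'), ⟨hθ, hθ'⟩, rfl⟩
  obtain ⟨δ, hδ, hδT⟩ := exists_pos_lower hTf (fun x hx => hx.1)
  refine ⟨δ, hδ, fun g S hsym hrg hrδ hdisp => ?_⟩
  have hS := hsym.nonneg
  set A := lin g.2 with hA
  set m₂ := 2 * m / σ with hm₂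
  have hσm : σ * m₂ = 2 * m := by rw [hm₂]; field_simp
  have hm₂0 : 0 ≤ m₂ := by rw [hm₂]; positivity
  have hmσ : m ≤ m / σ := by rw [le_div_iff₀ hσ]; nlinarith
  obtain ⟨γ, x, ρ, hx, hρ, hrel⟩ := hnet ((S + m₂) • e)
  obtain ⟨γ', x', ρ', hx', hρ', hrel'⟩ := hnet (g.2 x)
  -- position of x
  have hxS : ‖x‖ ≤ S + 3 * m / σ := by
    have h1 : ‖x‖ ≤ ‖x - (S + m₂) • e‖ + ‖(S + m₂) • e‖ := by
      have : x = (x - (S + m₂) • e) + (S + m₂) • e := by abel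
      conv_lhs => rw [this]
      exact norm_add_le _ _
    rw [norm_smul, he, Real.norm_of_nonneg (by linarith)] at h1
    have h2 : 3 * m / σ = m₂ + m / σ := by rw [hm₂]; ring
    linarith
  have hdx : ‖g.2 x - x‖ ≤ 1 := by
    refine (norm_apply_sub_le g.2 x).trans ?_
    refine le_trans ?_ hdisp
    gcongr
    exact rot_nonneg _
  set u := m₂ • e + (x - (S + m₂) • e) with hu
  have huC : u ∈ Cone e c' := by
    apply Cone.near he (by linarith) _ hm₂0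
    have h1 : (1 + c') * ‖x - (S + m₂) • e‖ ≤ 2 * m := by
      nlinarith [norm_nonneg (x - (S + m₂) • e)]
    have h2 : σ * m₂ ≤ (1 - c') * m₂ := mul_le_mul_of_nonneg_right (by linarith) hm₂0
    linarith
  have hxu : x = S • e + u := by rw [hu]; module
  have rinv : rot ρ'⁻¹ ≤ η := by rw [rot_inv]; exact hρ'
  -- first relation
  have hθ : ρ'⁻¹ * A * ρ ∈ Θ := by
    refine ⟨γ' * g.1 * γ⁻¹, fun z hz => ?_⟩
    set w := (ρ'⁻¹ * A * ρ) z with hw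
    have hzc : z ∈ Cone e c := Cone.mono (by linarith) hz
    have hρz : ρ z ∈ Cone e c' := Cone.map' he ρ (by linarith) hz
    have hwc : w ∈ Cone e c := by
      apply Cone.map' he _ _ hz
      have h1 := rot_mul_le (ρ'⁻¹ * A) ρ
      have h2 := rot_mul_le ρ'⁻¹ A
      linarith
    have hρw : ρ' w = A (ρ z) := by
      rw [hw]
      simp [LinearIsometryEquiv.coe_mul, LinearIsometryEquiv.coe_inv]
    have e1 : dist (γ • f (x + ρ z)) (f z) ≤ C := hrel z hzc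
    have e2 : dist (g.1 • f (x + ρ z)) (f (g.2 (x + ρ z))) ≤ C' := by
      refine hsym.apply (z := u + ρ z) (Cone.add (by linarith) huC hρz) ?_
      rw [← add_assoc, ← hxu]
    have e3 : dist (γ' • f (x' + ρ' w)) (f w) ≤ C := hrel' w hwc
    have e4 : dist (f (g.2 (x + ρ z))) (f (x' + ρ' w)) ≤ m := by
      rw [hf.dist_eq, apply_add, hρw, dist_eq_norm]
      have : g.2 x + (lin g.2) (ρ z) - (x' + A (ρ z)) = -(x' - g.2 x) := by rw [hA]; abel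
      rw [this, norm_neg]; exact hx'
    have e5 : dist ((γ' * g.1 * γ⁻¹) • f z) ((γ' * g.1) • f (x + ρ z)) ≤ C := by
      rw [mul_smul, dist_smul]
      have : dist (γ⁻¹ • f z) (f (x + ρ z)) = dist (f z) (γ • f (x + ρ z)) := by
        rw [← dist_smul γ, smul_inv_smul]
      rw [this, dist_comm]; exact e1
    have e6 : dist ((γ' * g.1) • f (x + ρ z)) (γ' • f (g.2 (x + ρ z))) ≤ C' := by
      rw [mul_smul, dist_smul]; exact e2
    have e7 : dist (γ' • f (g.2 (x + ρ z))) (γ' • f (x' + ρ' w)) ≤ m := by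
      rw [dist_smul]; exact e4
    have t1 := dist_triangle4 ((γ' * g.1 * γ⁻¹) • f z) ((γ' * g.1) • f (x + ρ z))
      (γ' • f (g.2 (x + ρ z))) (γ' • f (x' + ρ' w))
    have t2 := dist_triangle ((γ' * g.1 * γ⁻¹) • f z) (γ' • f (x' + ρ' w)) (f w)
    rw [hC₁]; linarith
  -- second relation
  have hθ' : ρ'⁻¹ * ρ ∈ Θ := by
    refine ⟨γ' * γ⁻¹, fun z hz => ?_⟩
    set w := (ρ'⁻¹ * ρ) z with hw
    have hzc : z ∈ Cone e c := Cone.mono (by linarith) hz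
    have hwc : w ∈ Cone e c := by
      apply Cone.map' he _ _ hz
      have h1 := rot_mul_le ρ'⁻¹ ρ
      linarith
    have hρw : ρ' w = ρ z := by
      rw [hw]
      simp [LinearIsometryEquiv.coe_mul, LinearIsometryEquiv.coe_inv]
    have e1 : dist (γ • f (x + ρ z)) (f z) ≤ C := hrel z hzc
    have e3 : dist (γ' • f (x' + ρ' w)) (f w) ≤ C := hrel' w hwc
    have e4 : dist (f (x + ρ z)) (f (x' + ρ' w)) ≤ m + 1 := by
      rw [hf.dist_eq, hρw, dist_eq_norm]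
      have : x + ρ z - (x' + ρ z) = -(x' - g.2 x) + -(g.2 x - x) := by abel
      rw [this]
      refine (norm_add_le _ _).trans ?_
      rw [norm_neg, norm_neg]; linarith
    have e5 : dist ((γ' * γ⁻¹) • f z) (γ' • f (x + ρ z)) ≤ C := by
      rw [mul_smul, dist_smul]
      have : dist (γ⁻¹ • f z) (f (x + ρ z)) = dist (f z) (γ • f (x + ρ z)) := by
        rw [← dist_smul γ, smul_inv_smul]
      rw [this, dist_comm]; exact e1
    have e7 : dist (γ' • f (x + ρ z)) (γ' • f (x' + ρ' w)) ≤ m + 1 := by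
      rw [dist_smul]; exact e4
    have t1 := dist_triangle4 ((γ' * γ⁻¹) • f z) (γ' • f (x + ρ z)) (γ' • f (x' + ρ' w)) (f w)
    rw [hC₁]; linarith
  -- conclusion
  have hconj : rot A = rot ((ρ'⁻¹ * ρ)⁻¹ * (ρ'⁻¹ * A * ρ)) := by
    have : (ρ'⁻¹ * ρ)⁻¹ * (ρ'⁻¹ * A * ρ) = ρ⁻¹ * A * ρ := by group
    rw [this, rot_conj]
  by_contra hne
  have hpos : 0 < rot A := lt_of_le_of_ne (rot_nonneg A) fun h => hne (rot_eq_zero h.symm)
  have := hδT (rot A) ⟨hpos, _, hθ, _, hθ', hconj⟩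
  linarith

end Pool.Agent.Helper39.Flats
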