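import Pool.Agent.Helper39.Flats.Cone

set_option linter.unusedSectionVars false

namespace Pool.Agent.Helper39.Flats

open Set Filter Topology

variable {X : Type*} [MetricSpace X]
variable {V : Type*} [NormedAddCommGroup V] [InnerProductSpace ℝ V]
variable {Γ : Type*} [Group Γ] [MulAction Γ X] [IsIsometricSMul Γ X]

theorem comm_apply_le (A B : V ≃ₗᵢ[ℝ] V) (y : V) :
    ‖A (B y) - B (A y)‖ ≤ 2 * rot A * rot B * ‖y‖ := by
  have h2 : A (B y) - B (A y) = (A (B y - y) - (B y - y)) - (B (A y - y) - (A y - y)) := by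
    rw [map_sub, map_sub]; abel
  rw [h2]
  have h3 := rot_apply_le A (B y - y)
  have h4 := rot_apply_le B (A y - y)
  have h5 := rot_apply_le B y
  have h6 := rot_apply_le A y
  have hA := rot_nonneg A
  have hB := rot_nonneg B
  calc ‖(A (B y - y) - (B y - y)) - (B (A y - y) - (A y - y))‖
      ≤ ‖A (B y - y) - (B y - y)‖ + ‖B (A y - y) - (A y - y)‖ := norm_sub_le _ _
    _ ≤ rot A * (rot B * ‖y‖) + rot B * (rot A * ‖y‖) := by
        gcongr
        · exact h3.trans (by gcongr)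
        · exact h4.trans (by gcongr)
    _ = 2 * rot A * rot B * ‖y‖ := by ring

theorem comm_zero (β γ : V ≃ᵢ V) : (β * γ * β⁻¹ * γ⁻¹) 0 =
    (lin β (lin γ (β⁻¹ (γ⁻¹ 0))) - lin γ (lin β (β⁻¹ (γ⁻¹ 0)))) +
      (lin β (γ 0) - γ 0) - (lin γ (β 0) - β 0) := by
  set w := β⁻¹ (γ⁻¹ 0) with hw
  have h1 : (β * γ * β⁻¹ * γ⁻¹) 0 = β (γ w) := by
    simp [hw, IsometryEquiv.mul_apply]
  have h2 : γ (β w) = 0 := by
    rw [hw, ← IsometryEquiv.mul_apply, ← IsometryEquiv.mul_apply, ← IsometryEquiv.mul_apply]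
    have : γ * β * β⁻¹ * γ⁻¹ = 1 := by group
    rw [this]; simp
  have h3 : β (γ w) = lin β (lin γ w) + lin β (γ 0) + β 0 := by
    rw [apply_eq β (γ w), apply_eq γ w, map_add]
  have h4 : γ (β w) = lin γ (lin β w) + lin γ (β 0) + γ 0 := by
    rw [apply_eq γ (β w), apply_eq β w, map_add]
  rw [h4] at h2
  rw [h1, h3]
  have h5 : lin γ (β 0) = -(lin γ (lin β w)) - γ 0 := by
    calc lin γ (β 0) = (lin γ (lin β w) + lin γ (β 0) + γ 0) - lin γ (lin β w) - γ 0 := by abel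
      _ = -(lin γ (lin β w)) - γ 0 := by rw [h2]; abel
  rw [h5]; abel

theorem norm_comm_zero_le (β γ : V ≃ᵢ V) : ‖(β * γ * β⁻¹ * γ⁻¹) 0‖ ≤
    2 * rot (lin β) * rot (lin γ) * (‖β 0‖ + ‖γ 0‖) + rot (lin β) * ‖γ 0‖ +
      rot (lin γ) * ‖β 0‖ := by
  rw [comm_zero]
  set w := β⁻¹ (γ⁻¹ 0) with hw
  have hwn : ‖w‖ ≤ ‖β 0‖ + ‖γ 0‖ := by
    rw [hw, apply_eq β⁻¹]
    refine (norm_add_le _ _).trans ?_
    rw [LinearIsometryEquiv.norm_map, norm_inv_zero, norm_inv_zero, add_comm]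
  have h1 := comm_apply_le (lin β) (lin γ) w
  have h2 := rot_apply_le (lin β) (γ 0)
  have h3 := rot_apply_le (lin γ) (β 0)
  have hb := rot_nonneg (lin β)
  have hg := rot_nonneg (lin γ)
  have h4 : 2 * rot (lin β) * rot (lin γ) * ‖w‖ ≤
      2 * rot (lin β) * rot (lin γ) * (‖β 0‖ + ‖γ 0‖) := by gcongr
  calc _ ≤ ‖(lin β (lin γ w) - lin γ (lin β w)) + (lin β (γ 0) - γ 0)‖ +
        ‖lin γ (β 0) - β 0‖ := norm_sub_le _ _
    _ ≤ (‖lin β (lin γ w) - lin γ (lin β w)‖ + ‖lin β (γ 0) - γ 0‖) +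
        ‖lin γ (β 0) - β 0‖ := by gcongr; exact norm_add_le _ _
    _ ≤ _ := by linarith

/-- Partial symmetries of a flat `f`: on a deep cone, `g.1 • f` is at bounded distance from
`f ∘ g.2`. -/
def Sym (f : V → X) (e : V) (g : Γ × (V ≃ᵢ V)) (c C S : ℝ) : Prop :=
  ‖g.2 0‖ ≤ S ∧ ∀ z ∈ Cone e c, dist (g.1 • f (S • e + z)) (f (g.2 (S • e + z))) ≤ C

theorem Sym.nonneg {f : V → X} {e : V} {g : Γ × (V ≃ᵢ V)} {c C S : ℝ} (h : Sym f e g c C S) :
    0 ≤ S := (norm_nonneg _).trans h.1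

theorem Sym.apply {f : V → X} {e : V} {g : Γ × (V ≃ᵢ V)} {c C S : ℝ} (h : Sym f e g c C S)
    {y z : V} (hz : z ∈ Cone e c) (hy : y = S • e + z) : dist (g.1 • f y) (f (g.2 y)) ≤ C := by
  rw [hy]; exact h.2 z hz

theorem cone_axis {e : V} (he : ‖e‖ = 1) {c t : ℝ} (hc : c ≤ 1) (ht : 0 ≤ t) :
    t • e ∈ Cone e c := by
  change c * ‖t • e‖ ≤ inner ℝ (t • e) e
  rw [inner_smul_left, real_inner_self_eq_norm_sq, norm_smul, he, Real.norm_of_nonneg ht]
  simp only [RCLike.conj_to_real]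
  nlinarith

theorem Sym.mono {f : V → X} {e : V} (he : ‖e‖ = 1) {g : Γ × (V ≃ᵢ V)} {c C S c' C' S' : ℝ}
    (h : Sym f e g c C S) (hc0 : 0 ≤ c) (hc1 : c ≤ 1) (hc : c ≤ c') (hC : C ≤ C') (hS : S ≤ S') :
    Sym f e g c' C' S' := by
  refine ⟨h.1.trans hS, fun z hz => ?_⟩
  refine (h.apply (z := (S' - S) • e + z) ?_ ?_).trans hC
  · exact Cone.add hc0 (cone_axis he hc1 (by linarith)) (Cone.mono hc hz)
  · module

theorem Sym.comp {f : V → X} {e : V} (he : ‖e‖ = 1) {g₁ g₂ : Γ × (V ≃ᵢ V)}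
    {c₁ C₁ S₁ c₂ C₂ S₂ σ r c' : ℝ} (h₁ : Sym f e g₁ c₁ C₁ S₁) (h₂ : Sym f e g₂ c₂ C₂ S₂)
    (hσ : 0 < σ) (hσ1 : σ ≤ 1) (hr : rot (lin g₁.2) ≤ r) (hrσ : r ≤ σ / 4) (h1 : 0 ≤ c₁)
    (h2 : 0 ≤ c₂) (h1' : c₁ ≤ c') (h2' : c₂ + r ≤ c') (hc' : c' ≤ 1 - σ) :
    Sym f e (g₂ * g₁) c' (C₁ + C₂) (4 / σ * (S₁ + S₂)) := by
  have hS₁ := h₁.nonneg
  have hS₂ := h₂.nonneg
  set S := 4 / σ * (S₁ + S₂) with hS
  have hσS : σ * S = 4 * (S₁ + S₂) := by rw [hS]; field_simp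
  have hr0 := rot_nonneg (lin g₁.2)
  have hge : 4 * (S₁ + S₂) ≤ S := by
    have : σ * S ≤ 1 * S := by
      apply mul_le_mul_of_nonneg_right hσ1
      rw [hS]; positivity
    linarith
  refine ⟨?_, fun z hz => ?_⟩
  · rw [Prod.snd_mul, IsometryEquiv.mul_apply, apply_eq]
    refine (norm_add_le _ _).trans ?_
    rw [LinearIsometryEquiv.norm_map]
    have := h₁.1
    have := h₂.1
    linarith
  · rw [Prod.fst_mul, Prod.snd_mul, IsometryEquiv.mul_apply, mul_smul]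
    set y := S • e + z with hy
    have e1 : dist (g₁.1 • f y) (f (g₁.2 y)) ≤ C₁ := by
      refine h₁.apply (z := (S - S₁) • e + z) ?_ (by rw [hy]; module)
      exact Cone.add h1 (cone_axis he (by linarith) (by linarith)) (Cone.mono h1' hz)
    have e2 : dist (g₂.1 • f (g₁.2 y)) (f (g₂.2 (g₁.2 y))) ≤ C₂ := by
      refine h₂.apply (z := lin g₁.2 z + ((S - S₂) • e +
        ((lin g₁.2 (S • e) - S • e) + g₁.2 0))) ?_ ?_
      · apply Cone.add h2
        · exact Cone.map' he _ (by linarith) hz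
        · apply Cone.near he h2 _ (by linarith)
          have h3 : ‖(lin g₁.2 (S • e) - S • e) + g₁.2 0‖ ≤ r * S + S₁ := by
            refine (norm_add_le _ _).trans (add_le_add ?_ h₁.1)
            refine (rot_apply_le _ _).trans ?_
            rw [norm_smul, he, Real.norm_of_nonneg (by linarith), mul_one]
            exact mul_le_mul_of_nonneg_right hr (by linarith)
          have h4 : 0 ≤ ‖(lin g₁.2 (S • e) - S • e) + g₁.2 0‖ := norm_nonneg _
          have h5 : (1 + c₂) * ‖(lin g₁.2 (S • e) - S • e) + g₁.2 0‖ ≤ 2 * (r * S + S₁) := by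
            nlinarith
          have h6 : r * S ≤ σ / 4 * S := mul_le_mul_of_nonneg_right hrσ (by linarith)
          have h7 : σ * (S - S₂) ≤ (1 - c₂) * (S - S₂) :=
            mul_le_mul_of_nonneg_right (by linarith) (by linarith)
          have h8 : 2 * (r * S + S₁) ≤ σ * (S - S₂) := by nlinarith
          linarith
      · rw [hy, apply_add, apply_eq g₁.2 (S • e)]
        module
    calc dist (g₂.1 • g₁.1 • f y) (f (g₂.2 (g₁.2 y)))
        ≤ dist (g₂.1 • g₁.1 • f y) (g₂.1 • f (g₁.2 y)) +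
          dist (g₂.1 • f (g₁.2 y)) (f (g₂.2 (g₁.2 y))) := dist_triangle _ _ _
      _ ≤ C₁ + C₂ := by
          rw [dist_smul]; linarith

theorem Sym.inv {f : V → X} {e : V} (he : ‖e‖ = 1) {g : Γ × (V ≃ᵢ V)}
    {c C S σ r c' : ℝ} (h : Sym f e g c C S)
    (hσ : 0 < σ) (hσ1 : σ ≤ 1) (hr : rot (lin g.2) ≤ r) (hrσ : r ≤ σ / 4) (h1 : 0 ≤ c)
    (h1' : c + r ≤ c') (hc' : c' ≤ 1 - σ) :
    Sym f e g⁻¹ c' C (8 / σ * S) := by
  have hS0 := h.nonneg
  set T := 8 / σ * S with hT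
  have hσT : σ * T = 8 * S := by rw [hT]; field_simp
  have hge : 8 * S ≤ T := by
    have : σ * T ≤ 1 * T := by
      apply mul_le_mul_of_nonneg_right hσ1
      rw [hT]; positivity
    linarith
  have hr0 := rot_nonneg (lin g.2)
  refine ⟨?_, fun z hz => ?_⟩
  · rw [Prod.snd_inv, norm_inv_zero]
    have := h.1
    linarith
  · rw [Prod.fst_inv, Prod.snd_inv]
    set w := T • e + z with hw
    set y := g.2⁻¹ w with hy
    have hwy : w = g.2 y := by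
      rw [hy, ← IsometryEquiv.mul_apply, mul_inv_cancel]; simp
    have e1 : dist (g.1 • f y) (f (g.2 y)) ≤ C := by
      refine h.apply (z := (lin g.2)⁻¹ z + ((T - S) • e +
        (((lin g.2)⁻¹ (T • e) - T • e) + g.2⁻¹ 0))) ?_ ?_
      · apply Cone.add h1
        · exact Cone.map' he _ (by rw [rot_inv]; linarith) hz
        · apply Cone.near he h1 _ (by linarith)
          have h3 : ‖((lin g.2)⁻¹ (T • e) - T • e) + g.2⁻¹ 0‖ ≤ r * T + S := by
            refine (norm_add_le _ _).trans (add_le_add ?_ ?_)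
            · refine (rot_apply_le _ _).trans ?_
              rw [rot_inv, norm_smul, he, Real.norm_of_nonneg (by linarith), mul_one]
              exact mul_le_mul_of_nonneg_right hr (by linarith)
            · rw [norm_inv_zero]; exact h.1
          have h4 : 0 ≤ ‖((lin g.2)⁻¹ (T • e) - T • e) + g.2⁻¹ 0‖ := norm_nonneg _
          have h5 : (1 + c) * ‖((lin g.2)⁻¹ (T • e) - T • e) + g.2⁻¹ 0‖ ≤ 2 * (r * T + S) := by
            nlinarith
          have h6 : r * T ≤ σ / 4 * T := mul_le_mul_of_nonneg_right hrσ (by linarith)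
          have h7 : σ * (T - S) ≤ (1 - c) * (T - S) :=
            mul_le_mul_of_nonneg_right (by linarith) (by linarith)
          have h8 : 2 * (r * T + S) ≤ σ * (T - S) := by nlinarith
          linarith
      · rw [hy, hw, apply_add, apply_eq g.2⁻¹ (T • e), lin_inv]
        module
    rw [hwy, ← dist_smul g.1, smul_inv_smul, dist_comm]
    exact e1

theorem Sym.commutator {f : V → X} {e : V} (he : ‖e‖ = 1) {g h : Γ × (V ≃ᵢ V)}
    {c Cg Ch Sg Sh σ r : ℝ} (hg : Sym f e g c Cg Sg) (hh : Sym f e h c Ch Sh)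
    (hσ : 0 < σ) (hσ1 : σ ≤ 1) (hrg : rot (lin g.2) ≤ r) (hrh : rot (lin h.2) ≤ r)
    (hrσ : 3 * r ≤ σ / 4) (hc : 0 ≤ c) (hc' : c + 3 * r ≤ 1 - σ) :
    Sym f e (g * h * g⁻¹ * h⁻¹) (c + 3 * r) (2 * Cg + 2 * Ch) ((8 / σ) ^ 4 * (Sg + Sh)) := by
  have hr0 : 0 ≤ r := (rot_nonneg _).trans hrg
  have hSg := hg.nonneg
  have hSh := hh.nonneg
  set Λ := 8 / σ with hΛ
  have hΛ8 : 8 ≤ Λ := by rw [hΛ, le_div_iff₀ hσ]; linarith
  have h4Λ : 4 / σ = Λ / 2 := by rw [hΛ]; ring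
  have i1 := hh.inv he hσ hσ1 hrh (by linarith) hc (c' := c + r) le_rfl (by linarith)
  have i2 := hg.inv he hσ hσ1 hrg (by linarith) hc (c' := c + r) le_rfl (by linarith)
  have r1 : rot (lin h⁻¹.2) ≤ r := by rw [Prod.snd_inv, lin_inv, rot_inv]; exact hrh
  have r2 : rot (lin g⁻¹.2) ≤ r := by rw [Prod.snd_inv, lin_inv, rot_inv]; exact hrg
  have i3 := i1.comp he i2 hσ hσ1 r1 (by linarith) (by linarith) (by linarith)
    (c' := c + 2 * r) (by linarith) (by linarith) (by linarith)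
  have r3 : rot (lin (g⁻¹ * h⁻¹).2) ≤ 2 * r := by
    rw [Prod.snd_mul, lin_mul]
    refine (rot_mul_le _ _).trans ?_
    linarith
  have i4 := i3.comp he hh hσ hσ1 r3 (by linarith) (by linarith) hc
    (c' := c + 2 * r) (by linarith) (by linarith) (by linarith)
  have r4 : rot (lin (h * (g⁻¹ * h⁻¹)).2) ≤ 3 * r := by
    rw [Prod.snd_mul, lin_mul]
    refine (rot_mul_le _ _).trans ?_
    linarith
  have i5 := i4.comp he hg hσ hσ1 r4 (by linarith) (by linarith) hc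
    (c' := c + 3 * r) (by linarith) (by linarith) (by linarith)
  have heq : g * h * g⁻¹ * h⁻¹ = g * (h * (g⁻¹ * h⁻¹)) := by group
  rw [heq]
  refine i5.mono he (by linarith) (by linarith) le_rfl (by linarith) ?_
  rw [h4Λ]
  have hΛ0 : 0 ≤ Λ := by linarith
  have s0 : 0 ≤ Sg + Sh := by linarith
  have s1 : Λ / 2 * (Λ * Sh + Λ * Sg) ≤ Λ ^ 2 * (Sg + Sh) := by
    have : Λ / 2 * (Λ * Sh + Λ * Sg) = Λ ^ 2 / 2 * (Sg + Sh) := by ring
    rw [this]
    have : 0 ≤ Λ ^ 2 := by positivity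
    nlinarith
  have s2 : Λ / 2 * (Λ / 2 * (Λ * Sh + Λ * Sg) + Sh) ≤ Λ ^ 3 * (Sg + Sh) := by
    have h0 : 1 ≤ Λ ^ 2 := one_le_pow₀ (by linarith)
    have h1 : Sh ≤ Λ ^ 2 * (Sg + Sh) := by nlinarith
    calc Λ / 2 * (Λ / 2 * (Λ * Sh + Λ * Sg) + Sh)
        ≤ Λ / 2 * (Λ ^ 2 * (Sg + Sh) + Λ ^ 2 * (Sg + Sh)) := by gcongr
      _ = Λ ^ 3 * (Sg + Sh) := by ring
  have h3 : 1 ≤ Λ ^ 3 := one_le_pow₀ (by linarith)
  calc Λ / 2 * (Λ / 2 * (Λ / 2 * (Λ * Sh + Λ * Sg) + Sh) + Sg)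
      ≤ Λ / 2 * (Λ ^ 3 * (Sg + Sh) + Λ ^ 3 * (Sg + Sh)) := by
        gcongr
        nlinarith
    _ = Λ ^ 4 * (Sg + Sh) := by ring

end Pool.Agent.Helper39.Flats
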