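import Pool.Agent.Helper39.Flats.Center

set_option linter.unusedSectionVars false

namespace Pool.Agent.Helper39.Flats

open Set Filter Topology

variable {X : Type*} [MetricSpace X]

section Slab

variable {V : Type*} [NormedAddCommGroup V] [InnerProductSpace ℝ V]

/-- a centred slab -/
theorem Al.slab (hX : IsCAT0 X) {f g : V → X} (hf : Isometry f) (hg : Isometry g) {δ r : ℝ}
    (hr : 0 < r) (hδ : 2 * r ≤ |δ|) (h : Al f g δ) :
    ∃ G : V → ℝ → X, ∀ s ∈ Icc (-r) r, ∀ t ∈ Icc (-r) r, ∀ p q,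
      dist (G p s) (G q t) ^ 2 = ‖p - q‖ ^ 2 + (s - t) ^ 2 := by
  obtain ⟨F, -, -, hF⟩ := h.interp hX hf hg
  have hδ0 : 0 < |δ| := by linarith
  refine ⟨fun p s => F ((s + r) / |δ|) p, ?_⟩
  intro s hs t ht p q
  have h1 : ∀ s ∈ Icc (-r) r, (s + r) / |δ| ∈ Icc (0 : ℝ) 1 := by
    intro s hs
    rw [mem_Icc] at hs
    constructor
    · apply div_nonneg <;> linarith
    · rw [div_le_one hδ0]; linarith
  rw [hF _ (h1 s hs) _ (h1 t ht) p q]
  congr 1
  have : (s + r) / |δ| - (t + r) / |δ| = (s - t) / |δ| := by ring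
  rw [this, mul_pow, div_pow, sq_abs, div_mul_cancel₀]
  rw [← sq_abs]
  positivity

/-- A limit of thick slabs. -/
theorem exists_thick [ProperSpace X] {Γ : Type*} [Group Γ] [MulAction Γ X] [IsIsometricSMul Γ X]
    {K₀ : Set X} (hK₀ : IsCompact K₀) (hco : ∀ x : X, ∃ γ : Γ, γ • x ∈ K₀)
    (h : ∀ n : ℕ, ∃ G : V → ℝ → X, ∀ s ∈ Icc (-(n : ℝ)) n, ∀ t ∈ Icc (-(n : ℝ)) n, ∀ p q,
      dist (G p s) (G q t) ^ 2 = ‖p - q‖ ^ 2 + (s - t) ^ 2) :
    ∃ Ψ : V → ℝ → X, ∀ p q s t, dist (Ψ p s) (Ψ q t) ^ 2 = ‖p - q‖ ^ 2 + (s - t) ^ 2 := by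
  choose G hG using h
  choose γ hγ using fun n => hco (G n 0 0)
  set H : ℕ → V → ℝ → X := fun n p s => γ n • G n p s with hH
  have hHd : ∀ n : ℕ, ∀ s ∈ Icc (-(n : ℝ)) n, ∀ t ∈ Icc (-(n : ℝ)) n, ∀ p q,
      dist (H n p s) (H n q t) ^ 2 = ‖p - q‖ ^ 2 + (s - t) ^ 2 := by
    intro n s hs t ht p q
    rw [hH]
    simp only [dist_smul]
    exact hG n s hs t ht p q
  have hmem : ∀ s : ℝ, ∀ᶠ n : ℕ in (hyperfilter ℕ : Filter ℕ), s ∈ Icc (-(n : ℝ)) n := by
    intro s
    have h1 : ∀ᶠ n : ℕ in atTop, s ∈ Icc (-(n : ℝ)) n := by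
      obtain ⟨N, hN⟩ := exists_nat_ge |s|
      filter_upwards [eventually_ge_atTop N] with n hn
      have h2 : |s| ≤ n := hN.trans (by exact_mod_cast hn)
      rw [abs_le] at h2
      exact h2
    exact h1.filter_mono (Nat.hyperfilter_le_atTop)
  have hlim : ∀ p s, ∃ x, Tendsto (fun n => H n p s) (hyperfilter ℕ : Filter ℕ) (𝓝 x) := by
    intro p s
    set C := Metric.cthickening (‖p‖ + |s|) K₀ with hC
    have hCc : IsCompact C := hK₀.cthickening
    have hev : ∀ᶠ n : ℕ in (hyperfilter ℕ : Filter ℕ), H n p s ∈ C := by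
      filter_upwards [hmem s] with n hn
      have h0 : (0 : ℝ) ∈ Icc (-(n : ℝ)) n := ⟨by simp, by simp⟩
      refine Metric.mem_cthickening_of_dist_le _ _ _ _ (hγ n) ?_
      have h1 := hHd n s hn 0 h0 p 0
      have h2 : dist (H n p s) (H n 0 0) ^ 2 ≤ (‖p‖ + |s|) ^ 2 := by
        rw [h1, sub_zero, sub_zero]
        have : s ^ 2 = |s| ^ 2 := (sq_abs s).symm
        rw [this]
        nlinarith [mul_nonneg (norm_nonneg p) (abs_nonneg s)]
      exact (abs_le_of_sq_le_sq' h2 (by positivity)).2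
    have hle : (((hyperfilter ℕ).map (fun n => H n p s) : Ultrafilter X) : Filter X) ≤ 𝓟 C := by
      rw [le_principal_iff]
      exact hev
    obtain ⟨x, -, hx⟩ := hCc.ultrafilter_le_nhds _ hle
    exact ⟨x, hx⟩
  choose Ψ hΨ using hlim
  refine ⟨Ψ, fun p q s t => ?_⟩
  have h1 : Tendsto (fun n => dist (H n p s) (H n q t) ^ 2) (hyperfilter ℕ : Filter ℕ)
      (𝓝 (dist (Ψ p s) (Ψ q t) ^ 2)) := ((hΨ p s).dist (hΨ q t)).pow 2
  have h2 : Tendsto (fun n => dist (H n p s) (H n q t) ^ 2) (hyperfilter ℕ : Filter ℕ)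
      (𝓝 (‖p - q‖ ^ 2 + (s - t) ^ 2)) := by
    refine tendsto_const_nhds.congr' ?_
    filter_upwards [hmem s, hmem t] with n hs ht
    exact (hHd n s hs t ht p q).symm
  exact tendsto_nhds_unique h1 h2

end Slab

/-- tilted planes in a three dimensional flat -/
theorem exists_tilted {Ψ : Plane → ℝ → X}
    (hΨ : ∀ p q s t, dist (Ψ p s) (Ψ q t) ^ 2 = ‖p - q‖ ^ 2 + (s - t) ^ 2) :
    ∃ F : ℝ → Plane → X, (∀ x, Isometry (F x)) ∧ ∀ x y, x ≠ y → ∀ A : Plane → Plane,
      ¬ ∃ C : ℝ, ∀ p, dist (F x p) (F y (A p)) ≤ C := by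
  have hn : ∀ w : Plane, ‖w‖ ^ 2 = (w 0) ^ 2 + (w 1) ^ 2 := by
    intro w
    rw [EuclideanSpace.norm_eq, Real.sq_sqrt (by positivity)]
    simp [Fin.sum_univ_two]
  set F : ℝ → Plane → X := fun x p => Ψ !₂[p 0, p 1 * Real.cos (Real.arctan x)]
    (p 1 * Real.sin (Real.arctan x)) with hF
  have hFd : ∀ x y p q, dist (F x p) (F y q) ^ 2 = (p 0 - q 0) ^ 2 +
      (p 1 * Real.cos (Real.arctan x) - q 1 * Real.cos (Real.arctan y)) ^ 2 +
      (p 1 * Real.sin (Real.arctan x) - q 1 * Real.sin (Real.arctan y)) ^ 2 := by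
    intro x y p q
    rw [hF]
    simp only
    rw [hΨ, hn]
    simp
  refine ⟨F, fun x => ?_, ?_⟩
  · apply Isometry.of_dist_eq
    intro p q
    have h1 := hFd x x p q
    have h2 : dist (F x p) (F x q) ^ 2 = dist p q ^ 2 := by
      rw [h1, dist_eq_norm, hn]
      simp only [PiLp.sub_apply]
      linear_combination (p 1 - q 1) ^ 2 * Real.sin_sq_add_cos_sq (Real.arctan x)
    exact (pow_left_inj₀ dist_nonneg dist_nonneg two_ne_zero).1 h2
  · rintro x y hxy A ⟨C, hC⟩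
    set α := Real.arctan x with hα
    set β := Real.arctan y with hβ
    have hsin : Real.sin (α - β) ≠ 0 := by
      intro h0
      have h1 := Real.arctan_lt_pi_div_two x
      have h2 := Real.neg_pi_div_two_lt_arctan x
      have h3 := Real.arctan_lt_pi_div_two y
      have h4 := Real.neg_pi_div_two_lt_arctan y
      have h5 := (Real.sin_eq_zero_iff_of_lt_of_lt (x := α - β) (by linarith) (by linarith)).1 h0
      exact hxy (Real.arctan_injective (by linarith))
    have hC0 : 0 ≤ C := dist_nonneg.trans (hC 0)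
    set S := Real.sin (α - β) ^ 2 with hS
    have hS0 : 0 < S := by positivity
    set T := (C + 1) / |Real.sin (α - β)| with hT
    have hT2 : T ^ 2 * S = (C + 1) ^ 2 := by
      rw [hT, hS, div_pow, sq_abs]
      field_simp
    set p : Plane := !₂[0, T] with hp
    have h1 := hFd x y p (A p)
    have h2 := pow_le_pow_left₀ dist_nonneg (hC p) 2
    have h3 : T ^ 2 * S ≤ dist (F x p) (F y (A p)) ^ 2 := by
      rw [h1]
      have p1 : p 1 = T := by simp [hp]
      rw [p1]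
      set q := A p 1
      have e1 : (T * Real.cos α - q * Real.cos β) ^ 2 + (T * Real.sin α - q * Real.sin β) ^ 2 =
          T ^ 2 + q ^ 2 - 2 * T * q * Real.cos (α - β) := by
        rw [Real.cos_sub]
        linear_combination T ^ 2 * Real.sin_sq_add_cos_sq α + q ^ 2 * Real.sin_sq_add_cos_sq β
      have e2 : T ^ 2 + q ^ 2 - 2 * T * q * Real.cos (α - β) =
          T ^ 2 * S + (q - T * Real.cos (α - β)) ^ 2 := by
        rw [hS]
        linear_combination (-T ^ 2) * Real.sin_sq_add_cos_sq (α - β)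
      nlinarith [sq_nonneg (p 0 - A p 0), sq_nonneg (q - T * Real.cos (α - β))]
    rw [hT2] at h3
    nlinarith

end Pool.Agent.Helper39.Flats
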